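import Mathlib

set_option autoImplicit false

namespace Pool.Agent.Helper426.TW

open Matrix

/-- Evaluate a positive word (a list of letters `0 = a`, `1 = b`). -/
def ev {M : Type*} [Monoid M] (g : Fin 2 → M) (w : List (Fin 2)) : M := (w.map g).prod

@[simp] theorem ev_nil {M : Type*} [Monoid M] (g : Fin 2 → M) : ev g [] = 1 := rfl
@[simp] theorem ev_cons {M : Type*} [Monoid M] (g : Fin 2 → M) (c : Fin 2) (w : List (Fin 2)) :
    ev g (c :: w) = g c * ev g w := by simp [ev]
theorem ev_append {M : Type*} [Monoid M] (g : Fin 2 → M) (w w' : List (Fin 2)) :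
    ev g (w ++ w') = ev g w * ev g w' := by simp [ev]
theorem map_ev {M N : Type*} [Monoid M] [Monoid N] (φ : M →* N) (g : Fin 2 → M)
    (w : List (Fin 2)) : φ (ev g w) = ev (fun i => φ (g i)) w := by
  induction w with
  | nil => simp
  | cons c w ih => simp [ih]

theorem trace_map_ev {P S : Type*} [CommRing P] [CommRing S] (φ : P →+* S)
    (X : Fin 2 → Matrix (Fin 3) (Fin 3) P) (w : List (Fin 2)) :
    φ ((ev X w).trace) = (ev (fun i => φ.mapMatrix (X i)) w).trace := by
  have h : φ.mapMatrix (ev X w) = ev (fun i => φ.mapMatrix (X i)) w := by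
    induction w with
    | nil => simp
    | cons c w ih => rw [ev_cons, ev_cons, map_mul, ih]
  rw [← h]
  simp [Matrix.trace]

/-- trace agreement on invertible complex matrices implies agreement over every commutative ring -/
theorem generic (u v : List (Fin 2))
    (h : ∀ g : Fin 2 → Matrix (Fin 3) (Fin 3) ℂ, (∀ i, (g i).det ≠ 0) →
      (ev g u).trace = (ev g v).trace)
    {R : Type*} [CommRing R] (g : Fin 2 → Matrix (Fin 3) (Fin 3) R) :
    (ev g u).trace = (ev g v).trace := by
  classical
  set P := MvPolynomial (Fin 2 × Fin 3 × Fin 3) ℤ with hP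
  let X : Fin 2 → Matrix (Fin 3) (Fin 3) P := fun c => Matrix.of fun i j => MvPolynomial.X (c, i, j)
  set f : P := (ev X u).trace - (ev X v).trace with hf
  set d : P := (X 0).det * (X 1).det with hd
  have h1 : f * d = 0 := by
    have hinj := MvPolynomial.map_injective (σ := Fin 2 × Fin 3 × Fin 3) (Int.castRingHom ℂ)
      (Int.cast_injective)
    apply hinj
    rw [map_zero]
    apply MvPolynomial.funext
    intro x
    rw [map_zero]
    set φ : P →+* ℂ := (MvPolynomial.eval x).comp (MvPolynomial.map (Int.castRingHom ℂ)) with hφ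
    change φ (f * d) = 0
    rw [map_mul, hf, hd, map_sub, trace_map_ev, trace_map_ev, map_mul, RingHom.map_det, RingHom.map_det]
    by_cases h0 : (φ.mapMatrix (X 0)).det = 0
    · rw [h0]; simp
    by_cases h1 : (φ.mapMatrix (X 1)).det = 0
    · rw [h1]; simp
    have := h (fun i => φ.mapMatrix (X i)) (by intro i; fin_cases i <;> assumption)
    rw [this]; simp
  have h2 : d ≠ 0 := by
    intro hd0
    have hs : ∀ c : Fin 2, (MvPolynomial.eval (fun s : Fin 2 × Fin 3 × Fin 3 =>
        if s.2.1 = s.2.2 then (1:ℤ) else 0)).mapMatrix (X c) = 1 := by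
      intro c
      ext i j
      simp [X, Matrix.one_apply]
    have : MvPolynomial.eval (fun s : Fin 2 × Fin 3 × Fin 3 =>
        if s.2.1 = s.2.2 then (1:ℤ) else 0) d = 1 := by
      rw [hd, map_mul, RingHom.map_det, RingHom.map_det, hs, hs]; simp
    rw [hd0, map_zero] at this
    exact zero_ne_one this
  have h3 : f = 0 := (mul_eq_zero.mp h1).resolve_right h2
  let φ : P →+* R := MvPolynomial.eval₂Hom (Int.castRingHom R) (fun s => g s.1 s.2.1 s.2.2)
  have h4 := congrArg φ h3
  rw [hf, map_sub, map_zero, trace_map_ev, trace_map_ev] at h4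
  have h5 : (fun i => φ.mapMatrix (X i)) = g := by
    funext c
    ext i j
    simp only [RingHom.mapMatrix_apply, Matrix.map_apply, X, Matrix.of_apply]
    exact MvPolynomial.eval₂_X _ _ _
  rw [h5] at h4
  exact sub_eq_zero.mp h4

end Pool.Agent.Helper426.TW
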