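import Mathlib
import Pool.Agent.Helper426.TW.Basic

set_option autoImplicit false

namespace Pool.Agent.Helper426.TW

open Matrix Finset

/-- sum over the occurrences of the letter `c` in `w = p c s` of `F p s` -/
def splits {M : Type*} [AddCommMonoid M] (c : Fin 2) (w : List (Fin 2))
    (F : List (Fin 2) → List (Fin 2) → M) : M :=
  ∑ i ∈ range w.length, if w[i]? = some c then F (w.take i) (w.drop (i + 1)) else 0

@[simp] theorem splits_nil {M : Type*} [AddCommMonoid M] (c : Fin 2)
    (F : List (Fin 2) → List (Fin 2) → M) : splits c [] F = 0 := by simp [splits]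

theorem splits_cons {M : Type*} [AddCommMonoid M] (c x : Fin 2) (w : List (Fin 2))
    (F : List (Fin 2) → List (Fin 2) → M) :
    splits c (x :: w) F = splits c w (fun p s => F (x :: p) s) + (if x = c then F [] w else 0) := by
  unfold splits
  rw [List.length_cons, Finset.sum_range_succ']
  simp

theorem splits_mul_left {M : Type*} [NonUnitalNonAssocSemiring M] (c : Fin 2) (w : List (Fin 2))
    (F : List (Fin 2) → List (Fin 2) → M) (A : M) :
    A * splits c w F = splits c w (fun p s => A * F p s) := by
  unfold splits
  rw [Finset.mul_sum]
  refine Finset.sum_congr rfl fun i _ => ?_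
  split_ifs <;> simp

theorem splits_matrix_mul_left {m n k K : Type*} [Fintype m] [Fintype n] [CommRing K]
    (c : Fin 2) (w : List (Fin 2))
    (F : List (Fin 2) → List (Fin 2) → Matrix m n K) (A : Matrix k m K) :
    A * splits c w F = splits c w (fun p s => A * F p s) := by
  unfold splits
  rw [Matrix.mul_sum]
  refine Finset.sum_congr rfl fun i _ => ?_
  split_ifs <;> simp

theorem splits_map {M N : Type*} [AddCommMonoid M] [AddCommMonoid N] (φ : M →+ N)
    (c : Fin 2) (w : List (Fin 2)) (F : List (Fin 2) → List (Fin 2) → M) :
    φ (splits c w F) = splits c w (fun p s => φ (F p s)) := by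
  unfold splits
  rw [map_sum]
  refine Finset.sum_congr rfl fun i _ => ?_
  split_ifs <;> simp

section
variable {m n K : Type*} [Fintype m] [Fintype n] [DecidableEq m] [DecidableEq n] [CommRing K]

theorem ev_block (d : Fin 2) (X : Fin 2 → Matrix m m K) (U : Matrix m n K)
    (Y : Fin 2 → Matrix n n K) (l : List (Fin 2)) :
    ev (fun i => Matrix.fromBlocks (X i) (if i = d then U else 0) 0 (Y i)) l =
      Matrix.fromBlocks (ev X l) (splits d l (fun p s => ev X p * U * ev Y s)) 0 (ev Y l) := by
  induction l with
  | nil => simp
  | cons x l ih =>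
    rw [ev_cons, ih, ev_cons, ev_cons, Matrix.fromBlocks_multiply, splits_cons,
      splits_matrix_mul_left]
    congr 1
    · simp
    · congr 1
      · congr 1; funext p s; simp [Matrix.mul_assoc]
      · split_ifs <;> simp
    · simp
    · simp
end

section
variable {I K : Type*} [Fintype I] [DecidableEq I] [CommRing K]

/-- first order perturbation of a product -/
theorem ev_dual (c : Fin 2) (P : Fin 2 → Matrix I I K) (E : Matrix I I K) (w : List (Fin 2)) :
    ev (fun i => (TrivSqZeroExt.inlHom K K).mapMatrix (P i) +
        (DualNumber.eps : DualNumber K) • (TrivSqZeroExt.inlHom K K).mapMatrix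
          (if i = c then E else 0)) w =
      (TrivSqZeroExt.inlHom K K).mapMatrix (ev P w) +
        (DualNumber.eps : DualNumber K) • (TrivSqZeroExt.inlHom K K).mapMatrix
          (splits c w (fun p s => ev P p * E * ev P s)) := by
  induction w with
  | nil => simp
  | cons x w ih =>
    rw [ev_cons, ih, ev_cons, splits_cons]
    have h1 : splits c w (fun p s => ev P (x :: p) * E * ev P s) =
        P x * splits c w (fun p s => ev P p * E * ev P s) := by
      rw [splits_mul_left]; congr 1; funext p s; simp [mul_assoc]
    rw [h1]
    have h2 : (if x = c then ev P [] * E * ev P w else 0) = (if x = c then E else 0) * ev P w := by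
      split_ifs <;> simp
    rw [h2]
    set Z := splits c w (fun p s => ev P p * E * ev P s)
    set W := ev P w
    set E' := (if x = c then E else 0)
    set φ := (TrivSqZeroExt.inlHom K K).mapMatrix (m := I)
    rw [map_mul, map_add, map_mul, map_mul, add_mul, mul_add, mul_add, smul_mul_smul_comm,
      DualNumber.eps_mul_eps, zero_smul, mul_smul_comm, smul_mul_assoc, smul_add]
    abel

theorem trace_dual (A B : Matrix I I K) :
    (((TrivSqZeroExt.inlHom K K).mapMatrix A +
        (DualNumber.eps : DualNumber K) • (TrivSqZeroExt.inlHom K K).mapMatrix B).trace).snd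
      = B.trace := by
  simp [Matrix.trace, Matrix.add_apply, TrivSqZeroExt.snd_sum]

end

end Pool.Agent.Helper426.TW
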