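import Mathlib
import Pool.Agent.Helper426.TW.Block

set_option autoImplicit false

namespace Pool.Agent.Helper426.TW

open Matrix Finset

/-- the content of a word -/
noncomputable def ct (l : List (Fin 2)) : Fin 2 →₀ ℕ := (l.map (fun i => Finsupp.single i 1)).sum

@[simp] theorem ct_nil : ct [] = 0 := rfl
@[simp] theorem ct_cons (c : Fin 2) (l : List (Fin 2)) : ct (c :: l) = Finsupp.single c 1 + ct l := by
  simp [ct]
theorem ct_append (l l' : List (Fin 2)) : ct (l ++ l') = ct l + ct l' := by simp [ct]

theorem ct_apply (l : List (Fin 2)) (i : Fin 2) : ct l i = l.count i := by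
  induction l with
  | nil => simp
  | cons c l ih =>
    rw [ct_cons, Finsupp.add_apply, ih, List.count_cons, Finsupp.single_apply]
    by_cases h : c = i <;> simp [h, add_comm]

theorem ct_eq_iff_perm (l l' : List (Fin 2)) : ct l = ct l' ↔ l.Perm l' := by
  rw [List.perm_iff_count, Finsupp.ext_iff]
  simp [ct_apply]

theorem ev_mono (l : List (Fin 2)) :
    ev (fun i => (Matrix.of fun _ _ => MvPolynomial.X i : Matrix (Fin 1) (Fin 1)
      (MvPolynomial (Fin 2) ℤ))) l = Matrix.of fun _ _ => MvPolynomial.monomial (ct l) 1 := by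
  induction l with
  | nil => ext i j; fin_cases i; fin_cases j; simp
  | cons c l ih =>
    rw [ev_cons, ih]
    ext1 i j
    rw [Matrix.mul_apply]
    simp [MvPolynomial.X, MvPolynomial.monomial_mul]

theorem trace_generic_sum (u v : List (Fin 2))
    (h : ∀ g : Fin 2 → Matrix (Fin 3) (Fin 3) ℂ, (∀ i, (g i).det ≠ 0) →
      (ev g u).trace = (ev g v).trace)
    {R : Type*} [CommRing R] (g : Fin 2 → Matrix (Fin 2 ⊕ Fin 1) (Fin 2 ⊕ Fin 1) R) :
    (ev g u).trace = (ev g v).trace := by
  have key : ∀ w : List (Fin 2), (ev g w).trace =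
      (ev (fun i => Matrix.reindexAlgEquiv R R (finSumFinEquiv (m := 2) (n := 1)) (g i)) w).trace := by
    intro w
    have h1 : Matrix.reindexAlgEquiv R R (finSumFinEquiv (m := 2) (n := 1)) (ev g w) =
        ev (fun i => Matrix.reindexAlgEquiv R R (finSumFinEquiv (m := 2) (n := 1)) (g i)) w := by
      induction w with
      | nil => simp
      | cons c w ih => rw [ev_cons, ev_cons, map_mul, ih]
    rw [← h1]
    simp only [Matrix.trace, Matrix.coe_reindexAlgEquiv, Matrix.diag_apply,
      Matrix.reindex_apply, Matrix.submatrix_apply]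
    exact (Equiv.sum_comp (finSumFinEquiv (m := 2) (n := 1)).symm (fun i => ev g w i i)).symm
  rw [key, key]
  exact generic u v h _

theorem splits_congr {M : Type*} [AddCommMonoid M] (c : Fin 2) (w : List (Fin 2))
    {F G : List (Fin 2) → List (Fin 2) → M} (h : ∀ p s, F p s = G p s) :
    splits c w F = splits c w G := by
  have : F = G := by funext p s; exact h p s
  rw [this]

theorem trace_fromBlocks' {m n K : Type*} [Fintype m] [Fintype n] [AddCommMonoid K]
    (A : Matrix m m K) (B : Matrix m n K) (C : Matrix n m K) (D : Matrix n n K) :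
    (Matrix.fromBlocks A B C D).trace = A.trace + D.trace := by
  simp [Matrix.trace]

/-- The second order identity. -/
theorem second (u v : List (Fin 2))
    (h : ∀ g : Fin 2 → Matrix (Fin 3) (Fin 3) ℂ, (∀ i, (g i).det ≠ 0) →
      (ev g u).trace = (ev g v).trace)
    (c d : Fin 2) (κ : Fin 2 →₀ ℕ) (X : Fin 2 → Matrix (Fin 2) (Fin 2) ℤ) (i j : Fin 2) :
    splits c u (fun p s => splits d (s ++ p) (fun p' s' => if ct s' = κ then ev X p' i j else 0)) =
    splits c v (fun p s => splits d (s ++ p) (fun p' s' => if ct s' = κ then ev X p' i j else 0)) := by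
  classical
  set K := MvPolynomial (Fin 2) ℤ with hK
  let C : ℤ →+* K := MvPolynomial.C
  let XX : Fin 2 → Matrix (Fin 2) (Fin 2) K := fun a => C.mapMatrix (X a)
  let YY : Fin 2 → Matrix (Fin 1) (Fin 1) K := fun a => Matrix.of fun _ _ => MvPolynomial.X a
  let U : Matrix (Fin 2) (Fin 1) K := Matrix.of fun a _ => if a = j then 1 else 0
  let V : Matrix (Fin 1) (Fin 2) K := Matrix.of fun _ b => if i = b then 1 else 0
  let g : Fin 2 → Matrix (Fin 2 ⊕ Fin 1) (Fin 2 ⊕ Fin 1) K :=
    fun a => Matrix.fromBlocks (XX a) (if a = d then U else 0) 0 (YY a)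
  let E : Matrix (Fin 2 ⊕ Fin 1) (Fin 2 ⊕ Fin 1) K := Matrix.fromBlocks 0 0 V 0
  have h1 := trace_generic_sum u v h (fun a => (TrivSqZeroExt.inlHom K K).mapMatrix (g a) +
        (DualNumber.eps : DualNumber K) • (TrivSqZeroExt.inlHom K K).mapMatrix
          (if a = c then E else 0))
  have h2 := congrArg TrivSqZeroExt.snd h1
  rw [ev_dual, ev_dual, trace_dual, trace_dual] at h2
  have h3 : ∀ w : List (Fin 2), MvPolynomial.coeff κ
      (splits c w (fun p s => ev g p * E * ev g s)).trace =
      splits c w (fun p s => splits d (s ++ p)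
        (fun p' s' => if ct s' = κ then ev X p' i j else 0)) := by
    intro w
    have e1 := splits_map (Matrix.traceAddMonoidHom (Fin 2 ⊕ Fin 1) K) c w
      (fun p s => ev g p * E * ev g s)
    rw [Matrix.traceAddMonoidHom_apply] at e1
    rw [e1]
    have e2 := splits_map (MvPolynomial.coeffAddMonoidHom (R := ℤ) κ : K →+ ℤ) c w
      (fun p s => Matrix.traceAddMonoidHom (Fin 2 ⊕ Fin 1) K (ev g p * E * ev g s))
    rw [MvPolynomial.coeffAddMonoidHom_apply] at e2
    rw [e2]
    refine splits_congr c w fun p s => ?_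
    rw [Matrix.traceAddMonoidHom_apply, MvPolynomial.coeffAddMonoidHom_apply]
    have e3 : (ev g p * E * ev g s).trace = (E * ev g (s ++ p)).trace := by
      rw [ev_append, mul_assoc, Matrix.trace_mul_comm, mul_assoc]
    rw [e3]
    have e4 : ev g (s ++ p) = Matrix.fromBlocks (ev XX (s ++ p))
        (splits d (s ++ p) (fun p s => ev XX p * U * ev YY s)) 0 (ev YY (s ++ p)) :=
      ev_block d XX U YY (s ++ p)
    rw [e4, Matrix.fromBlocks_multiply, trace_fromBlocks']
    simp only [Matrix.zero_mul, Matrix.mul_zero, add_zero, Matrix.trace_zero, zero_add]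
    rw [splits_matrix_mul_left]
    have e5 := splits_map (Matrix.traceAddMonoidHom (Fin 1) K) d (s ++ p)
      (fun p s => V * (ev XX p * U * ev YY s))
    rw [Matrix.traceAddMonoidHom_apply] at e5
    rw [e5]
    have e6 := splits_map (MvPolynomial.coeffAddMonoidHom (R := ℤ) κ : K →+ ℤ) d (s ++ p)
      (fun p s => Matrix.traceAddMonoidHom (Fin 1) K (V * (ev XX p * U * ev YY s)))
    rw [MvPolynomial.coeffAddMonoidHom_apply] at e6
    rw [e6]
    refine splits_congr d (s ++ p) fun p' s' => ?_
    rw [Matrix.traceAddMonoidHom_apply, MvPolynomial.coeffAddMonoidHom_apply]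
    have e7 : ev YY s' = Matrix.of fun _ _ => MvPolynomial.monomial (ct s') 1 := ev_mono s'
    have e8 : ev XX p' = C.mapMatrix (ev X p') := by
      clear * -
      induction p' with
      | nil => simp
      | cons a l ih => rw [ev_cons, ih, ev_cons, map_mul]
    rw [e7, e8]
    have e9 : (V * (C.mapMatrix (ev X p') * U * (Matrix.of (fun _ _ =>
        (MvPolynomial.monomial (ct s') (1:ℤ) : K)) : Matrix (Fin 1) (Fin 1) K))).trace =
        MvPolynomial.monomial (ct s') (ev X p' i j) := by
      simp only [Matrix.trace, Finset.univ_unique, Matrix.diag_apply, Finset.sum_singleton,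
        Matrix.mul_apply, V, U, Matrix.of_apply, C, RingHom.mapMatrix_apply, Matrix.map_apply]
      simp only [mul_ite, mul_one, mul_zero, ite_mul, one_mul, zero_mul, Finset.sum_ite_eq,
        Finset.sum_ite_eq', Finset.mem_univ, if_true]
      rw [MvPolynomial.C_mul_monomial, mul_one]
    rw [e9, MvPolynomial.coeff_monomial]
  rw [← h3 u, ← h3 v, h2]

end Pool.Agent.Helper426.TW
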