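import Mathlib
import Pool.Agent.Helper426.TW.Second

set_option autoImplicit false

namespace Pool.Agent.Helper426.TW

open Matrix Finset

/-! ### A faithful representation of the free monoid -/

def XX : Fin 2 → Matrix (Fin 2) (Fin 2) ℤ := ![!![1, 1; 0, 1], !![1, 0; 1, 1]]

theorem XX_cons (c : Fin 2) (w : List (Fin 2)) :
    (c = 0 ∧ ev XX (c :: w) 0 0 = ev XX w 0 0 + ev XX w 1 0 ∧
      ev XX (c :: w) 0 1 = ev XX w 0 1 + ev XX w 1 1 ∧
      ev XX (c :: w) 1 0 = ev XX w 1 0 ∧ ev XX (c :: w) 1 1 = ev XX w 1 1) ∨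
    (c = 1 ∧ ev XX (c :: w) 0 0 = ev XX w 0 0 ∧ ev XX (c :: w) 0 1 = ev XX w 0 1 ∧
      ev XX (c :: w) 1 0 = ev XX w 0 0 + ev XX w 1 0 ∧
      ev XX (c :: w) 1 1 = ev XX w 0 1 + ev XX w 1 1) := by
  fin_cases c
  · left
    simp [XX, Matrix.mul_apply, Fin.sum_univ_two]
  · right
    simp [XX, Matrix.mul_apply, Fin.sum_univ_two]

theorem XX_nonneg (w : List (Fin 2)) : 0 ≤ ev XX w 0 0 ∧ 0 ≤ ev XX w 0 1 ∧ 0 ≤ ev XX w 1 0 ∧
    0 ≤ ev XX w 1 1 ∧ 1 ≤ ev XX w 0 0 + ev XX w 0 1 ∧ 1 ≤ ev XX w 1 0 + ev XX w 1 1 := by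
  induction w with
  | nil => simp
  | cons c w ih =>
    rcases XX_cons c w with ⟨_, h1, h2, h3, h4⟩ | ⟨_, h1, h2, h3, h4⟩ <;>
    (rw [h1, h2, h3, h4]; omega)

theorem XX_faithful : ∀ w w' : List (Fin 2), (∀ i j, ev XX w i j = ev XX w' i j) → w = w' := by
  intro w
  induction w with
  | nil =>
    intro w' h
    cases w' with
    | nil => rfl
    | cons c w' =>
      exfalso
      have e1 := h 0 0
      have e2 := h 0 1
      have e3 := h 1 0
      have e4 := h 1 1
      have hn := XX_nonneg w'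
      simp only [ev_nil] at e1 e2 e3 e4
      have i1 : (1 : Matrix (Fin 2) (Fin 2) ℤ) 0 0 = 1 := rfl
      have i2 : (1 : Matrix (Fin 2) (Fin 2) ℤ) 0 1 = 0 := rfl
      have i3 : (1 : Matrix (Fin 2) (Fin 2) ℤ) 1 0 = 0 := rfl
      have i4 : (1 : Matrix (Fin 2) (Fin 2) ℤ) 1 1 = 1 := rfl
      rw [i1] at e1; rw [i2] at e2; rw [i3] at e3; rw [i4] at e4
      rcases XX_cons c w' with ⟨_, h1, h2, h3, h4⟩ | ⟨_, h1, h2, h3, h4⟩ <;> omega
  | cons c w ih =>
    intro w' h
    cases w' with
    | nil =>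
      exfalso
      have e1 := h 0 0
      have e2 := h 0 1
      have e3 := h 1 0
      have e4 := h 1 1
      have hn := XX_nonneg w
      simp only [ev_nil] at e1 e2 e3 e4
      have i1 : (1 : Matrix (Fin 2) (Fin 2) ℤ) 0 0 = 1 := rfl
      have i2 : (1 : Matrix (Fin 2) (Fin 2) ℤ) 0 1 = 0 := rfl
      have i3 : (1 : Matrix (Fin 2) (Fin 2) ℤ) 1 0 = 0 := rfl
      have i4 : (1 : Matrix (Fin 2) (Fin 2) ℤ) 1 1 = 1 := rfl
      rw [i1] at e1; rw [i2] at e2; rw [i3] at e3; rw [i4] at e4
      rcases XX_cons c w with ⟨_, h1, h2, h3, h4⟩ | ⟨_, h1, h2, h3, h4⟩ <;> omega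
    | cons c' w' =>
      have e1 := h 0 0
      have e2 := h 0 1
      have e3 := h 1 0
      have e4 := h 1 1
      have hn := XX_nonneg w
      have hn' := XX_nonneg w'
      rcases XX_cons c w with ⟨hc, h1, h2, h3, h4⟩ | ⟨hc, h1, h2, h3, h4⟩ <;>
      rcases XX_cons c' w' with ⟨hc', h1', h2', h3', h4'⟩ | ⟨hc', h1', h2', h3', h4'⟩
      · have : w = w' := by
          apply ih
          intro i j
          fin_cases i <;> fin_cases j <;> simp only [Fin.zero_eta, Fin.mk_one] <;> omega
        rw [this, hc, hc']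
      · exfalso; omega
      · exfalso; omega
      · have : w = w' := by
          apply ih
          intro i j
          fin_cases i <;> fin_cases j <;> simp only [Fin.zero_eta, Fin.mk_one] <;> omega
        rw [this, hc, hc']

/-! ### Pairs of positions -/

open Classical in
/-- pairs (start, length) of occurrences in the cyclic word `w` of `c l₁ d l₂` with `ct l₂ = κ` -/
noncomputable def Pr (c d : Fin 2) (κ : Fin 2 →₀ ℕ) (w : List (Fin 2)) : Finset (ℕ × ℕ) :=
  (range w.length ×ˢ range w.length).filter (fun x =>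
    ∃ l1 l2, w.rotate x.1 = c :: (l1 ++ d :: l2) ∧ l1.length = x.2 ∧ ct l2 = κ)

theorem mem_Pr {c d : Fin 2} {κ : Fin 2 →₀ ℕ} {w : List (Fin 2)} {x : ℕ × ℕ} :
    x ∈ Pr c d κ w ↔ (x.1 < w.length ∧ x.2 < w.length) ∧
      ∃ l1 l2, w.rotate x.1 = c :: (l1 ++ d :: l2) ∧ l1.length = x.2 ∧ ct l2 = κ := by
  simp [Pr]

theorem split_iff (t l1 l2 : List (Fin 2)) (d : Fin 2) (k : ℕ) :
    (t = l1 ++ d :: l2 ∧ l1.length = k) ↔
      (t[k]? = some d ∧ l1 = t.take k ∧ l2 = t.drop (k + 1)) := by
  constructor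
  · rintro ⟨rfl, rfl⟩
    refine ⟨by simp, by simp, by simp [List.drop_append]⟩
  · rintro ⟨h, rfl, rfl⟩
    have hk : k < t.length := by
      by_contra hk
      rw [List.getElem?_eq_none (by omega)] at h
      exact absurd h (by simp)
    refine ⟨?_, by simp; omega⟩
    have : t[k] = d := by
      rw [List.getElem?_eq_getElem hk] at h
      exact Option.some.inj h
    rw [← this, ← List.drop_eq_getElem_cons hk, List.take_append_drop]

theorem rotate_eq' (w : List (Fin 2)) (i : ℕ) (hi : i < w.length) :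
    w.rotate i = w[i] :: (w.drop (i + 1) ++ w.take i) := by
  rw [List.rotate_eq_drop_append_take hi.le, List.drop_eq_getElem_cons hi]
  rfl

theorem sum_Pr (c d : Fin 2) (κ : Fin 2 →₀ ℕ) (w : List (Fin 2)) (G : List (Fin 2) → ℤ) :
    splits c w (fun p s => splits d (s ++ p) (fun p' s' => if ct s' = κ then G p' else 0)) =
      ∑ x ∈ Pr c d κ w, G (((w.rotate x.1).drop 1).take x.2) := by
  classical
  unfold Pr splits
  rw [Finset.sum_filter, Finset.sum_product]
  refine Finset.sum_congr rfl fun i hi => ?_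
  rw [Finset.mem_range] at hi
  have hrot := rotate_eq' w i hi
  set t := w.drop (i + 1) ++ w.take i with ht
  have htl : t.length = w.length - 1 := by
    rw [ht]; simp; omega
  rw [List.getElem?_eq_getElem hi]
  by_cases hc : w[i] = c
  · rw [if_pos (by rw [hc])]
    have : w.length = t.length + 1 := by omega
    rw [this, Finset.sum_range_succ]
    have hlast : (if ∃ l1 l2, w.rotate (i, t.length).1 = c :: (l1 ++ d :: l2) ∧
        l1.length = (i, t.length).2 ∧ ct l2 = κ then
        G (((w.rotate (i, t.length).1).drop 1).take (i, t.length).2) else 0) = 0 := by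
      apply if_neg
      rintro ⟨l1, l2, h1, h2, h3⟩
      simp only at h1 h2
      rw [hrot] at h1
      have := congrArg List.length h1
      simp only [List.length_cons, List.length_append] at this
      omega
    rw [hlast, add_zero]
    refine Finset.sum_congr rfl fun k hk => ?_
    rw [Finset.mem_range] at hk
    have hiff : (∃ l1 l2, w.rotate (i, k).1 = c :: (l1 ++ d :: l2) ∧
        l1.length = (i, k).2 ∧ ct l2 = κ) ↔ (t[k]? = some d ∧ ct (t.drop (k + 1)) = κ) := by
      constructor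
      · rintro ⟨l1, l2, h1, h2, h3⟩
        simp only at h1 h2
        rw [hrot, List.cons.injEq] at h1
        have := (split_iff t l1 l2 d k).mp ⟨h1.2, h2⟩
        exact ⟨this.1, by rw [← this.2.2]; exact h3⟩
      · rintro ⟨h1, h2⟩
        have := (split_iff t (t.take k) (t.drop (k + 1)) d k).mpr ⟨h1, rfl, rfl⟩
        refine ⟨t.take k, t.drop (k + 1), ?_, this.2, h2⟩
        simp only
        rw [hrot, hc, ← this.1]
    rw [if_congr hiff rfl rfl, ite_and]
    simp only [hrot, List.drop_succ_cons, List.drop_zero]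
    rfl
  · rw [if_neg (by simpa using hc)]
    symm
    apply Finset.sum_eq_zero
    intro k _
    apply if_neg
    rintro ⟨l1, l2, h1, h2, h3⟩
    simp only at h1
    rw [hrot, List.cons.injEq] at h1
    exact hc h1.1

theorem ct_rotate (w : List (Fin 2)) (i : ℕ) : ct (w.rotate i) = ct w :=
  (ct_eq_iff_perm _ _).mpr (List.rotate_perm w i)

theorem swap_mem {c d : Fin 2} {w l1 l2 : List (Fin 2)} {i : ℕ} 
    (h : w.rotate i = c :: (l1 ++ d :: l2)) :
    w.rotate ((i + l1.length + 1) % w.length) = d :: (l2 ++ c :: l1) := by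
  rw [List.rotate_mod, add_assoc, ← List.rotate_rotate, h]
  have := List.rotate_append_length_eq (c :: l1) (d :: l2)
  simp

theorem card_swap_le (c d : Fin 2) (κ κ' : Fin 2 →₀ ℕ) (w : List (Fin 2))
    (hκ : κ + κ' + Finsupp.single c 1 + Finsupp.single d 1 = ct w) :
    (Pr c d κ w).card ≤ (Pr d c κ' w).card := by
  apply Finset.card_le_card_of_injOn
    (fun x => ((x.1 + x.2 + 1) % w.length, w.length - 2 - x.2))
  · intro x hx
    rw [Finset.mem_coe, mem_Pr] at hx
    rw [Finset.mem_coe, mem_Pr]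
    obtain ⟨⟨h1, h2⟩, l1, l2, h3, h4, h5⟩ := hx
    have hlen := congrArg List.length h3
    simp only [List.length_rotate, List.length_cons, List.length_append] at hlen
    refine ⟨⟨Nat.mod_lt _ (by omega), by simp only; omega⟩, l2, l1, ?_, ?_, ?_⟩
    · simp only
      rw [← h4]
      exact swap_mem h3
    · simp only; omega
    · have h6 := ct_rotate w x.1
      rw [h3, ct_cons, ct_append, ct_cons, h5, ← hκ] at h6
      have h7 : ct l1 + (κ + Finsupp.single c 1 + Finsupp.single d 1) =
          κ' + (κ + Finsupp.single c 1 + Finsupp.single d 1) := by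
        calc ct l1 + (κ + Finsupp.single c 1 + Finsupp.single d 1) =
            Finsupp.single c 1 + (ct l1 + (Finsupp.single d 1 + κ)) := by abel
          _ = κ + κ' + Finsupp.single c 1 + Finsupp.single d 1 := h6
          _ = _ := by abel
      exact add_right_cancel h7
  · intro x hx y hy hxy
    rw [Finset.mem_coe, mem_Pr] at hx hy
    obtain ⟨⟨h1, h2⟩, l1, l2, h3, h4, h5⟩ := hx
    obtain ⟨⟨g1, g2⟩, m1, m2, g3, g4, g5⟩ := hy
    have hlen := congrArg List.length h3
    have glen := congrArg List.length g3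
    simp only [List.length_rotate, List.length_cons, List.length_append] at hlen glen
    simp only [Prod.mk.injEq] at hxy
    obtain ⟨e1, e2⟩ := hxy
    have e3 : x.2 = y.2 := by omega
    have e4 : x.1 = y.1 := by
      rw [e3] at e1
      have : x.1 + (y.2 + 1) ≡ y.1 + (y.2 + 1) [MOD w.length] := by
        unfold Nat.ModEq; rw [← add_assoc, ← add_assoc]; exact e1
      have := Nat.ModEq.add_right_cancel' _ this
      unfold Nat.ModEq at this
      rwa [Nat.mod_eq_of_lt h1, Nat.mod_eq_of_lt g1] at this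
    exact Prod.ext e4 e3

theorem sum_unique {c d : Fin 2} {κ : Fin 2 →₀ ℕ} {w : List (Fin 2)}
    (hcard : (Pr c d κ w).card = 1) {i : ℕ} {f g : List (Fin 2)}
    (hi : w.rotate i = c :: (f ++ d :: g)) (hg : ct g = κ) (G : List (Fin 2) → ℤ) :
    ∑ x ∈ Pr c d κ w, G (((w.rotate x.1).drop 1).take x.2) = G f := by
  obtain ⟨y, hy⟩ := Finset.card_eq_one.mp hcard
  have hlen := congrArg List.length hi
  simp only [List.length_rotate, List.length_cons, List.length_append] at hlen
  have hmem : (i % w.length, f.length) ∈ Pr c d κ w := by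
    rw [mem_Pr]
    refine ⟨⟨Nat.mod_lt _ (by omega), by simp only; omega⟩, f, g, ?_, rfl, hg⟩
    simp only
    rw [List.rotate_mod, hi]
  rw [hy, Finset.mem_singleton] at hmem
  rw [hy, Finset.sum_singleton, ← hmem]
  simp only
  rw [List.rotate_mod, hi]
  simp

/-- trace equivalence of positive words for invertible complex `3 × 3` matrices -/
def TE (u v : List (Fin 2)) : Prop :=
  ∀ g : Fin 2 → Matrix (Fin 3) (Fin 3) ℂ, (∀ i, (g i).det ≠ 0) → (ev g u).trace = (ev g v).trace

theorem second_Pr {u v : List (Fin 2)} (h : TE u v)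
    (c d : Fin 2) (κ : Fin 2 →₀ ℕ) (X : Fin 2 → Matrix (Fin 2) (Fin 2) ℤ) (i j : Fin 2) :
    ∑ x ∈ Pr c d κ u, ev X (((u.rotate x.1).drop 1).take x.2) i j =
    ∑ x ∈ Pr c d κ v, ev X (((v.rotate x.1).drop 1).take x.2) i j := by
  rw [← sum_Pr c d κ u (fun l => ev X l i j), ← sum_Pr c d κ v (fun l => ev X l i j)]
  exact second u v h c d κ X i j

theorem card_Pr {u v : List (Fin 2)} (h : TE u v) (c d : Fin 2) (κ : Fin 2 →₀ ℕ) :
    (Pr c d κ u).card = (Pr c d κ v).card := by
  have h1 := second_Pr h c d κ (fun _ => 1) 0 0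
  have h2 : ∀ l : List (Fin 2), ev (fun _ : Fin 2 => (1 : Matrix (Fin 2) (Fin 2) ℤ)) l = 1 := by
    intro l
    induction l with
    | nil => rfl
    | cons a l ih => rw [ev_cons, ih, one_mul]
  simp only [h2, Matrix.one_apply_eq, Finset.sum_const, nsmul_eq_mul, mul_one] at h1
  exact_mod_cast h1

theorem core {u v : List (Fin 2)} (h : TE u v) (c d : Fin 2) (κ : Fin 2 →₀ ℕ)
    (hcard : (Pr c d κ u).card = 1) : u.IsRotated v := by
  have hcardv : (Pr c d κ v).card = 1 := by rw [← card_Pr h]; exact hcard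
  obtain ⟨x, hx⟩ : (Pr c d κ u).Nonempty := by rw [← Finset.card_pos, hcard]; exact one_pos
  obtain ⟨y, hy⟩ : (Pr c d κ v).Nonempty := by rw [← Finset.card_pos, hcardv]; exact one_pos
  rw [mem_Pr] at hx hy
  obtain ⟨_, f, g, hf, _, hg⟩ := hx
  obtain ⟨_, f', g', hf', _, hg'⟩ := hy
  have e1 : f = f' := by
    apply XX_faithful
    intro i j
    have := second_Pr h c d κ XX i j
    rw [sum_unique hcard hf hg (fun l => ev XX l i j),
      sum_unique hcardv hf' hg' (fun l => ev XX l i j)] at this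
    exact this
  subst e1
  have s1 := swap_mem hf
  have s2 := swap_mem hf'
  have hct : κ + ct f + Finsupp.single c 1 + Finsupp.single d 1 = ct u := by
    rw [← ct_rotate u x.1, hf, ct_cons, ct_append, ct_cons, hg]; abel
  have hct2 : ct f + κ + Finsupp.single d 1 + Finsupp.single c 1 = ct u := by
    rw [← hct]; abel
  have hcard2 : (Pr d c (ct f) u).card = 1 := by
    apply le_antisymm
    · rw [← hcard]; exact card_swap_le d c (ct f) κ u hct2
    · rw [← hcard]; exact card_swap_le c d κ (ct f) u hct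
  have hcardv2 : (Pr d c (ct f) v).card = 1 := by rw [← card_Pr h]; exact hcard2
  have e2 : g = g' := by
    apply XX_faithful
    intro i j
    have := second_Pr h d c (ct f) XX i j
    rw [sum_unique hcard2 s1 rfl (fun l => ev XX l i j),
      sum_unique hcardv2 s2 rfl (fun l => ev XX l i j)] at this
    exact this
  subst e2
  have r1 : u.IsRotated (u.rotate x.1) := ⟨_, rfl⟩
  have r2 : v.IsRotated (v.rotate y.1) := ⟨_, rfl⟩
  rw [hf] at r1
  rw [hf'] at r2
  exact r1.trans r2.symm

end Pool.Agent.Helper426.TW
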