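import Mathlib
import Pool.Agent.Helper426.TW.Core

set_option autoImplicit false

namespace Pool.Agent.Helper426.TW

open Matrix Finset

section
variable (R : Type*) [CommRing R]

/-- The letter matrices (with denominators cleared): the letter `k` is sent to `diag(s,1,1)`, its
inverse to `diag(1,s,s)`, the other letter to a hyperbolic integer matrix. -/
def Q (s : R) (k : Fin 2) (c : Fin 2 × Bool) : Matrix (Fin 3) (Fin 3) R :=
  if c.1 = k then (if c.2 then !![s, 0, 0; 0, 1, 0; 0, 0, 1] else !![1, 0, 0; 0, s, 0; 0, 0, s])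
  else (if c.2 then !![2, 1, 0; 1, 1, 0; 0, 0, 1] else !![1, -1, 0; -1, 2, 0; 0, 0, 1])

/-- the product of the letter matrices -/
def hat (s : R) (k : Fin 2) (L : List (Fin 2 × Bool)) : Matrix (Fin 3) (Fin 3) R :=
  (L.map (Q R s k)).prod
end

theorem hat_cons {R : Type*} [CommRing R] (s : R) (k : Fin 2) (c : Fin 2 × Bool)
    (L : List (Fin 2 × Bool)) : hat R s k (c :: L) = Q R s k c * hat R s k L := by simp [hat]

theorem hat_append {R : Type*} [CommRing R] (s : R) (k : Fin 2)
    (L L' : List (Fin 2 × Bool)) : hat R s k (L ++ L') = hat R s k L * hat R s k L' := by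
  simp [hat]

/-- state of the row vector after the letter `c` -/
def St (k : Fin 2) (c : Fin 2 × Bool) (r : Fin 3 → ℤ) : Prop :=
  r 2 = 0 ∧ (if c.1 = k then (if c.2 then r 0 = 0 ∧ r 1 ≠ 0 else r 0 ≠ 0 ∧ r 1 = 0)
    else (if c.2 then 0 < r 0 * r 1 else r 0 * r 1 < 0))

theorem St_step (k : Fin 2) (ℓ c : Fin 2 × Bool) (r : Fin 3 → ℤ) (h : St k ℓ r)
    (hc : ℓ.1 = c.1 → ℓ.2 = c.2) : St k c (r ᵥ* Q ℤ 0 k c) := by
  obtain ⟨ℓ1, ℓ2⟩ := ℓ
  obtain ⟨c1, c2⟩ := c
  obtain ⟨h2, h⟩ := h
  simp only at hc h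
  unfold St Q
  by_cases hc1 : c1 = k
  · subst hc1
    cases c2
    · -- inverse of the special letter
      simp only [if_true, Bool.false_eq_true, if_false]
      have e0 : (r ᵥ* !![(1:ℤ), 0, 0; 0, 0, 0; 0, 0, 0]) 0 = r 0 := by
        simp [Matrix.vecMul, dotProduct, Fin.sum_univ_three]
      have e1 : (r ᵥ* !![(1:ℤ), 0, 0; 0, 0, 0; 0, 0, 0]) 1 = 0 := by
        simp [Matrix.vecMul, dotProduct, Fin.sum_univ_three]
      have e2 : (r ᵥ* !![(1:ℤ), 0, 0; 0, 0, 0; 0, 0, 0]) 2 = 0 := by
        simp [Matrix.vecMul, dotProduct, Fin.sum_univ_three]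
      rw [e0, e1, e2]
      refine ⟨rfl, ?_, rfl⟩
      by_cases hl : ℓ1 = c1
      · rw [if_pos hl] at h
        rw [hc hl] at h
        simpa using h.1
      · rw [if_neg hl] at h
        intro h0
        rw [h0] at h
        split_ifs at h <;> simp at h
    · simp only [if_true]
      have e0 : (r ᵥ* !![(0:ℤ), 0, 0; 0, 1, 0; 0, 0, 1]) 0 = 0 := by
        simp [Matrix.vecMul, dotProduct, Fin.sum_univ_three]
      have e1 : (r ᵥ* !![(0:ℤ), 0, 0; 0, 1, 0; 0, 0, 1]) 1 = r 1 := by
        simp [Matrix.vecMul, dotProduct, Fin.sum_univ_three]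
      have e2 : (r ᵥ* !![(0:ℤ), 0, 0; 0, 1, 0; 0, 0, 1]) 2 = r 2 := by
        simp [Matrix.vecMul, dotProduct, Fin.sum_univ_three]
      rw [e0, e1, e2]
      refine ⟨h2, rfl, ?_⟩
      by_cases hl : ℓ1 = c1
      · rw [if_pos hl] at h
        rw [hc hl] at h
        simpa using h.2
      · rw [if_neg hl] at h
        intro h0
        rw [h0] at h
        split_ifs at h <;> simp at h
  · cases c2
    · simp only [if_neg hc1, Bool.false_eq_true, if_false]
      have e0 : (r ᵥ* !![(1:ℤ), -1, 0; -1, 2, 0; 0, 0, 1]) 0 = r 0 - r 1 := by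
        simp [Matrix.vecMul, dotProduct, Fin.sum_univ_three]; ring
      have e1 : (r ᵥ* !![(1:ℤ), -1, 0; -1, 2, 0; 0, 0, 1]) 1 = - r 0 + 2 * r 1 := by
        simp [Matrix.vecMul, dotProduct, Fin.sum_univ_three]; ring
      have e2 : (r ᵥ* !![(1:ℤ), -1, 0; -1, 2, 0; 0, 0, 1]) 2 = r 2 := by
        simp [Matrix.vecMul, dotProduct, Fin.sum_univ_three]
      rw [e0, e1, e2]
      refine ⟨h2, ?_⟩
      by_cases hl : ℓ1 = k
      · rw [if_pos hl] at h
        cases ℓ2
        · simp only [Bool.false_eq_true, if_false] at h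
          rw [h.2]
          have := mul_self_pos.mpr h.1
          nlinarith
        · simp only [if_true] at h
          rw [h.1]
          have := mul_self_pos.mpr h.2
          nlinarith
      · rw [if_neg hl] at h
        have : ℓ1 = c1 := by omega
        rw [hc this] at h
        simp only [Bool.false_eq_true, if_false] at h
        nlinarith [mul_self_nonneg (r 0), mul_self_nonneg (r 1)]
    · simp only [if_neg hc1, if_true]
      have e0 : (r ᵥ* !![(2:ℤ), 1, 0; 1, 1, 0; 0, 0, 1]) 0 = 2 * r 0 + r 1 := by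
        simp [Matrix.vecMul, dotProduct, Fin.sum_univ_three]; ring
      have e1 : (r ᵥ* !![(2:ℤ), 1, 0; 1, 1, 0; 0, 0, 1]) 1 = r 0 + r 1 := by
        simp [Matrix.vecMul, dotProduct, Fin.sum_univ_three]
      have e2 : (r ᵥ* !![(2:ℤ), 1, 0; 1, 1, 0; 0, 0, 1]) 2 = r 2 := by
        simp [Matrix.vecMul, dotProduct, Fin.sum_univ_three]
      rw [e0, e1, e2]
      refine ⟨h2, ?_⟩
      by_cases hl : ℓ1 = k
      · rw [if_pos hl] at h
        cases ℓ2
        · simp only [Bool.false_eq_true, if_false] at h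
          rw [h.2]
          have := mul_self_pos.mpr h.1
          nlinarith
        · simp only [if_true] at h
          rw [h.1]
          have := mul_self_pos.mpr h.2
          nlinarith
      · rw [if_neg hl] at h
        have : ℓ1 = c1 := by omega
        rw [hc this] at h
        simp only [if_true] at h
        nlinarith [mul_self_nonneg (r 0), mul_self_nonneg (r 1)]

theorem St_chain (k : Fin 2) (c : Fin 2 × Bool) : ∀ (W : List (Fin 2 × Bool)) (ℓ : Fin 2 × Bool)
    (r : Fin 3 → ℤ), St k ℓ r → FreeGroup.IsReduced (ℓ :: (W ++ [c])) →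
    St k c (r ᵥ* hat ℤ 0 k (W ++ [c])) := by
  intro W
  induction W with
  | nil =>
    intro ℓ r h hr
    have h1 := (FreeGroup.isReduced_cons_cons.mp hr).1
    have := St_step k ℓ c r h h1
    simpa [hat] using this
  | cons x W ih =>
    intro ℓ r h hr
    have h1 := FreeGroup.isReduced_cons_cons.mp hr
    have h2 := St_step k ℓ x r h h1.1
    have h3 := ih x (r ᵥ* Q ℤ 0 k x) h2 h1.2
    rw [List.cons_append, hat_cons, ← Matrix.vecMul_vecMul]
    exact h3

theorem trace_hat_ne_zero (k : Fin 2) (L : List (Fin 2 × Bool))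
    (hL : FreeGroup.IsCyclicallyReduced L) (hk : (k, false) ∈ L) :
    (hat ℤ 0 k L).trace ≠ 0 := by
  obtain ⟨L1, L2, rfl⟩ := List.append_of_mem hk
  have hred : FreeGroup.IsReduced ((k, false) :: ((L2 ++ L1) ++ [(k, false)])) := by
    have h2 := (hL.flatten_replicate 2).isReduced
    have h3 : (List.replicate 2 (L1 ++ (k, false) :: L2)).flatten =
        L1 ++ (((k, false) :: ((L2 ++ L1) ++ [(k, false)])) ++ L2) := by
      simp [List.replicate]
    rw [h3] at h2
    have h4 : FreeGroup.IsReduced (((k, false) :: ((L2 ++ L1) ++ [(k, false)])) ++ L2) :=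
      List.IsChain.right_of_append h2
    exact List.IsChain.left_of_append h4
  have h0 : St k (k, false) ![1, 0, 0] := by
    refine ⟨rfl, ?_⟩
    simp
  have h1 := St_chain k (k, false) (L2 ++ L1) (k, false) ![1, 0, 0] h0 hred
  have h2 : (![1, 0, 0] ᵥ* hat ℤ 0 k ((L2 ++ L1) ++ [(k, false)])) 0 ≠ 0 := by
    have := h1.2
    simp only [if_true, Bool.false_eq_true, if_false] at this
    exact this.1
  have hQ : Q ℤ 0 k (k, false) = !![1, 0, 0; 0, 0, 0; 0, 0, 0] := by simp [Q]
  have e1 : (hat ℤ 0 k (L1 ++ (k, false) :: L2)).trace = (hat ℤ 0 k (L2 ++ L1)) 0 0 := by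
    rw [hat_append, hat_cons, Matrix.trace_mul_comm, mul_assoc, ← hat_append, hQ]
    simp only [Matrix.trace, Matrix.diag_apply, Matrix.mul_apply, Fin.sum_univ_three]
    simp
  have e2 : (![1, 0, 0] ᵥ* hat ℤ 0 k ((L2 ++ L1) ++ [(k, false)])) 0 =
      (hat ℤ 0 k (L2 ++ L1)) 0 0 := by
    rw [hat_append]
    have : hat ℤ 0 k [(k, false)] = Q ℤ 0 k (k, false) := by simp [hat]
    rw [this, hQ]
    simp [Matrix.vecMul, dotProduct, Matrix.mul_apply, Fin.sum_univ_three]
  rw [e1, ← e2]
  exact h2

theorem continuous_hat (k : Fin 2) (L : List (Fin 2 × Bool)) :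
    Continuous (fun s : ℂ => hat ℂ s k L) := by
  induction L with
  | nil => simpa [hat] using continuous_const
  | cons c L ih =>
    simp only [hat_cons]
    refine Continuous.matrix_mul ?_ ih
    unfold Q
    split_ifs
    · refine continuous_matrix fun i j => ?_
      fin_cases i <;> fin_cases j <;> simp <;> first | exact continuous_const | exact continuous_id
    · refine continuous_matrix fun i j => ?_
      fin_cases i <;> fin_cases j <;> simp <;> first | exact continuous_const | exact continuous_id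
    · exact continuous_const
    · exact continuous_const

theorem hat_cast (k : Fin 2) (L : List (Fin 2 × Bool)) :
    hat ℂ 0 k L = (Int.castRingHom ℂ).mapMatrix (hat ℤ 0 k L) := by
  induction L with
  | nil => simp [hat]
  | cons c L ih =>
    rw [hat_cons, hat_cons, map_mul, ih]
    congr 1
    unfold Q
    split_ifs <;> (ext i j; fin_cases i <;> fin_cases j <;> simp)

end Pool.Agent.Helper426.TW
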