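import Mathlib
import Pool.Agent.Helper426.TW.Pole

set_option autoImplicit false

namespace Pool.Agent.Helper426.TW

open Matrix Finset

/-- `u` and `v` have the same trace at every pair of matrices in `SL(3, ℂ)`. -/
def SLTraceEquiv (u v : FreeGroup (Fin 2)) : Prop :=
  ∀ A B : Matrix.SpecialLinearGroup (Fin 3) ℂ,
    Matrix.trace ((FreeGroup.lift ![A, B] u : Matrix.SpecialLinearGroup (Fin 3) ℂ) :
      Matrix (Fin 3) (Fin 3) ℂ) =
    Matrix.trace ((FreeGroup.lift ![A, B] v : Matrix.SpecialLinearGroup (Fin 3) ℂ) :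
      Matrix (Fin 3) (Fin 3) ℂ)

/-- the positive word in the free group -/
def word (w : List (Fin 2)) : FreeGroup (Fin 2) := (w.map FreeGroup.of).prod

def D1 : ℂˣ →* Matrix.SpecialLinearGroup (Fin 3) ℂ where
  toFun t := ⟨Matrix.diagonal ![(t:ℂ), (t:ℂ), ((t⁻¹ : ℂˣ) : ℂ) ^ 2], by
    rw [Matrix.det_diagonal, Fin.prod_univ_three]
    simp only [Matrix.cons_val]
    have : (t:ℂ) ≠ 0 := t.ne_zero
    simp only [Units.val_inv_eq_inv_val]
    field_simp⟩
  map_one' := by
    apply Subtype.ext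
    show Matrix.diagonal _ = (1 : Matrix (Fin 3) (Fin 3) ℂ)
    rw [← Matrix.diagonal_one]
    congr 1
    funext i
    fin_cases i <;> simp
  map_mul' s t := by
    apply Subtype.ext
    show Matrix.diagonal _ = Matrix.diagonal _ * Matrix.diagonal _
    rw [Matrix.diagonal_mul_diagonal]
    congr 1
    funext i
    fin_cases i <;> simp [mul_pow, mul_comm]

def D2 : ℂˣ →* Matrix.SpecialLinearGroup (Fin 3) ℂ where
  toFun t := ⟨Matrix.diagonal ![(t:ℂ), 1, ((t⁻¹ : ℂˣ) : ℂ)], by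
    rw [Matrix.det_diagonal, Fin.prod_univ_three]
    simp only [Matrix.cons_val]
    have : (t:ℂ) ≠ 0 := t.ne_zero
    simp only [Units.val_inv_eq_inv_val]
    field_simp⟩
  map_one' := by
    apply Subtype.ext
    show Matrix.diagonal _ = (1 : Matrix (Fin 3) (Fin 3) ℂ)
    rw [← Matrix.diagonal_one]
    congr 1
    funext i
    fin_cases i <;> simp
  map_mul' s t := by
    apply Subtype.ext
    show Matrix.diagonal _ = Matrix.diagonal _ * Matrix.diagonal _
    rw [Matrix.diagonal_mul_diagonal]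
    congr 1
    funext i
    fin_cases i <;> simp [mul_comm]

theorem map_lift' {G M : Type*} [Group G] [Monoid M] (φ : G →* M) (g : Fin 2 → G)
    (ψ : FreeGroup (Fin 2) →* M) (h : ∀ i, ψ (FreeGroup.of i) = φ (g i)) (x : FreeGroup (Fin 2)) :
    φ (FreeGroup.lift g x) = ψ x := by
  have : φ.comp (FreeGroup.lift g) = ψ := by
    apply FreeGroup.ext_hom
    intro i
    simp [h]
  rw [← this]; rfl

theorem chi_eq {u v : FreeGroup (Fin 2)} (h : SLTraceEquiv u v) (α : Fin 2 → ℂˣ) :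
    FreeGroup.lift α u = FreeGroup.lift α v := by
  have k1 : ∀ (D : ℂˣ →* Matrix.SpecialLinearGroup (Fin 3) ℂ) (x : FreeGroup (Fin 2)),
      D (FreeGroup.lift α x) = FreeGroup.lift ![D (α 0), D (α 1)] x := by
    intro D x
    apply map_lift'
    intro i
    fin_cases i <;> simp
  have h1 := h (D1 (α 0)) (D1 (α 1))
  have h2 := h (D2 (α 0)) (D2 (α 1))
  rw [← k1, ← k1] at h1 h2
  set x := FreeGroup.lift α u
  set y := FreeGroup.lift α v
  have t1 : ∀ t : ℂˣ, Matrix.trace ((D1 t : Matrix.SpecialLinearGroup (Fin 3) ℂ) :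
      Matrix (Fin 3) (Fin 3) ℂ) = t + t + ((t:ℂ)⁻¹) ^ 2 := by
    intro t
    show Matrix.trace (Matrix.diagonal _) = _
    rw [Matrix.trace_diagonal, Fin.sum_univ_three]
    simp
  have t2 : ∀ t : ℂˣ, Matrix.trace ((D2 t : Matrix.SpecialLinearGroup (Fin 3) ℂ) :
      Matrix (Fin 3) (Fin 3) ℂ) = t + 1 + (t:ℂ)⁻¹ := by
    intro t
    show Matrix.trace (Matrix.diagonal _) = _
    rw [Matrix.trace_diagonal, Fin.sum_univ_three]
    simp
  rw [t1, t1] at h1
  rw [t2, t2] at h2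
  have hx : (x:ℂ) ≠ 0 := x.ne_zero
  have hy : (y:ℂ) ≠ 0 := y.ne_zero
  apply Units.ext
  generalize (x:ℂ) = a at *
  generalize (y:ℂ) = b at *
  have e2 : (a - b) * (a * b - 1) = 0 := by
    field_simp at h2
    linear_combination h2
  rcases mul_eq_zero.mp e2 with e3 | e3
  · exact sub_eq_zero.mp e3
  · have hb : b = a⁻¹ := by
      field_simp
      linear_combination e3
    rw [hb] at h1
    have e4 : (a - 1) ^ 3 * (a + 1) = 0 := by
      field_simp at h1
      linear_combination -h1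
    rcases mul_eq_zero.mp e4 with e5 | e5
    · have : a = 1 := sub_eq_zero.mp (pow_eq_zero_iff (by norm_num) |>.mp e5)
      rw [hb, this]; simp
    · have : a = -1 := eq_neg_of_add_eq_zero_left e5
      rw [hb, this]; norm_num

/-- `u` and `v` have the same trace at every pair of invertible matrices. -/
def GLTraceEquiv (u v : FreeGroup (Fin 2)) : Prop :=
  ∀ g : Fin 2 → GL (Fin 3) ℂ,
    Matrix.trace ((FreeGroup.lift g u : GL (Fin 3) ℂ) : Matrix (Fin 3) (Fin 3) ℂ) =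
    Matrix.trace ((FreeGroup.lift g v : GL (Fin 3) ℂ) : Matrix (Fin 3) (Fin 3) ℂ)

/-- the monoid homomorphism `(t, m) ↦ t m` -/
def TT : ℂˣ × Matrix.SpecialLinearGroup (Fin 3) ℂ →* Matrix (Fin 3) (Fin 3) ℂ where
  toFun x := (x.1 : ℂ) • (x.2 : Matrix (Fin 3) (Fin 3) ℂ)
  map_one' := by simp
  map_mul' x y := by
    simp only [Prod.fst_mul, Prod.snd_mul, Units.val_mul, Matrix.SpecialLinearGroup.coe_mul]
    rw [smul_mul_smul_comm]

theorem sl_to_gl {u v : FreeGroup (Fin 2)} (h : SLTraceEquiv u v) : GLTraceEquiv u v := by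
  intro g
  have hroot : ∀ i, ∃ t : ℂˣ, (t : ℂ) ^ 3 = (g i : Matrix (Fin 3) (Fin 3) ℂ).det := by
    intro i
    have hdet : (g i : Matrix (Fin 3) (Fin 3) ℂ).det ≠ 0 := by
      have := (Matrix.GeneralLinearGroup.det (g i)).ne_zero
      simpa using this
    obtain ⟨z, hz⟩ := IsAlgClosed.exists_pow_nat_eq
      ((g i : Matrix (Fin 3) (Fin 3) ℂ).det) (n := 3) (by norm_num)
    have hz0 : z ≠ 0 := by
      rintro rfl
      apply hdet
      rw [← hz]; norm_num
    exact ⟨Units.mk0 z hz0, hz⟩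
  choose α hα using hroot
  have hs : ∀ i, ((((α i)⁻¹ : ℂˣ) : ℂ) • (g i : Matrix (Fin 3) (Fin 3) ℂ)).det = 1 := by
    intro i
    rw [Matrix.det_smul, ← hα i]
    have : ((α i : ℂˣ) : ℂ) ≠ 0 := (α i).ne_zero
    simp only [Fintype.card_fin, Units.val_inv_eq_inv_val]
    field_simp
  let S : Fin 2 → Matrix.SpecialLinearGroup (Fin 3) ℂ := fun i => ⟨_, hs i⟩
  have key : ∀ x : FreeGroup (Fin 2),
      ((FreeGroup.lift g x : GL (Fin 3) ℂ) : Matrix (Fin 3) (Fin 3) ℂ) =
      ((FreeGroup.lift α x : ℂˣ) : ℂ) •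
        ((FreeGroup.lift ![S 0, S 1] x : Matrix.SpecialLinearGroup (Fin 3) ℂ) :
          Matrix (Fin 3) (Fin 3) ℂ) := by
    intro x
    let f1 : FreeGroup (Fin 2) →* Matrix (Fin 3) (Fin 3) ℂ :=
      (Units.coeHom (Matrix (Fin 3) (Fin 3) ℂ)).comp (FreeGroup.lift g)
    let f2 : FreeGroup (Fin 2) →* Matrix (Fin 3) (Fin 3) ℂ :=
      TT.comp ((FreeGroup.lift α).prod (FreeGroup.lift ![S 0, S 1]))
    have h12 : f1 = f2 := by
      apply FreeGroup.ext_hom
      intro i
      have e : (![S 0, S 1] : Fin 2 → _) i = S i := by fin_cases i <;> rfl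
      simp only [f1, f2, MonoidHom.comp_apply, FreeGroup.lift_apply_of, MonoidHom.prod_apply, e]
      show (g i : Matrix (Fin 3) (Fin 3) ℂ) = ((α i : ℂˣ) : ℂ) •
        ((((α i)⁻¹ : ℂˣ) : ℂ) • (g i : Matrix (Fin 3) (Fin 3) ℂ))
      rw [smul_smul, Units.mul_inv, one_smul]
    exact DFunLike.congr_fun h12 x
  rw [key, key, Matrix.trace_smul, Matrix.trace_smul, h, chi_eq h]

end Pool.Agent.Helper426.TW
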