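import Mathlib
import Pool.Agent.Helper426.TW.Free

set_option autoImplicit false

namespace Pool.Agent.Helper426.TW

open Matrix Finset

theorem Q_mul_special (s : ℂ) (k : Fin 2) :
    Q ℂ s k (k, true) * Q ℂ s k (k, false) = s • (1 : Matrix (Fin 3) (Fin 3) ℂ) ∧
    Q ℂ s k (k, false) * Q ℂ s k (k, true) = s • (1 : Matrix (Fin 3) (Fin 3) ℂ) := by
  constructor <;>
  · ext i j
    fin_cases i <;> fin_cases j <;> simp [Q, Matrix.mul_apply, Fin.sum_univ_three]

theorem Q_mul_other (s : ℂ) (k i : Fin 2) (hi : i ≠ k) :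
    Q ℂ s k (i, true) * Q ℂ s k (i, false) = (1 : Matrix (Fin 3) (Fin 3) ℂ) ∧
    Q ℂ s k (i, false) * Q ℂ s k (i, true) = (1 : Matrix (Fin 3) (Fin 3) ℂ) := by
  constructor <;>
  · ext a b
    fin_cases a <;> fin_cases b <;> simp [Q, hi, Matrix.mul_apply, Fin.sum_univ_three] <;>
      norm_num

/-- the special letter as an element of `GL` -/
noncomputable def gk (s : ℂ) (hs : s ≠ 0) (k : Fin 2) : GL (Fin 3) ℂ :=
  ⟨Q ℂ s k (k, true), s⁻¹ • Q ℂ s k (k, false), by
    rw [mul_smul_comm, (Q_mul_special s k).1, smul_smul, inv_mul_cancel₀ hs, one_smul], by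
    rw [smul_mul_assoc, (Q_mul_special s k).2, smul_smul, inv_mul_cancel₀ hs, one_smul]⟩

/-- the other letter as an element of `GL` -/
noncomputable def go (s : ℂ) (k i : Fin 2) (hi : i ≠ k) : GL (Fin 3) ℂ :=
  ⟨Q ℂ s k (i, true), Q ℂ s k (i, false), (Q_mul_other s k i hi).1, (Q_mul_other s k i hi).2⟩

noncomputable def gg (s : ℂ) (hs : s ≠ 0) (k : Fin 2) (i : Fin 2) : GL (Fin 3) ℂ :=
  if h : i = k then gk s hs k else go s k i h

theorem Q_eq (s : ℂ) (hs : s ≠ 0) (k : Fin 2) (x : Fin 2 × Bool) :
    Q ℂ s k x = (if x = (k, false) then s else 1) •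
      (((cond x.2 (gg s hs k x.1) (gg s hs k x.1)⁻¹ : GL (Fin 3) ℂ)) :
        Matrix (Fin 3) (Fin 3) ℂ) := by
  obtain ⟨i, e⟩ := x
  by_cases hi : i = k
  · subst hi
    cases e
    · have : (((gg s hs i i)⁻¹ : GL (Fin 3) ℂ) : Matrix (Fin 3) (Fin 3) ℂ) =
          s⁻¹ • Q ℂ s i (i, false) := by
        simp only [gg, dif_pos]; rfl
      simp only [cond_false, if_true, this]
      rw [smul_smul, mul_inv_cancel₀ hs, one_smul]
    · have : ((gg s hs i i : GL (Fin 3) ℂ) : Matrix (Fin 3) (Fin 3) ℂ) =
          Q ℂ s i (i, true) := by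
        simp only [gg, dif_pos]; rfl
      simp [this]
  · cases e
    · have : (((gg s hs k i)⁻¹ : GL (Fin 3) ℂ) : Matrix (Fin 3) (Fin 3) ℂ) =
          Q ℂ s k (i, false) := by
        simp only [gg, dif_neg hi]; rfl
      simp only [cond_false, this, Prod.mk.injEq, hi, false_and, if_false, one_smul]
    · have : ((gg s hs k i : GL (Fin 3) ℂ) : Matrix (Fin 3) (Fin 3) ℂ) =
          Q ℂ s k (i, true) := by
        simp only [gg, dif_neg hi]; rfl
      simp only [cond_true, this, Prod.mk.injEq, hi, false_and, if_false, one_smul]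

theorem hat_eq (s : ℂ) (hs : s ≠ 0) (k : Fin 2) (L : List (Fin 2 × Bool)) :
    hat ℂ s k L = s ^ (L.count (k, false)) •
      ((FreeGroup.lift (gg s hs k) (FreeGroup.mk L) : GL (Fin 3) ℂ) :
        Matrix (Fin 3) (Fin 3) ℂ) := by
  rw [FreeGroup.lift_mk]
  induction L with
  | nil => simp [hat]
  | cons x L ih =>
    rw [hat_cons, ih, Q_eq s hs k x, List.map_cons, List.prod_cons, Units.val_mul,
      smul_mul_smul_comm, List.count_cons]
    congr 1
    by_cases hx : x = (k, false)
    · rw [if_pos hx]; simp [hx, pow_succ, mul_comm]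
    · rw [if_neg hx]; simp [hx]

theorem word_eq_mk (w : List (Fin 2)) : word w = FreeGroup.mk (w.map (fun c => (c, true))) := by
  induction w with
  | nil => rfl
  | cons c w ih =>
    unfold word at ih ⊢
    rw [List.map_cons, List.prod_cons, ih, List.map_cons]
    rfl

theorem no_inverse {u : List (Fin 2)} {L : List (Fin 2 × Bool)}
    (hL : FreeGroup.IsCyclicallyReduced L) (h : GLTraceEquiv (word u) (FreeGroup.mk L))
    (k : Fin 2) : (k, false) ∉ L := by
  intro hk
  have hN : 0 < L.count (k, false) := List.count_pos_iff.mpr hk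
  set N := L.count (k, false)
  set U : List (Fin 2 × Bool) := u.map (fun c => (c, true)) with hU
  have hU0 : U.count (k, false) = 0 := by
    rw [List.count_eq_zero, hU]
    simp
  have h1 : ∀ s : ℂ, s ≠ 0 → (hat ℂ s k L).trace = s ^ N * (hat ℂ s k U).trace := by
    intro s hs
    have e1 := hat_eq s hs k L
    have e2 := hat_eq s hs k U
    rw [hU0, pow_zero, one_smul] at e2
    rw [e1, Matrix.trace_smul, e2, ← h (gg s hs k), word_eq_mk, smul_eq_mul]
  have c1 : Continuous (fun s : ℂ => (hat ℂ s k L).trace) := (continuous_hat k L).matrix_trace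
  have c2 : Continuous (fun s : ℂ => s ^ N * (hat ℂ s k U).trace) :=
    (continuous_pow N).mul (continuous_hat k U).matrix_trace
  have h2 : (fun s : ℂ => (hat ℂ s k L).trace) = (fun s : ℂ => s ^ N * (hat ℂ s k U).trace) := by
    apply Continuous.ext_on (dense_compl_singleton (0:ℂ)) c1 c2
    intro s hs
    exact h1 s hs
  have h3 : (hat ℂ 0 k L).trace = (0:ℂ) ^ N * (hat ℂ 0 k U).trace := congrFun h2 0
  rw [zero_pow hN.ne', zero_mul, hat_cast] at h3
  have h4 : ((Int.castRingHom ℂ).mapMatrix (hat ℤ 0 k L)).trace =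
      (Int.castRingHom ℂ) (hat ℤ 0 k L).trace := by
    simp [Matrix.trace]
  rw [h4] at h3
  have h5 : (hat ℤ 0 k L).trace = 0 := by
    have : ((hat ℤ 0 k L).trace : ℂ) = 0 := by simpa using h3
    exact_mod_cast this
  exact trace_hat_ne_zero k L hL hk h5

theorem gl_conj {u v v' : FreeGroup (Fin 2)} (h : GLTraceEquiv u v) (hc : IsConj v v') :
    GLTraceEquiv u v' := by
  intro g
  rw [h g]
  obtain ⟨c, hc⟩ := isConj_iff.mp hc
  rw [← hc, map_mul, map_mul, map_inv, Units.val_mul, Units.val_mul, Matrix.trace_mul_comm,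
    ← mul_assoc, ← Units.val_mul, inv_mul_cancel, Units.val_one, one_mul]

/-- An element trace equivalent to a positive word is conjugate to a positive word. -/
theorem exists_positive {u : List (Fin 2)} {v : FreeGroup (Fin 2)}
    (h : GLTraceEquiv (word u) v) : ∃ w : List (Fin 2), IsConj v (word w) ∧
      GLTraceEquiv (word u) (word w) := by
  set L := FreeGroup.reduceCyclically v.toWord with hL
  have hLr : FreeGroup.IsCyclicallyReduced L :=
    FreeGroup.reduceCyclically.isCyclicallyReduced FreeGroup.isReduced_toWord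
  have hconj : IsConj v (FreeGroup.mk L) := by
    have e := FreeGroup.reduceCyclically.conj_conjugator_reduceCyclically v.toWord
    have e2 := congrArg FreeGroup.mk e
    rw [← FreeGroup.mul_mk, ← FreeGroup.mul_mk, ← FreeGroup.inv_mk, FreeGroup.mk_toWord] at e2
    exact (isConj_iff.mpr ⟨_, e2⟩).symm
  have h2 := gl_conj h hconj
  have h3 := no_inverse hLr h2
  have h4 : L = (L.map Prod.fst).map (fun c => (c, true)) := by
    rw [List.map_map]
    conv_lhs => rw [← List.map_id L]
    apply List.map_congr_left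
    intro x hx
    obtain ⟨i, e⟩ := x
    cases e
    · exact absurd hx (h3 i)
    · rfl
  refine ⟨L.map Prod.fst, ?_, ?_⟩
  · rw [word_eq_mk, ← h4]; exact hconj
  · rw [word_eq_mk (L.map Prod.fst), ← h4]; exact h2

theorem gl_word_TE {u w : List (Fin 2)} (h : GLTraceEquiv (word u) (word w)) : TE u w := by
  intro g hg
  have key : ∀ l : List (Fin 2), ((FreeGroup.lift
      (fun i => Matrix.GeneralLinearGroup.mkOfDetNeZero (g i) (hg i)) (word l) : GL (Fin 3) ℂ) :
      Matrix (Fin 3) (Fin 3) ℂ) = ev g l := by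
    intro l
    induction l with
    | nil => simp [word]
    | cons c l ih =>
      unfold word at ih ⊢
      rw [List.map_cons, List.prod_cons, map_mul, FreeGroup.lift_apply_of, Units.val_mul, ih,
        ev_cons]
      rfl
  rw [← key, ← key]
  exact h _

theorem isConj_of_isRotated {u w : List (Fin 2)} (h : u.IsRotated w) :
    IsConj (word u) (word w) := by
  obtain ⟨n, rfl⟩ := h
  rcases Nat.eq_zero_or_pos u.length with h0 | h0
  · rw [List.length_eq_zero_iff] at h0
    subst h0
    rw [List.rotate_nil]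
  · have : u.rotate n = u.drop (n % u.length) ++ u.take (n % u.length) :=
      List.rotate_eq_drop_append_take_mod
    rw [this]
    have e : word u = word (u.take (n % u.length)) * word (u.drop (n % u.length)) := by
      unfold word
      rw [← List.prod_append, ← List.map_append, List.take_append_drop]
    have e2 : word (u.drop (n % u.length) ++ u.take (n % u.length)) =
        word (u.drop (n % u.length)) * word (u.take (n % u.length)) := by
      unfold word
      rw [List.map_append, List.prod_append]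
    rw [e, e2]
    refine isConj_iff.mpr ⟨(word (u.take (n % u.length)))⁻¹, ?_⟩
    group

/-- the positive word `u` is determined up to conjugacy by its trace function on `SL(3, ℂ)²` -/
def Determined (u : List (Fin 2)) : Prop :=
  ∀ v : FreeGroup (Fin 2), SLTraceEquiv (word u) v → IsConj (word u) v

theorem determined_of {u : List (Fin 2)}
    (h : ∀ w : List (Fin 2), TE u w → u.IsRotated w) : Determined u := by
  intro v hv
  obtain ⟨w, h1, h2⟩ := exists_positive (sl_to_gl hv)
  exact (isConj_of_isRotated (h w (gl_word_TE h2))).trans h1.symm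

theorem determined_of_card {u : List (Fin 2)} (c d : Fin 2) (κ : Fin 2 →₀ ℕ)
    (hcard : (Pr c d κ u).card = 1) : Determined u :=
  determined_of fun _ hw => core hw c d κ hcard

end Pool.Agent.Helper426.TW
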