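import Mathlib
import Pool.Agent.Helper426.TW.Pos

set_option autoImplicit false

namespace Pool.Agent.Helper426.TW

open Matrix Finset

/-! ### The criterion: a factor that is unique up to anagrams -/

theorem determined_of_unique_factor {u f g : List (Fin 2)} {x y : Fin 2}
    (hu : u = x :: (f ++ y :: g))
    (huniq : ∀ (k : ℕ) (f' g' : List (Fin 2)), 0 < k → k < u.length →
      u.rotate k = x :: (f' ++ y :: g') → ¬ f'.Perm f) : Determined u := by
  apply determined_of_card x y (ct g)
  rw [Finset.card_eq_one]
  refine ⟨(0, f.length), ?_⟩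
  ext z
  rw [mem_Pr, Finset.mem_singleton]
  constructor
  · rintro ⟨⟨h1, h2⟩, l1, l2, h3, h4, h5⟩
    have h6 := ct_rotate u z.1
    rw [h3, hu, ct_cons, ct_append, ct_cons, ct_cons, ct_append, ct_cons, h5] at h6
    have h7 : ct l1 = ct f := by
      have h8 : ct l1 + (Finsupp.single y 1 + ct g) = ct f + (Finsupp.single y 1 + ct g) :=
        add_left_cancel h6
      exact add_right_cancel h8
    have h9 : l1.Perm f := (ct_eq_iff_perm _ _).mp h7
    have h10 : z.1 = 0 := by
      by_contra h0
      exact huniq z.1 l1 l2 (Nat.pos_of_ne_zero h0) h1 h3 h9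
    exact Prod.ext h10 (by rw [← h4]; exact h9.length_eq)
  · rintro rfl
    refine ⟨⟨by simp [hu], by simp [hu]⟩, f, g, by simp [hu], rfl, rfl⟩

/-! ### Levels -/

/-- the level function `q #a - p #b` -/
def lev (p q : ℕ) (l : List (Fin 2)) : ℤ := (q : ℤ) * l.count 0 - (p : ℤ) * l.count 1

theorem lev_append (p q : ℕ) (l l' : List (Fin 2)) :
    lev p q (l ++ l') = lev p q l + lev p q l' := by
  unfold lev
  rw [List.count_append, List.count_append]
  push_cast
  ring

@[simp] theorem lev_nil (p q : ℕ) : lev p q [] = 0 := by simp [lev]

theorem lev_zero (p q : ℕ) : lev p q [0] = q := by simp [lev]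
theorem lev_one (p q : ℕ) : lev p q [1] = -p := by simp [lev]

theorem lev_self (w : List (Fin 2)) : lev (w.count 0) (w.count 1) w = 0 := by
  unfold lev; ring

theorem count_add (w : List (Fin 2)) : w.count 0 + w.count 1 = w.length := by
  induction w with
  | nil => rfl
  | cons c w ih =>
    fin_cases c
    · simp at ih ⊢; omega
    · simp at ih ⊢; omega

theorem lev_congr {p q : ℕ} {l l' : List (Fin 2)} (h : ct l = ct l') : lev p q l = lev p q l' := by
  unfold lev
  rw [← ct_apply, ← ct_apply, ← ct_apply, ← ct_apply, h]

theorem card_of_above {w : List (Fin 2)}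
    (hw : ∀ P S : List (Fin 2), w = P ++ S → P ≠ [] → S ≠ [] →
      0 < lev (w.count 0) (w.count 1) P) (h2 : 2 ≤ w.count 1) :
    ∃ κ, (Pr 1 1 κ w).card = 1 := by
  set p := w.count 0 with hp
  set q := w.count 1 with hq
  have hw0 : lev p q w = 0 := lev_self w
  have hn : 2 ≤ w.length := by
    have := count_add w
    omega
  -- choose a top
  obtain ⟨t, ht, hmax⟩ := Finset.exists_max_image (range w.length) (fun k => lev p q (w.take k))
    ⟨0, Finset.mem_range.mpr (by omega)⟩
  rw [Finset.mem_range] at ht
  have hmax' : ∀ P S : List (Fin 2), w = P ++ S → lev p q P ≤ lev p q (w.take t) := by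
    intro P S h
    by_cases hS : S = []
    · rw [hS, List.append_nil] at h
      rw [← h, hw0]
      have := hmax 0 (Finset.mem_range.mpr (by omega))
      simpa using this
    · have hPl : P.length < w.length := by
        rw [h, List.length_append]
        have : 0 < S.length := List.length_pos_iff.mpr hS
        omega
      have := hmax P.length (Finset.mem_range.mpr hPl)
      rw [h, List.take_left] at this
      rw [h]
      exact this
  -- there is a `b` which is not last
  obtain ⟨w', x, hw'⟩ : ∃ w' x, w = w' ++ [x] := by
    rcases List.eq_nil_or_concat w with h | ⟨w', x, h⟩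
    · rw [h] at hn; simp at hn
    · exact ⟨w', x, by simpa using h⟩
  have hw'ne : w' ≠ [] := by
    rintro rfl
    rw [hw'] at hn; simp at hn
  have hx : x = 1 := by
    have h1 := hw w' [x] hw' hw'ne (by simp)
    have h3 : lev p q w' + lev p q [x] = 0 := by rw [← lev_append, ← hw']; exact hw0
    by_contra hx1
    have hx0 : x = 0 := by omega
    rw [hx0, lev_zero] at h3
    omega
  subst hx
  have hlw' : lev p q w' = p := by
    have h3 : lev p q w' + lev p q [1] = 0 := by rw [← lev_append, ← hw']; exact hw0
    rw [lev_one] at h3
    omega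
  have hcw' : 1 ≤ w'.count 1 := by
    have : q = w'.count 1 + 1 := by rw [hq, hw', List.count_append]; simp
    omega
  have hbig : (p : ℤ) < lev p q (w.take t) := by
    obtain ⟨s1, s2, hs⟩ := List.append_of_mem (List.count_pos_iff.mp (show 0 < w'.count 1 by omega))
    have h3 : w = (s1 ++ [1]) ++ (s2 ++ [1]) := by rw [hw', hs]; simp
    have h4 := hw (s1 ++ [1]) (s2 ++ [1]) h3 (by simp) (by simp)
    rw [lev_append, lev_one] at h4
    have h5 := hmax' s1 ([1] ++ (s2 ++ [1])) (by rw [h3]; simp)
    omega
  have ht0 : t ≠ 0 := by
    rintro rfl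
    simp at hbig
    omega
  have ht1 : t < w'.length := by
    have hl : w.length = w'.length + 1 := by rw [hw']; simp
    by_contra hcon
    have : t = w'.length := by omega
    rw [this, hw', List.take_left, hlw'] at hbig
    omega
  have hdrop : w'.drop t = w'[t] :: w'.drop (t + 1) := List.drop_eq_getElem_cons ht1
  have hwt : w.take t = w'.take t := by
    rw [hw', List.take_append_of_le_length ht1.le]
  have hletter : w'[t] = 1 := by
    by_contra hne
    have h0 : w'[t] = 0 := by omega
    have h3 : w = (w'.take t ++ [0]) ++ (w'.drop (t + 1) ++ [1]) := by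
      rw [hw']
      conv_lhs => rw [← List.take_append_drop t w', hdrop, h0]
      simp
    have h4 := hmax' _ _ h3
    rw [lev_append, lev_zero, hwt] at h4
    omega
  set f := w'.take t with hf
  set g := w'.drop (t + 1) with hg
  have hwfg : w = f ++ 1 :: (g ++ [1]) := by
    rw [hw']
    conv_lhs => rw [← List.take_append_drop t w', hdrop, hletter]
    simp [hf, hg]
  have hft : f.length = t := by rw [hf, List.length_take]; omega
  rw [hwt] at hmax' hbig
  refine ⟨ct f, ?_⟩
  rw [Finset.card_eq_one]
  refine ⟨(t, g.length), ?_⟩
  ext z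
  rw [mem_Pr, Finset.mem_singleton]
  have hlen : w.length = t + 1 + g.length + 1 := by
    rw [hwfg]; simp [hft]; omega
  constructor
  · rintro ⟨⟨h1, _⟩, l1, l2, h3, h4, h5⟩
    have hl2 : lev p q l2 = lev p q f := lev_congr h5
    have hl2len : l2.length = t := by rw [← hft]; exact ((ct_eq_iff_perm _ _).mp h5).length_eq
    have hlen3 := congrArg List.length h3
    simp only [List.length_rotate, List.length_cons, List.length_append] at hlen3
    have hk : z.2 = g.length := by omega
    rw [List.rotate_eq_drop_append_take h1.le] at h3
    have h3' : w.drop z.1 ++ w.take z.1 = (1 :: (l1 ++ [1])) ++ l2 := by rw [h3]; simp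
    have hz1 : (w.take z.1).length = z.1 := by rw [List.length_take]; omega
    have hz : z.1 = t := by
      rcases List.append_eq_append_iff.mp h3' with ⟨a', e1, e2⟩ | ⟨c', e1, e2⟩
      · -- `take = a' ++ l2`
        have h6 : w = a' ++ (l2 ++ w.drop z.1) := by
          rw [← List.append_assoc, ← e2, List.take_append_drop]
        have h7 := hmax' (w.take z.1) (w.drop z.1) (List.take_append_drop _ _).symm
        rw [e2, lev_append, hl2] at h7
        by_cases ha : a' = []
        · rw [ha, List.nil_append] at e2
          rw [← hz1, e2, hl2len]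
        · exfalso
          have h8 : l2 ++ w.drop z.1 ≠ [] := by
            intro h9
            have := congrArg List.length h9
            rw [List.length_append, hl2len, List.length_nil] at this
            omega
          have h9 := hw a' _ h6 ha h8
          omega
      · have h6 : w = (w.take z.1 ++ (1 :: (l1 ++ [1]))) ++ c' := by
          rw [List.append_assoc, ← e1, List.take_append_drop]
        have h7 := hmax' (w.take z.1) (w.drop z.1) (List.take_append_drop _ _).symm
        have h8 : lev p q (w.take z.1 ++ (1 :: (l1 ++ [1]))) + lev p q c' = 0 := by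
          rw [← lev_append, ← h6]; exact hw0
        have h9 : lev p q l2 = lev p q c' + lev p q (w.take z.1) := by rw [e2, lev_append]
        by_cases hc' : c' = []
        · rw [hc', List.nil_append] at e2
          rw [← hz1, ← e2, hl2len]
        · exfalso
          have h10 := hw _ _ h6 (by simp) hc'
          omega
    exact Prod.ext hz hk
  · rintro rfl
    refine ⟨⟨by simp only; omega, by simp only; omega⟩, g, f, ?_, rfl, rfl⟩
    simp only
    rw [← hft]
    conv_lhs => rw [hwfg]
    rw [List.rotate_append_length_eq]
    simp

theorem determined_rotate {u w : List (Fin 2)} (h : u.IsRotated w) (hw : Determined w) :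
    Determined u := by
  intro v hv
  have h1 := isConj_of_isRotated h
  refine h1.trans (hw v ?_)
  intro A B
  rw [← hv A B]
  obtain ⟨c, hc⟩ := isConj_iff.mp h1
  rw [← hc, map_mul, map_mul, map_inv, Matrix.SpecialLinearGroup.coe_mul,
    Matrix.SpecialLinearGroup.coe_mul, Matrix.trace_mul_comm, ← mul_assoc,
    ← Matrix.SpecialLinearGroup.coe_mul, inv_mul_cancel, Matrix.SpecialLinearGroup.coe_one,
    one_mul]

/-- The level function has a unique minimum on the cyclic word. -/
def UniqueMin (u : List (Fin 2)) : Prop :=
  ∃ k0 < u.length, ∀ k < u.length, k ≠ k0 →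
    lev (u.count 0) (u.count 1) (u.take k0) < lev (u.count 0) (u.count 1) (u.take k)

theorem above_of_uniqueMin {u : List (Fin 2)} {k0 : ℕ} (hk0 : k0 < u.length)
    (hmin : ∀ k < u.length, k ≠ k0 →
      lev (u.count 0) (u.count 1) (u.take k0) < lev (u.count 0) (u.count 1) (u.take k)) :
    ∀ P S : List (Fin 2), u.rotate k0 = P ++ S → P ≠ [] → S ≠ [] →
      0 < lev (u.count 0) (u.count 1) P := by
  intro P S h hP hS
  set p := u.count 0
  set q := u.count 1
  have hu0 : lev p q u = 0 := lev_self u
  have hsum : lev p q (u.take k0) + lev p q (u.drop k0) = 0 := by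
    rw [← lev_append, List.take_append_drop]; exact hu0
  have hlen : (u.take k0).length = k0 := by rw [List.length_take]; omega
  have hPl : 0 < P.length := List.length_pos_iff.mpr hP
  have hSl : 0 < S.length := List.length_pos_iff.mpr hS
  have hmin' : ∀ P' S' : List (Fin 2), u = P' ++ S' → P'.length < u.length → P'.length ≠ k0 →
      lev p q (u.take k0) < lev p q P' := by
    intro P' S' h1 h2 h3
    have := hmin P'.length h2 h3
    have h4 : u.take P'.length = P' := by
      rw [h1, List.take_left]
    rw [h4] at this
    exact this
  rw [List.rotate_eq_drop_append_take hk0.le] at h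
  rcases List.append_eq_append_iff.mp h with ⟨a', e1, e2⟩ | ⟨c', e1, e2⟩
  · have h1 : u = a' ++ (S ++ u.drop k0) := by
      rw [← List.append_assoc, ← e2, List.take_append_drop]
    have h2 : a'.length < k0 := by
      have := congrArg List.length e2
      rw [hlen, List.length_append] at this
      omega
    have h3 := hmin' a' _ h1 (by omega) (by omega)
    rw [e1, lev_append]
    omega
  · have h1 : u = (u.take k0 ++ P) ++ c' := by
      rw [List.append_assoc, ← e1, List.take_append_drop]
    by_cases hc : c' = []
    · rw [hc, List.append_nil] at e1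
      rw [hc, List.nil_append] at e2
      have h2 : 0 < k0 := by
        rw [← hlen, ← e2]; exact hSl
      have h3 := hmin 0 (by omega) (by omega)
      rw [List.take_zero, lev_nil] at h3
      rw [← e1]
      omega
    · have hcl : 0 < c'.length := List.length_pos_iff.mpr hc
      have h2 := congrArg List.length h1
      simp only [List.length_append] at h2
      have h3 := hmin' (u.take k0 ++ P) c' h1 (by rw [List.length_append]; omega)
        (by rw [List.length_append]; omega)
      rw [lev_append] at h3
      omega

theorem determined_of_uniqueMin {u : List (Fin 2)} (h : UniqueMin u) (h2 : 2 ≤ u.count 1) :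
    Determined u := by
  obtain ⟨k0, hk0, hmin⟩ := h
  have h3 := above_of_uniqueMin hk0 hmin
  have hr : u.IsRotated (u.rotate k0) := ⟨k0, rfl⟩
  have hc0 : (u.rotate k0).count 0 = u.count 0 := (List.rotate_perm u k0).count_eq 0
  have hc1 : (u.rotate k0).count 1 = u.count 1 := (List.rotate_perm u k0).count_eq 1
  apply determined_rotate hr
  obtain ⟨κ, hκ⟩ := card_of_above (w := u.rotate k0) (by rw [hc0, hc1]; exact h3)
    (by rw [hc1]; exact h2)
  exact determined_of_card 1 1 κ hκ

/-! ### Words with at most one letter `b` -/

theorem TE_count {u w : List (Fin 2)} (h : TE u w) (i : Fin 2) : u.count i = w.count i := by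
  let x : Fin 2 → ℂ := fun j => if j = i then 2 else 1
  have key : ∀ l : List (Fin 2), ev (fun j => Matrix.diagonal ![x j, 1, 1]) l =
      Matrix.diagonal ![(2:ℂ) ^ (l.count i), 1, 1] := by
    intro l
    induction l with
    | nil => 
      rw [ev_nil, ← Matrix.diagonal_one]
      congr 1
      funext j
      fin_cases j <;> simp
    | cons c l ih =>
      rw [ev_cons, ih, Matrix.diagonal_mul_diagonal]
      congr 1
      funext j
      rw [List.count_cons]
      by_cases hc : c = i
      · fin_cases j <;> simp [x, hc, pow_succ, mul_comm]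
      · fin_cases j <;> simp [x, hc]
  have h1 := h (fun j => Matrix.diagonal ![x j, 1, 1]) (by
    intro j
    rw [Matrix.det_diagonal, Fin.prod_univ_three]
    simp only [Matrix.cons_val, mul_one, x]
    split_ifs <;> norm_num)
  rw [key, key, Matrix.trace_diagonal, Matrix.trace_diagonal, Fin.sum_univ_three,
    Fin.sum_univ_three] at h1
  simp only [Matrix.cons_val] at h1
  have h2 : (2:ℂ) ^ (u.count i) = 2 ^ (w.count i) := by linear_combination h1
  have h3 : (2:ℕ) ^ (u.count i) = 2 ^ (w.count i) := by exact_mod_cast h2
  exact Nat.pow_right_injective le_rfl h3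

theorem eq_replicate_of_count {l : List (Fin 2)} (h : l.count 1 = 0) :
    l = List.replicate l.length 0 := by
  rw [List.eq_replicate_iff]
  refine ⟨rfl, fun b hb => ?_⟩
  by_contra hne
  have : b = 1 := by omega
  rw [this] at hb
  have := List.count_pos_iff.mpr hb
  omega

theorem rotated_of_count_one {u : List (Fin 2)} (h : u.count 1 = 1) :
    u.IsRotated (1 :: List.replicate (u.count 0) 0) := by
  obtain ⟨s, t, hst⟩ := List.append_of_mem (List.count_pos_iff.mp (show 0 < u.count 1 by omega))
  have h1 : s.count 1 = 0 ∧ t.count 1 = 0 := by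
    rw [hst, List.count_append, List.count_cons] at h
    simp at h
    omega
  have hs := eq_replicate_of_count h1.1
  have ht := eq_replicate_of_count h1.2
  refine ⟨s.length, ?_⟩
  have : (1 :: t ++ s).length = u.length := by rw [hst]; simp; omega
  have hc : u.count 0 = t.length + s.length := by
    have e0 := count_add u
    have e1 : u.length = s.length + (t.length + 1) := by rw [hst]; simp
    omega
  rw [hst, List.rotate_append_length_eq]
  rw [← hst, hc, List.replicate_add, ← ht, ← hs]
  rfl

theorem determined_of_count_le_one {u : List (Fin 2)} (h : u.count 1 ≤ 1) : Determined u := by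
  apply determined_of
  intro w hw
  have h0 := TE_count hw 0
  have h1 := TE_count hw 1
  rcases Nat.lt_or_ge (u.count 1) 1 with h2 | h2
  · have e1 := eq_replicate_of_count (show u.count 1 = 0 by omega)
    have e2 := eq_replicate_of_count (show w.count 1 = 0 by omega)
    have e3 := count_add u
    have e4 := count_add w
    have : u.length = w.length := by omega
    rw [e1, e2, this]
  · have e1 := rotated_of_count_one (show u.count 1 = 1 by omega)
    have e2 := rotated_of_count_one (show w.count 1 = 1 by omega)
    rw [h0] at e1
    exact e1.trans e2.symm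

/-! ### Coprime exponents -/

theorem lev_take (u : List (Fin 2)) (k : ℕ) (hk : k ≤ u.length) :
    lev (u.count 0) (u.count 1) (u.take k) =
      (u.count 1 : ℤ) * k - (u.length : ℤ) * (u.take k).count 1 := by
  unfold lev
  have h1 := count_add (u.take k)
  have h2 := count_add u
  rw [List.length_take, min_eq_left hk] at h1
  have h1' : ((u.take k).count 0 : ℤ) = (k : ℤ) - (u.take k).count 1 := by
    have : (((u.take k).count 0 + (u.take k).count 1 : ℕ) : ℤ) = k := by rw [h1]
    push_cast at this
    linarith
  have h2' : (u.length : ℤ) = u.count 0 + u.count 1 := by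
    rw [← h2]; push_cast; ring
  rw [h1', h2']
  ring

theorem dvd_of_lev_eq (u : List (Fin 2)) {j k : ℕ} (hj : j ≤ u.length) (hk : k ≤ u.length)
    (h : lev (u.count 0) (u.count 1) (u.take j) = lev (u.count 0) (u.count 1) (u.take k)) :
    (u.length : ℤ) ∣ (u.count 1 : ℤ) * ((k : ℤ) - j) := by
  rw [lev_take u j hj, lev_take u k hk] at h
  exact ⟨(u.take k).count 1 - (u.take j).count 1, by linarith⟩

theorem uniqueMin_of_inj {u : List (Fin 2)} (hu : u ≠ [])
    (hinj : ∀ j k, j < k → k < u.length →
      lev (u.count 0) (u.count 1) (u.take j) ≠ lev (u.count 0) (u.count 1) (u.take k)) :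
    UniqueMin u := by
  obtain ⟨t, ht, hmin⟩ := Finset.exists_min_image (range u.length)
    (fun k => lev (u.count 0) (u.count 1) (u.take k))
    ⟨0, Finset.mem_range.mpr (List.length_pos_iff.mpr hu)⟩
  rw [Finset.mem_range] at ht
  refine ⟨t, ht, fun k hk hne => ?_⟩
  have h1 := hmin k (Finset.mem_range.mpr hk)
  refine lt_of_le_of_ne h1 ?_
  rcases lt_or_gt_of_ne hne with h2 | h2
  · exact (hinj k t h2 ht).symm
  · exact hinj t k h2 hk

theorem determined_of_coprime {u : List (Fin 2)} (h : Nat.Coprime (u.count 0) (u.count 1)) :
    Determined u := by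
  rcases Nat.lt_or_ge (u.count 1) 2 with h2 | h2
  · exact determined_of_count_le_one (by omega)
  · apply determined_of_uniqueMin _ h2
    have hlen := count_add u
    apply uniqueMin_of_inj
    · rintro rfl; simp at h2
    · intro j k hjk hk heq
      have h3 := dvd_of_lev_eq u (by omega) hk.le heq
      have h4 : IsCoprime (u.length : ℤ) (u.count 1 : ℤ) := by
        rw [Nat.isCoprime_iff_coprime, ← hlen]
        exact (Nat.coprime_add_self_left).mpr h
      have h5 : (u.length : ℤ) ∣ (k : ℤ) - j := h4.dvd_of_dvd_mul_left h3
      have h6 := Int.le_of_dvd (by omega) h5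
      omega

end Pool.Agent.Helper426.TW
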