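import Mathlib
import Pool.Agent.Helper426.TW.Level

set_option autoImplicit false

namespace Pool.Agent.Helper426.TW

open Matrix Finset

theorem conj_of_determined {u : List (Fin 2)} (h : Determined u)
    (φ : FreeGroup (Fin 2) ≃* FreeGroup (Fin 2)) (v : FreeGroup (Fin 2))
    (hv : SLTraceEquiv (φ (word u)) v) : IsConj (φ (word u)) v := by
  have h1 : SLTraceEquiv (word u) (φ.symm v) := by
    intro A B
    have key : ∀ x : FreeGroup (Fin 2), FreeGroup.lift ![A, B] (φ.symm x) =
        FreeGroup.lift ![FreeGroup.lift ![A, B] (φ.symm (FreeGroup.of 0)),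
          FreeGroup.lift ![A, B] (φ.symm (FreeGroup.of 1))] x := by
      intro x
      have : (FreeGroup.lift ![A, B]).comp (φ.symm : FreeGroup (Fin 2) →* FreeGroup (Fin 2)) =
          FreeGroup.lift ![FreeGroup.lift ![A, B] (φ.symm (FreeGroup.of 0)),
          FreeGroup.lift ![A, B] (φ.symm (FreeGroup.of 1))] := by
        apply FreeGroup.ext_hom
        intro i
        fin_cases i <;> simp
      exact DFunLike.congr_fun this x
    have h2 := hv (FreeGroup.lift ![A, B] (φ.symm (FreeGroup.of 0)))
      (FreeGroup.lift ![A, B] (φ.symm (FreeGroup.of 1)))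
    rw [← key, ← key, MulEquiv.symm_apply_apply] at h2
    exact h2
  have h3 := h _ h1
  obtain ⟨c, hc⟩ := isConj_iff.mp h3
  refine isConj_iff.mpr ⟨φ c, ?_⟩
  rw [← map_inv, ← map_mul, ← map_mul, hc, MulEquiv.apply_symm_apply]

end Pool.Agent.Helper426.TW
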