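import Mathlib

set_option autoImplicit false

namespace Pool.Agent.Helper426.TW

open Finset

theorem prod_ofFn_apply {ι K : Type*} [Fintype ι] [DecidableEq ι] [CommRing K] :
    ∀ (r : ℕ) (M : Fin r → Matrix ι ι K) (a b : ι),
    (List.ofFn M).prod a b = ∑ k : Fin (r + 1) → ι,
      if k 0 = a ∧ k (Fin.last r) = b then ∏ i : Fin r, M i (k i.castSucc) (k i.succ) else 0 := by
  intro r
  induction r with
  | zero =>
    intro M a b
    simp only [List.ofFn_zero, List.prod_nil, Finset.univ_eq_empty, Finset.prod_empty]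
    rw [Matrix.one_apply]
    have h : ∀ k : Fin 1 → ι, (if k 0 = a ∧ k (Fin.last 0) = b then (1 : K) else 0) =
        if k = (fun _ => a) then (if a = b then 1 else 0) else 0 := by
      intro k
      have hl : (Fin.last 0 : Fin 1) = 0 := rfl
      rw [hl]
      by_cases h0 : k 0 = a
      · have : k = fun _ => a := by funext i; rw [Subsingleton.elim i 0]; exact h0
        rw [if_pos this, h0]; simp
      · have : k ≠ fun _ => a := by rintro rfl; exact h0 rfl
        rw [if_neg this]; simp [h0]
    simp only [Nat.reduceAdd] at *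
    rw [Finset.sum_congr rfl (fun k _ => h k), Finset.sum_ite_eq']
    simp
  | succ r ih =>
    intro M a b
    rw [List.ofFn_succ, List.prod_cons, Matrix.mul_apply]
    rw [← (Fin.consEquiv (fun _ : Fin (r + 2) => ι)).sum_comp, Fintype.sum_prod_type]
    have h1 : ∀ (k0 : ι) (k : Fin (r + 1) → ι),
        (if (Fin.consEquiv (fun _ : Fin (r + 2) => ι)) (k0, k) 0 = a ∧
          (Fin.consEquiv (fun _ : Fin (r + 2) => ι)) (k0, k) (Fin.last (r + 1)) = b then
          ∏ i : Fin (r + 1), M i ((Fin.consEquiv (fun _ : Fin (r + 2) => ι)) (k0, k) i.castSucc)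
            ((Fin.consEquiv (fun _ : Fin (r + 2) => ι)) (k0, k) i.succ) else 0) =
        if k0 = a then (if k (Fin.last r) = b then M 0 a (k 0) *
          ∏ i : Fin r, M i.succ (k i.castSucc) (k i.succ) else 0) else 0 := by
      intro k0 k
      have e0 : (Fin.consEquiv (fun _ : Fin (r + 2) => ι)) (k0, k) 0 = k0 := rfl
      have es : ∀ i : Fin (r + 1), (Fin.consEquiv (fun _ : Fin (r + 2) => ι)) (k0, k) i.succ = k i :=
        fun i => rfl
      have el : (Fin.consEquiv (fun _ : Fin (r + 2) => ι)) (k0, k) (Fin.last (r + 1)) =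
          k (Fin.last r) := by rw [← Fin.succ_last]; rfl
      rw [e0, el, ite_and]
      by_cases h : k0 = a
      · rw [if_pos h, if_pos h]
        congr 1
        rw [Fin.prod_univ_succ]
        congr 1
        rw [← h]
        rfl
      · rw [if_neg h, if_neg h]
    rw [Finset.sum_congr rfl (fun k0 _ => Finset.sum_congr rfl (fun k _ => h1 k0 k))]
    have h2 : ∀ k0 : ι, (∑ k : Fin (r + 1) → ι, if k0 = a then (if k (Fin.last r) = b then
        M 0 a (k 0) * ∏ i : Fin r, M i.succ (k i.castSucc) (k i.succ) else 0) else 0) =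
        if k0 = a then (∑ k : Fin (r + 1) → ι, (if k (Fin.last r) = b then
        M 0 a (k 0) * ∏ i : Fin r, M i.succ (k i.castSucc) (k i.succ) else 0)) else 0 := by
      intro k0; split_ifs <;> simp
    rw [Finset.sum_congr rfl (fun k0 _ => h2 k0), Finset.sum_ite_eq']
    simp only [Finset.mem_univ, if_true]
    rw [Finset.sum_congr rfl (fun c _ => by rw [ih (fun i => M i.succ) c b, Finset.mul_sum])]
    rw [Finset.sum_comm]
    refine Finset.sum_congr rfl fun k _ => ?_
    by_cases hb : k (Fin.last r) = b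
    · simp only [hb, and_true, if_true]
      rw [Finset.sum_eq_single (k 0)]
      · simp
      · intro c _ hc
        rw [if_neg (fun h => hc h.symm), mul_zero]
      · intro h; exact absurd (Finset.mem_univ _) h
    · simp [hb]

theorem trace_prod_ofFn {ι K : Type*} [Fintype ι] [DecidableEq ι] [CommRing K] (s : ℕ)
    (M : Fin (s + 1) → Matrix ι ι K) :
    (List.ofFn M).prod.trace = ∑ k : Fin (s + 1) → ι, ∏ i : Fin (s + 1), M i (k i) (k (i + 1)) := by
  rw [Matrix.trace]
  simp only [Matrix.diag_apply, prod_ofFn_apply]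
  rw [Finset.sum_comm]
  have h1 : ∀ k : Fin (s + 1 + 1) → ι, (∑ a : ι, if k 0 = a ∧ k (Fin.last (s + 1)) = a then
      ∏ i : Fin (s + 1), M i (k i.castSucc) (k i.succ) else 0) =
      if k (Fin.last (s + 1)) = k 0 then ∏ i : Fin (s + 1), M i (k i.castSucc) (k i.succ)
      else 0 := by
    intro k
    rw [Finset.sum_eq_single (k 0)]
    · simp
    · intro a _ ha
      rw [if_neg (fun h => ha h.1.symm)]
    · intro h; exact absurd (Finset.mem_univ _) h
  rw [Finset.sum_congr rfl (fun k _ => h1 k)]
  rw [← (Fin.snocEquiv (fun _ : Fin (s + 2) => ι)).sum_comp, Fintype.sum_prod_type,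
    Finset.sum_comm]
  refine Finset.sum_congr rfl fun k _ => ?_
  have h2 : ∀ b : ι, (if (Fin.snocEquiv (fun _ : Fin (s + 2) => ι)) (b, k) (Fin.last (s + 1)) =
      (Fin.snocEquiv (fun _ : Fin (s + 2) => ι)) (b, k) 0 then
      ∏ i : Fin (s + 1), M i ((Fin.snocEquiv (fun _ : Fin (s + 2) => ι)) (b, k) i.castSucc)
        ((Fin.snocEquiv (fun _ : Fin (s + 2) => ι)) (b, k) i.succ) else 0) =
      if b = k 0 then ∏ i : Fin (s + 1), M i (k i) (k (i + 1)) else 0 := by
    intro b
    have el : (Fin.snocEquiv (fun _ : Fin (s + 2) => ι)) (b, k) (Fin.last (s + 1)) = b := by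
      simp [Fin.snocEquiv]
    have ec : ∀ i : Fin (s + 1), (Fin.snocEquiv (fun _ : Fin (s + 2) => ι)) (b, k) i.castSucc =
        k i := by
      intro i; simp [Fin.snocEquiv]
    have e0 : (Fin.snocEquiv (fun _ : Fin (s + 2) => ι)) (b, k) 0 = k 0 := ec 0
    rw [el, e0]
    by_cases hb : b = k 0
    · rw [if_pos hb, if_pos hb]
      refine Finset.prod_congr rfl fun i _ => ?_
      rw [ec i]
      congr 1
      by_cases hi : i = Fin.last s
      · subst hi
        rw [Fin.succ_last, el, hb, Fin.last_add_one]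
      · have h3 : i.succ = (i + 1).castSucc := by
          ext
          rw [Fin.val_succ, Fin.val_castSucc, Fin.val_add_one, if_neg hi]
        rw [h3, ec]
    · rw [if_neg hb, if_neg hb]
  rw [Finset.sum_congr rfl (fun b _ => h2 b), Finset.sum_ite_eq']
  simp

end Pool.Agent.Helper426.TW
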