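import Mathlib
import Pool.Agent.Helper426.TW.Pos
import Pool.Agent.Helper426.TW.Path

set_option autoImplicit false

namespace Pool.Agent.Helper426.TW

open Matrix Finset

/-- the element `∏ a^m b^n` -/
def wl (L : List (ℤ × ℤ)) : FreeGroup (Fin 2) :=
  (L.map (fun p => FreeGroup.of 0 ^ p.1 * FreeGroup.of 1 ^ p.2)).prod

theorem wl_cons (p : ℤ × ℤ) (L : List (ℤ × ℤ)) :
    wl (p :: L) = FreeGroup.of 0 ^ p.1 * FreeGroup.of 1 ^ p.2 * wl L := by simp [wl]

theorem wl_append (L L' : List (ℤ × ℤ)) : wl (L ++ L') = wl L * wl L' := by simp [wl]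

theorem exists_wl (x : FreeGroup (Fin 2)) : ∃ L, x = wl L := by
  induction x using FreeGroup.induction_on with
  | C1 => exact ⟨[], rfl⟩
  | of i =>
    fin_cases i
    · exact ⟨[(1, 0)], by simp [wl]⟩
    · exact ⟨[(0, 1)], by simp [wl]⟩
  | inv_of i _ =>
    fin_cases i
    · exact ⟨[(-1, 0)], by simp [wl]⟩
    · exact ⟨[(0, -1)], by simp [wl]⟩
  | mul x y hx hy =>
    obtain ⟨L, rfl⟩ := hx
    obtain ⟨L', rfl⟩ := hy
    exact ⟨L ++ L', (wl_append L L').symm⟩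

theorem wl_rotate (L : List (ℤ × ℤ)) (n : ℕ) : IsConj (wl L) (wl (L.rotate n)) := by
  have : L.rotate n = L.drop (n % L.length) ++ L.take (n % L.length) :=
    List.rotate_eq_drop_append_take_mod
  rw [this, wl_append]
  have e : wl L = wl (L.take (n % L.length)) * wl (L.drop (n % L.length)) := by
    rw [← wl_append, List.take_append_drop]
  rw [e]
  refine isConj_iff.mpr ⟨(wl (L.take (n % L.length)))⁻¹, ?_⟩
  group

/-- normal form -/
theorem exists_normal (v : FreeGroup (Fin 2)) : ∃ L : List (ℤ × ℤ), L ≠ [] ∧ IsConj v (wl L) ∧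
    (2 ≤ L.length → ∀ p ∈ L, p.1 ≠ 0 ∧ p.2 ≠ 0) := by
  classical
  have hex : ∃ k : ℕ, ∃ L : List (ℤ × ℤ), L.length = k ∧ L ≠ [] ∧ IsConj v (wl L) := by
    obtain ⟨L, hL⟩ := exists_wl v
    cases L with
    | nil => exact ⟨1, [(0, 0)], rfl, by simp, by rw [hL]; simp [wl]⟩
    | cons p L => exact ⟨_, p :: L, rfl, by simp, by rw [hL]⟩
  obtain ⟨L, hlen, hne, hconj⟩ := Nat.find_spec hex
  have hmin : ∀ L' : List (ℤ × ℤ), L' ≠ [] → IsConj v (wl L') → L.length ≤ L'.length := by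
    intro L' h1 h2
    rw [hlen]
    exact Nat.find_min' hex ⟨L', rfl, h1, h2⟩
  refine ⟨L, hne, hconj, fun h2 p hp => ?_⟩
  obtain ⟨L1, L2, hL⟩ := List.append_of_mem hp
  have hrot : L.rotate L1.length = p :: (L2 ++ L1) := by
    rw [hL, List.rotate_append_length_eq]; rfl
  have hc2 : IsConj v (wl (p :: (L2 ++ L1))) := by
    rw [← hrot]; exact hconj.trans (wl_rotate L _)
  have hlen2 : (L2 ++ L1).length + 1 = L.length := by rw [hL]; simp; omega
  constructor
  · intro h0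
    -- merge with the last one
    rcases List.eq_nil_or_concat (L2 ++ L1) with h3 | ⟨M, q, h3⟩
    · rw [h3] at hlen2; simp at hlen2; omega
    · rw [List.concat_eq_append] at h3
      have h4 : IsConj v (wl (M ++ [(q.1, q.2 + p.2)])) := by
        refine hc2.trans ?_
        rw [h3, wl_cons, wl_append, wl_append, h0, zpow_zero, one_mul]
        refine isConj_iff.mpr ⟨(FreeGroup.of 1 ^ p.2)⁻¹, ?_⟩
        simp only [wl, List.map_cons, List.map_nil, List.prod_cons, List.prod_nil, mul_one,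
          _root_.zpow_add]
        group
      have h5 := hmin _ (by simp) h4
      rw [h3] at hlen2
      simp at h5 hlen2
      omega
  · intro h0
    cases hM : (L2 ++ L1) with
    | nil => rw [hM] at hlen2; simp at hlen2; omega
    | cons q M =>
      have h4 : IsConj v (wl ((p.1 + q.1, q.2) :: M)) := by
        refine hc2.trans ?_
        rw [hM, wl_cons, wl_cons, wl_cons, h0, zpow_zero, mul_one, _root_.zpow_add]
        refine isConj_iff.mpr ⟨1, ?_⟩
        group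
      have h5 := hmin _ (by simp) h4
      rw [hM] at hlen2
      simp at h5 hlen2
      omega

/-! ### evaluation -/

/-- diagonal matrices -/
noncomputable def Dg : (Fin 3 → ℂˣ) →* GL (Fin 3) ℂ where
  toFun x := ⟨diagonal (fun i => (x i : ℂ)), diagonal (fun i => (((x i)⁻¹ : ℂˣ) : ℂ)), by
      rw [diagonal_mul_diagonal, ← diagonal_one]; congr 1; funext i; simp, by
      rw [diagonal_mul_diagonal, ← diagonal_one]; congr 1; funext i; simp⟩
  map_one' := by
    apply Units.ext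
    show diagonal _ = (1 : Matrix (Fin 3) (Fin 3) ℂ)
    rw [← diagonal_one]; congr 1
  map_mul' x y := by
    apply Units.ext
    show diagonal _ = diagonal _ * diagonal _
    rw [diagonal_mul_diagonal]; congr 1

theorem Dg_zpow_coe (x : Fin 3 → ℂˣ) (m : ℤ) :
    ((Dg x ^ m : GL (Fin 3) ℂ) : Matrix (Fin 3) (Fin 3) ℂ) =
      diagonal (fun i => (((x i) ^ m : ℂˣ) : ℂ)) := by
  rw [← map_zpow]; rfl

/-- the factor `A^m B^n` -/
noncomputable def fac (γ : GL (Fin 3) ℂ) (x y : Fin 3 → ℂˣ) (p : ℤ × ℤ) :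
    Matrix (Fin 3) (Fin 3) ℂ :=
  diagonal (fun i => (((x i) ^ p.1 : ℂˣ) : ℂ)) * (γ : Matrix (Fin 3) (Fin 3) ℂ) *
    diagonal (fun i => (((y i) ^ p.2 : ℂˣ) : ℂ)) * ((γ⁻¹ : GL (Fin 3) ℂ) : Matrix (Fin 3) (Fin 3) ℂ)

theorem lift_wl (γ : GL (Fin 3) ℂ) (x y : Fin 3 → ℂˣ) (L : List (ℤ × ℤ)) :
    ((FreeGroup.lift ![Dg x, γ * Dg y * γ⁻¹] (wl L) : GL (Fin 3) ℂ) : Matrix (Fin 3) (Fin 3) ℂ) =
      (L.map (fac γ x y)).prod := by
  induction L with
  | nil => simp [wl]
  | cons p L ih =>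
    rw [wl_cons, map_mul, map_mul, map_zpow, map_zpow, FreeGroup.lift_apply_of,
      FreeGroup.lift_apply_of, List.map_cons, List.prod_cons, Units.val_mul, ih]
    congr 1
    have e1 : (![Dg x, γ * Dg y * γ⁻¹] : Fin 2 → GL (Fin 3) ℂ) 0 = Dg x := rfl
    have e2 : (![Dg x, γ * Dg y * γ⁻¹] : Fin 2 → GL (Fin 3) ℂ) 1 = γ * Dg y * γ⁻¹ := rfl
    rw [e1, e2, conj_zpow, Units.val_mul, Dg_zpow_coe, Units.val_mul, Units.val_mul, Dg_zpow_coe]
    unfold fac
    simp only [mul_assoc]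

/-! ### comparison of the number of syllables -/

def NN : Matrix (Fin 3) (Fin 3) ℂ := !![1, -1, 0; 1, -1, 0; 0, 0, 0]

theorem NN_sq : NN * NN = 0 := by
  ext i j; fin_cases i <;> fin_cases j <;> simp [NN, Matrix.mul_apply, Fin.sum_univ_three]

noncomputable def dd (m : ℤ) : Matrix (Fin 3) (Fin 3) ℂ := diagonal ![(2:ℂ) ^ m, 1, 1]

noncomputable def FF (s : ℂ) (p : ℤ × ℤ) : Matrix (Fin 3) (Fin 3) ℂ :=
  dd p.1 * (s • (1 : Matrix (Fin 3) (Fin 3) ℂ) + NN) * dd p.2 *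
    (s • (1 : Matrix (Fin 3) (Fin 3) ℂ) - NN)

theorem nil_inv {R : Type*} [Ring R] (a : R) (h : a * a = 0) :
    (1 + a) * (1 - a) = 1 ∧ (1 - a) * (1 + a) = 1 := by
  constructor
  · have h2 : (1 + a) * (1 - a) = 1 - a * a := by noncomm_ring
    rw [h2, h, sub_zero]
  · have h2 : (1 - a) * (1 + a) = 1 - a * a := by noncomm_ring
    rw [h2, h, sub_zero]

theorem sN_sq (s : ℂ) : (s⁻¹ • NN) * (s⁻¹ • NN) = 0 := by
  rw [smul_mul_smul_comm, NN_sq, smul_zero]

noncomputable def gs (s : ℂ) : GL (Fin 3) ℂ :=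
  ⟨1 + s⁻¹ • NN, 1 - s⁻¹ • NN, (nil_inv _ (sN_sq s)).1, (nil_inv _ (sN_sq s)).2⟩

noncomputable def xx : Fin 3 → ℂˣ := ![Units.mk0 2 two_ne_zero, 1, 1]

theorem dd_eq (m : ℤ) : dd m = diagonal (fun i => (((xx i) ^ m : ℂˣ) : ℂ)) := by
  unfold dd
  congr 1
  funext i
  fin_cases i <;> simp [xx]

theorem FF_eq (s : ℂ) (hs : s ≠ 0) (p : ℤ × ℤ) : FF s p = s ^ 2 • fac (gs s) xx xx p := by
  unfold FF fac
  rw [← dd_eq, ← dd_eq]
  have e1 : s • (1 : Matrix (Fin 3) (Fin 3) ℂ) + NN = s • ((gs s : GL (Fin 3) ℂ) :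
      Matrix (Fin 3) (Fin 3) ℂ) := by
    show _ = s • (1 + s⁻¹ • NN)
    rw [smul_add, smul_smul, mul_inv_cancel₀ hs, one_smul]
  have e2 : s • (1 : Matrix (Fin 3) (Fin 3) ℂ) - NN = s • (((gs s)⁻¹ : GL (Fin 3) ℂ) :
      Matrix (Fin 3) (Fin 3) ℂ) := by
    show _ = s • (1 - s⁻¹ • NN)
    rw [smul_sub, smul_smul, mul_inv_cancel₀ hs, one_smul]
  rw [e1, e2]
  simp only [mul_smul_comm, smul_mul_assoc, smul_smul]
  rw [sq]

theorem prod_FF (s : ℂ) (hs : s ≠ 0) (L : List (ℤ × ℤ)) :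
    (L.map (FF s)).prod = s ^ (2 * L.length) • (L.map (fac (gs s) xx xx)).prod := by
  induction L with
  | nil => simp
  | cons p L ih =>
    rw [List.map_cons, List.prod_cons, ih, FF_eq s hs, List.map_cons, List.prod_cons,
      smul_mul_smul_comm, List.length_cons]
    congr 1
    ring

theorem continuous_FF (L : List (ℤ × ℤ)) : Continuous (fun s : ℂ => (L.map (FF s)).prod) := by
  induction L with
  | nil => simpa using continuous_const
  | cons p L ih =>
    simp only [List.map_cons, List.prod_cons]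
    refine Continuous.matrix_mul ?_ ih
    unfold FF
    refine Continuous.matrix_mul (Continuous.matrix_mul (Continuous.matrix_mul continuous_const ?_)
      continuous_const) ?_
    · exact (continuous_id.smul continuous_const).add continuous_const
    · exact (continuous_id.smul continuous_const).sub continuous_const

theorem dd_mat (m : ℤ) : dd m = !![(2:ℂ) ^ m, 0, 0; 0, 1, 0; 0, 0, 1] := by
  unfold dd
  ext i j
  fin_cases i <;> fin_cases j <;> simp

theorem NdN (m : ℤ) : NN * dd m * NN = ((2:ℂ) ^ m - 1) • NN := by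
  rw [dd_mat]
  unfold NN
  ext i j
  fin_cases i <;> fin_cases j <;>
    simp [Matrix.mul_apply, Fin.sum_univ_three] <;> ring

theorem two_zpow_ne (m : ℤ) (hm : m ≠ 0) : (2:ℂ) ^ m - 1 ≠ 0 := by
  intro h
  have h1 : (2:ℂ) ^ m = 1 := sub_eq_zero.mp h
  have h2 : (2:ℝ) ^ m = 1 := by
    have : (((2:ℝ) ^ m : ℝ) : ℂ) = 1 := by push_cast; exact h1
    exact_mod_cast this
  have h3 : (2:ℝ) ^ m = (2:ℝ) ^ (0:ℤ) := by rw [h2]; simp
  exact hm (zpow_right_injective₀ (by norm_num) (by norm_num) h3)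

theorem prod_FF_zero : ∀ (L : List (ℤ × ℤ)) (p : ℤ × ℤ), (∀ q ∈ p :: L, q.1 ≠ 0 ∧ q.2 ≠ 0) →
    ∃ c : ℂ, c ≠ 0 ∧ ((p :: L).map (FF 0)).prod = c • (dd p.1 * NN) := by
  intro L
  have hF : ∀ p : ℤ × ℤ, FF 0 p = (-((2:ℂ) ^ p.2 - 1)) • (dd p.1 * NN) := by
    intro p
    unfold FF
    rw [zero_smul, zero_add, zero_sub, mul_neg, mul_assoc, mul_assoc, ← mul_assoc NN, NdN,
      mul_smul_comm, neg_smul]
  induction L with
  | nil =>
    intro p hp
    refine ⟨-((2:ℂ) ^ p.2 - 1), neg_ne_zero.mpr (two_zpow_ne _ (hp p (by simp)).2), ?_⟩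
    rw [List.map_cons, List.map_nil, List.prod_cons, List.prod_nil, mul_one, hF]
  | cons q L ih =>
    intro p hp
    obtain ⟨c, hc, he⟩ := ih q (fun z hz => hp z (List.mem_cons_of_mem _ hz))
    refine ⟨-((2:ℂ) ^ p.2 - 1) * (c * ((2:ℂ) ^ q.1 - 1)), ?_, ?_⟩
    · exact mul_ne_zero (neg_ne_zero.mpr (two_zpow_ne _ (hp p (by simp)).2))
        (mul_ne_zero hc (two_zpow_ne _ (hp q (by simp)).1))
    · rw [List.map_cons, List.prod_cons, he, hF, smul_mul_smul_comm, mul_assoc,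
        ← mul_assoc NN, NdN, mul_smul_comm, smul_smul]
      congr 1
      ring

theorem trace_FF_zero (L : List (ℤ × ℤ)) (hne : L ≠ []) (h : ∀ q ∈ L, q.1 ≠ 0 ∧ q.2 ≠ 0) :
    (L.map (FF 0)).prod.trace ≠ 0 := by
  obtain ⟨p, L', rfl⟩ := List.exists_cons_of_ne_nil hne
  obtain ⟨c, hc, he⟩ := prod_FF_zero L' p h
  rw [he, Matrix.trace_smul]
  have : (dd p.1 * NN).trace = (2:ℂ) ^ p.1 - 1 := by
    rw [dd_mat]
    unfold NN
    simp [Matrix.trace, Fin.sum_univ_three]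
    try ring
  rw [this, smul_eq_mul]
  exact mul_ne_zero hc (two_zpow_ne _ (h p (by simp)).1)

theorem length_le {L L' : List (ℤ × ℤ)} (h : GLTraceEquiv (wl L) (wl L')) (hne : L' ≠ [])
    (hz : ∀ q ∈ L', q.1 ≠ 0 ∧ q.2 ≠ 0) : L'.length ≤ L.length := by
  by_contra hcon
  push Not at hcon
  have h1 : ∀ s : ℂ, s ≠ 0 → (L'.map (FF s)).prod.trace =
      s ^ (2 * (L'.length - L.length)) * (L.map (FF s)).prod.trace := by
    intro s hs
    have e := h ![Dg xx, gs s * Dg xx * (gs s)⁻¹]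
    rw [lift_wl, lift_wl] at e
    rw [prod_FF s hs, prod_FF s hs, Matrix.trace_smul, Matrix.trace_smul, ← e, smul_eq_mul,
      smul_eq_mul, ← mul_assoc, ← pow_add]
    congr 2
    omega
  have c1 : Continuous (fun s : ℂ => (L'.map (FF s)).prod.trace) :=
    (continuous_FF L').matrix_trace
  have c2 : Continuous (fun s : ℂ => s ^ (2 * (L'.length - L.length)) *
      (L.map (FF s)).prod.trace) := (continuous_pow _).mul (continuous_FF L).matrix_trace
  have h2 : (fun s : ℂ => (L'.map (FF s)).prod.trace) = (fun s : ℂ =>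
      s ^ (2 * (L'.length - L.length)) * (L.map (FF s)).prod.trace) := by
    apply Continuous.ext_on (dense_compl_singleton (0:ℂ)) c1 c2
    intro s hs
    exact h1 s hs
  have h3 : (L'.map (FF 0)).prod.trace = (0:ℂ) ^ (2 * (L'.length - L.length)) *
      (L.map (FF 0)).prod.trace := congrFun h2 0
  rw [zero_pow (by omega), zero_mul] at h3
  exact trace_FF_zero L' hne hz h3

end Pool.Agent.Helper426.TW
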