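import Mathlib
import Pool.Agent.Helper426.TW.Syl

set_option autoImplicit false

namespace Pool.Agent.Helper426.TW

open Matrix Finset

def VV : Matrix (Fin 3) (Fin 3) ℚ := !![1, 1, 1; 1, 2, 4; 1, 3, 9]
def VI : Matrix (Fin 3) (Fin 3) ℚ := !![3, -3, 1; -5/2, 4, -3/2; 1/2, -1, 1/2]

theorem VV_VI : VV * VI = 1 ∧ VI * VV = 1 := by
  constructor <;>
  · ext i j
    fin_cases i <;> fin_cases j <;> simp [VV, VI, Matrix.mul_apply, Fin.sum_univ_three] <;> norm_num

noncomputable def VC : Matrix (Fin 3) (Fin 3) ℂ := (algebraMap ℚ ℂ).mapMatrix VV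
noncomputable def VIC : Matrix (Fin 3) (Fin 3) ℂ := (algebraMap ℚ ℂ).mapMatrix VI

noncomputable def gv : GL (Fin 3) ℂ :=
  ⟨VC, VIC, by unfold VC VIC; rw [← map_mul, VV_VI.1, map_one],
    by unfold VC VIC; rw [← map_mul, VV_VI.2, map_one]⟩

/-- the (rational) weight of a colouring -/
def GG {s : ℕ} (k l : Fin (s + 1) → Fin 3) : ℚ :=
  ∏ i, (VV (k i) (l i) * VI (l i) (k (i + 1)))

/-- total exponent carried by each colour -/
def EE {s : ℕ} (m : Fin (s + 1) → ℤ) (k : Fin (s + 1) → Fin 3) (c : Fin 3) : ℤ :=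
  ∑ i, if k i = c then m i else 0

theorem zpow_sum' {ι : Type*} (S : Finset ι) (x : ℂˣ) (a : ι → ℤ) :
    x ^ (∑ i ∈ S, a i) = ∏ i ∈ S, x ^ (a i) := by
  classical
  induction S using Finset.induction_on with
  | empty => simp
  | insert i S hi ih => rw [Finset.sum_insert hi, Finset.prod_insert hi, _root_.zpow_add, ih]

theorem prod_colour {s : ℕ} (m : Fin (s + 1) → ℤ) (k : Fin (s + 1) → Fin 3) (x : Fin 3 → ℂˣ) :
    ∏ i, (x (k i)) ^ (m i) = ∏ c, (x c) ^ (EE m k c) := by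
  unfold EE
  simp_rw [zpow_sum']
  rw [Finset.prod_comm]
  refine Finset.prod_congr rfl fun i _ => ?_
  rw [Finset.prod_eq_single (k i)]
  · simp
  · intro c _ hc
    rw [if_neg (fun h => hc h.symm), zpow_zero]
  · intro h; exact absurd (Finset.mem_univ _) h

/-- monomials as characters -/
noncomputable def ch (e : (Fin 3 → ℤ) × (Fin 3 → ℤ)) :
    ((Fin 3 → ℂˣ) × (Fin 3 → ℂˣ)) →* ℂ where
  toFun z := (((∏ c, (z.1 c) ^ (e.1 c)) * ∏ c, (z.2 c) ^ (e.2 c) : ℂˣ) : ℂ)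
  map_one' := by simp
  map_mul' z w := by
    rw [← Units.val_mul]
    congr 1
    simp only [Prod.fst_mul, Prod.snd_mul, Pi.mul_apply, mul_zpow, Finset.prod_mul_distrib]
    exact mul_mul_mul_comm _ _ _ _

theorem two_zpow_inj {a b : ℤ} (h : (Units.mk0 (2:ℂ) two_ne_zero) ^ a =
    (Units.mk0 (2:ℂ) two_ne_zero) ^ b) : a = b := by
  have h1 := congrArg (fun u : ℂˣ => (u : ℂ)) h
  simp only [Units.val_zpow_eq_zpow_val, Units.val_mk0] at h1
  have h2 : (2:ℝ) ^ a = (2:ℝ) ^ b := by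
    have : (((2:ℝ) ^ a : ℝ) : ℂ) = (((2:ℝ) ^ b : ℝ) : ℂ) := by push_cast; exact h1
    exact_mod_cast this
  exact zpow_right_injective₀ (by norm_num) (by norm_num) h2

theorem prod_single_zpow (c : Fin 3) (t : ℂˣ) (E : Fin 3 → ℤ) :
    ∏ d, ((Function.update (fun _ => (1 : ℂˣ)) c t) d) ^ (E d) = t ^ (E c) := by
  rw [Finset.prod_eq_single c]
  · simp
  · intro d _ hd
    rw [Function.update_of_ne hd, _root_.one_zpow]
  · intro h; exact absurd (Finset.mem_univ _) h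

theorem ch_injective : Function.Injective ch := by
  intro e e' h
  have h1 : ∀ z, ch e z = ch e' z := fun z => by rw [h]
  have key : ∀ z : (Fin 3 → ℂˣ) × (Fin 3 → ℂˣ),
      (∏ c, (z.1 c) ^ (e.1 c)) * ∏ c, (z.2 c) ^ (e.2 c) =
      (∏ c, (z.1 c) ^ (e'.1 c)) * ∏ c, (z.2 c) ^ (e'.2 c) := fun z => Units.ext (h1 z)
  apply Prod.ext
  · funext c
    have := key (Function.update (fun _ => (1 : ℂˣ)) c (Units.mk0 (2:ℂ) two_ne_zero), fun _ => 1)
    simp only [prod_single_zpow, _root_.one_zpow, Finset.prod_const_one, mul_one] at this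
    exact two_zpow_inj this
  · funext c
    have := key (fun _ => 1, Function.update (fun _ => (1 : ℂˣ)) c (Units.mk0 (2:ℂ) two_ne_zero))
    simp only [prod_single_zpow, _root_.one_zpow, Finset.prod_const_one, one_mul] at this
    exact two_zpow_inj this

theorem ch_indep : LinearIndependent ℂ (fun e : (Fin 3 → ℤ) × (Fin 3 → ℤ) =>
    (ch e : ((Fin 3 → ℂˣ) × (Fin 3 → ℂˣ)) → ℂ)) :=
  (linearIndependent_monoidHom ((Fin 3 → ℂˣ) × (Fin 3 → ℂˣ)) ℂ).comp ch ch_injective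

theorem trace_expand {s : ℕ} (m n : Fin (s + 1) → ℤ) (x y : Fin 3 → ℂˣ) :
    (List.ofFn (fun i => fac gv x y (m i, n i))).prod.trace =
      ∑ k : Fin (s + 1) → Fin 3, ∑ l : Fin (s + 1) → Fin 3,
        (algebraMap ℚ ℂ (GG k l)) * ch (EE m k, EE n l) (x, y) := by
  rw [trace_prod_ofFn]
  refine Finset.sum_congr rfl fun k _ => ?_
  have h1 : ∀ (p : ℤ × ℤ) (a b : Fin 3), fac gv x y p a b =
      ∑ l : Fin 3, (((x a) ^ p.1 : ℂˣ) : ℂ) * VC a l * (((y l) ^ p.2 : ℂˣ) : ℂ) * VIC l b := by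
    intro p a b
    show (diagonal (fun i => (((x i) ^ p.1 : ℂˣ) : ℂ)) * VC *
      diagonal (fun i => (((y i) ^ p.2 : ℂˣ) : ℂ)) * VIC) a b = _
    rw [Matrix.mul_apply]
    refine Finset.sum_congr rfl fun l _ => ?_
    rw [Matrix.mul_diagonal, Matrix.diagonal_mul]
  simp_rw [h1]
  rw [Finset.prod_univ_sum, Fintype.piFinset_univ]
  refine Finset.sum_congr rfl fun l _ => ?_
  have h2 : ch (EE m k, EE n l) (x, y) =
      (∏ i, (((x (k i)) ^ (m i) : ℂˣ) : ℂ)) * ∏ i, (((y (l i)) ^ (n i) : ℂˣ) : ℂ) := by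
    show (((∏ c, (x c) ^ (EE m k c)) * ∏ c, (y c) ^ (EE n l c) : ℂˣ) : ℂ) = _
    rw [← prod_colour, ← prod_colour, Units.val_mul]
    simp only [Units.coe_prod]
  rw [h2]
  unfold GG
  rw [map_prod, ← Finset.prod_mul_distrib, ← Finset.prod_mul_distrib]
  refine Finset.prod_congr rfl fun i _ => ?_
  have h3 : VC (k i) (l i) = algebraMap ℚ ℂ (VV (k i) (l i)) := rfl
  have h4 : VIC (l i) (k (i + 1)) = algebraMap ℚ ℂ (VI (l i) (k (i + 1))) := rfl
  rw [h3, h4, map_mul]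
  ring

/-- comparison of coefficients -/
theorem coeff_eq {s : ℕ} {m n m' n' : Fin (s + 1) → ℤ}
    (h : ∀ x y : Fin 3 → ℂˣ, (List.ofFn (fun i => fac gv x y (m i, n i))).prod.trace =
      (List.ofFn (fun i => fac gv x y (m' i, n' i))).prod.trace) :
    (∑ k : Fin (s + 1) → Fin 3, ∑ l : Fin (s + 1) → Fin 3,
        Finsupp.single (EE m k, EE n l) (algebraMap ℚ ℂ (GG k l))) =
    (∑ k : Fin (s + 1) → Fin 3, ∑ l : Fin (s + 1) → Fin 3,
        Finsupp.single (EE m' k, EE n' l) (algebraMap ℚ ℂ (GG k l))) := by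
  have hinj := ch_indep
  rw [LinearIndependent] at hinj
  apply hinj
  simp only [map_sum, Finsupp.linearCombination_single]
  funext z
  simp only [Finset.sum_apply, Pi.smul_apply, smul_eq_mul]
  have := h z.1 z.2
  rw [trace_expand, trace_expand] at this
  exact this

end Pool.Agent.Helper426.TW
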