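import Mathlib
import Pool.Agent.Helper426.TW.Expand

set_option autoImplicit false

namespace Pool.Agent.Helper426.TW

open Matrix Finset

/-! ### abstract comparison -/

theorem compare {Ω X : Type*} [Fintype Ω] (mon mon' : Ω → X) (G : Ω → ℂ)
    (hG : ∀ ω, G ω ≠ 0) (hmon : Function.Injective mon)
    (h : (∑ ω, Finsupp.single (mon ω) (G ω)) = ∑ ω, Finsupp.single (mon' ω) (G ω)) :
    Function.Injective mon' ∧ ∀ ω, ∃ ω', mon' ω' = mon ω ∧ G ω' = G ω := by
  classical
  have hval : ∀ (f : Ω → X) (x : X), (∑ ω, Finsupp.single (f ω) (G ω)) x =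
      ∑ ω, if f ω = x then G ω else 0 := by
    intro f x
    rw [Finsupp.finsetSum_apply]
    refine Finset.sum_congr rfl fun ω _ => ?_
    rw [Finsupp.single_apply]
  have h1 : ∀ ω, (∑ ω', if mon ω' = mon ω then G ω' else 0) = G ω := by
    intro ω
    rw [Finset.sum_eq_single ω]
    · simp
    · intro ω' _ hne
      rw [if_neg (fun he => hne (hmon he))]
    · intro hh; exact absurd (Finset.mem_univ _) hh
  have h2 : ∀ ω, (∑ ω', if mon' ω' = mon ω then G ω' else 0) = G ω := by
    intro ω
    rw [← h1 ω, ← hval mon, ← hval mon', h]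
  have hex : ∀ ω, ∃ ω', mon' ω' = mon ω := by
    intro ω
    by_contra hcon
    push Not at hcon
    have := h2 ω
    rw [Finset.sum_eq_zero (fun ω' _ => if_neg (hcon ω'))] at this
    exact hG ω this.symm
  have hsub : (Finset.univ.image mon) ⊆ (Finset.univ.image mon') := by
    intro x hx
    rw [Finset.mem_image] at hx ⊢
    obtain ⟨ω, _, rfl⟩ := hx
    obtain ⟨ω', hω'⟩ := hex ω
    exact ⟨ω', Finset.mem_univ _, hω'⟩
  have hinj : Function.Injective mon' := by
    have c1 : (Finset.univ.image mon).card = Fintype.card Ω := by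
      rw [Finset.card_image_of_injective _ hmon, Finset.card_univ]
    have c2 := Finset.card_le_card hsub
    rw [c1] at c2
    have c3 : (Finset.univ.image mon').card = (Finset.univ : Finset Ω).card :=
      le_antisymm Finset.card_image_le (by rw [Finset.card_univ]; exact c2)
    have := Finset.card_image_iff.mp c3
    exact fun a b hab => this (by simp) (by simp) hab
  refine ⟨hinj, fun ω => ?_⟩
  obtain ⟨ω', hω'⟩ := hex ω
  refine ⟨ω', hω', ?_⟩
  have := h2 ω
  rw [← hω', Finset.sum_eq_single ω'] at this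
  · simpa using this
  · intro b _ hb
    rw [if_neg (fun he => hb (hinj he))]
  · intro hh; exact absurd (Finset.mem_univ _) hh

/-! ### recolouring -/

variable {s : ℕ}

theorem EE_comp (m : Fin (s + 1) → ℤ) (k : Fin (s + 1) → Fin 3) (ρ : Fin 3 → Fin 3) (c : Fin 3) :
    EE m (ρ ∘ k) c = ∑ d, if ρ d = c then EE m k d else 0 := by
  unfold EE
  have h : ∀ d : Fin 3, (if ρ d = c then ∑ i, (if k i = d then m i else 0) else 0) =
      ∑ i, (if k i = d then (if ρ d = c then m i else 0) else 0) := by
    intro d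
    split_ifs with h
    · rfl
    · simp
  rw [Finset.sum_congr rfl (fun d _ => h d), Finset.sum_comm]
  refine Finset.sum_congr rfl fun i _ => ?_
  rw [Finset.sum_ite_eq]
  simp

/-- the colouring with colour `1` at `i` and `0` elsewhere -/
def sg (i : Fin (s + 1)) : Fin (s + 1) → Fin 3 := fun t => if t = i then 1 else 0

/-- the colouring with colour `1` at `i`, `2` at `j`, `0` elsewhere -/
def db (i j : Fin (s + 1)) : Fin (s + 1) → Fin 3 := fun t => if t = i then 1 else if t = j then 2 else 0

theorem match_letters {m m' : Fin (s + 1) → ℤ} (hm : Function.Injective (EE m))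
    (hm' : Function.Injective (EE m')) (hex : ∀ k, ∃ k', EE m' k' = EE m k) :
    ∃ σ : Equiv.Perm (Fin (s + 1)), ∀ i, m' (σ i) = m i ∧ EE m' (sg (σ i)) = EE m (sg i) := by
  classical
  choose α hα using hex
  have hcomp : ∀ (ρ : Fin 3 → Fin 3) (k : Fin (s + 1) → Fin 3), α (ρ ∘ k) = ρ ∘ α k := by
    intro ρ k
    apply hm'
    funext c
    rw [hα, EE_comp, EE_comp, hα]
  let ρ1 : Fin 3 → Fin 3 := ![0, 1, 0]
  let ρ2 : Fin 3 → Fin 3 := ![0, 0, 1]
  have hsg1 : ∀ i : Fin (s + 1), ρ1 ∘ sg i = sg i := by
    intro i; funext t; simp only [Function.comp, sg]; split_ifs <;> rfl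
  have hdb1 : ∀ i j : Fin (s + 1), i ≠ j → ρ1 ∘ db i j = sg i := by
    intro i j hij; funext t; simp only [Function.comp, sg, db]; split_ifs <;> rfl
  have hdb2 : ∀ i j : Fin (s + 1), i ≠ j → ρ2 ∘ db i j = sg j := by
    intro i j hij; funext t
    simp only [Function.comp, sg, db]
    by_cases h1 : t = i
    · have h2 : t ≠ j := fun h => hij (h1.symm.trans h)
      rw [if_pos h1, if_neg h2]; rfl
    · rw [if_neg h1]; split_ifs <;> rfl
  have hno2 : ∀ i t, α (sg i) t ≠ 2 := by
    intro i t h
    have h1 := hcomp ρ1 (sg i)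
    rw [hsg1] at h1
    have h2 := congrFun h1 t
    simp only [Function.comp, h] at h2
    exact absurd h2 (by decide)
  have hne : ∀ i, ∃ t, α (sg i) t = 1 := by
    intro i
    by_contra hcon
    push Not at hcon
    have h0 : α (sg i) = fun _ => 0 := by
      funext t
      have h1 := hcon t
      have h2 := hno2 i t
      generalize α (sg i) t = z at *
      fin_cases z
      · rfl
      · exact absurd rfl h1
      · exact absurd rfl h2
    have h1 : α (fun _ => 0) = fun _ => 0 := by
      have := hcomp (fun _ => 0) (fun _ => 0)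
      exact this
    have h2 : EE m (sg i) = EE m (fun _ => 0) := by
      rw [← hα, ← hα, h0, h1]
    have h3 := congrFun (hm h2) i
    simp [sg] at h3
  choose τ hτ using hne
  have hdisj : ∀ i j t, α (sg i) t = 1 → α (sg j) t = 1 → i = j := by
    intro i j t hi hj
    by_contra hij
    have h1 := hcomp ρ1 (db i j)
    rw [hdb1 i j hij] at h1
    have h2 := hcomp ρ2 (db i j)
    rw [hdb2 i j hij] at h2
    have h3 := congrFun h1 t
    have h4 := congrFun h2 t
    rw [hi] at h3
    rw [hj] at h4
    simp only [Function.comp] at h3 h4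
    generalize α (db i j) t = z at h3 h4
    fin_cases z
    · exact absurd h3 (by decide)
    · exact absurd h4 (by decide)
    · exact absurd h3 (by decide)
  have hinj : Function.Injective τ := by
    intro i j hij
    exact hdisj i j (τ i) (hτ i) (by rw [hij]; exact hτ j)
  have hbij : Function.Bijective τ := Finite.injective_iff_bijective.mp hinj
  refine ⟨Equiv.ofBijective τ hbij, fun i => ?_⟩
  have hsg : α (sg i) = sg (τ i) := by
    funext t
    by_cases ht : t = τ i
    · rw [ht, hτ]; simp [sg]
    · have h1 : α (sg i) t ≠ 1 := by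
        intro h
        obtain ⟨j, rfl⟩ := hbij.2 t
        have := hdisj i j (τ j) h (hτ j)
        exact ht (by rw [this])
      have h2 := hno2 i t
      have h3 : sg (τ i) t = 0 := by simp [sg, ht]
      rw [h3]
      generalize α (sg i) t = z at *
      fin_cases z
      · rfl
      · exact absurd rfl h1
      · exact absurd rfl h2
  have hE : EE m' (sg (τ i)) = EE m (sg i) := by rw [← hsg, hα]
  refine ⟨?_, hE⟩
  have h1 := congrFun hE 1
  have h2 : ∀ (w : Fin (s + 1) → ℤ) (j : Fin (s + 1)), EE w (sg j) 1 = w j := by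
    intro w j
    unfold EE sg
    have : ∀ t, (if (if t = j then (1 : Fin 3) else 0) = 1 then w t else 0) =
        if t = j then w t else 0 := by
      intro t; split_ifs <;> first | rfl | simp_all
    rw [Finset.sum_congr rfl (fun t _ => this t), Finset.sum_ite_eq']
    simp
  rw [h2, h2] at h1
  exact h1

/-! ### weights -/

theorem VV_ne (a b : Fin 3) : VV a b ≠ 0 := by
  fin_cases a <;> fin_cases b <;> simp [VV]

theorem VI_ne (a b : Fin 3) : VI a b ≠ 0 := by
  fin_cases a <;> fin_cases b <;> simp [VI]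

theorem GG_ne (k l : Fin (s + 1) → Fin 3) : GG k l ≠ 0 := by
  unfold GG
  rw [Finset.prod_ne_zero_iff]
  intro i _
  exact mul_ne_zero (VV_ne _ _) (VI_ne _ _)

theorem GG_sg (i j : Fin (s + 1)) : GG (sg i) (sg j) =
    (if i = j then 2 else 1) * (3 ^ (s + 1) * (5 / 6) * (if j + 1 = i then 8 / 5 else 1)) := by
  unfold GG
  rw [Finset.prod_mul_distrib]
  congr 1
  · have h : ∀ t : Fin (s + 1), VV (sg i t) (sg j t) = if t = i then (if i = j then 2 else 1) else 1 := by
      intro t
      unfold sg
      by_cases h1 : t = i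
      · subst h1
        rw [if_pos rfl, if_pos rfl]
        by_cases h2 : t = j
        · rw [if_pos h2, if_pos h2]; simp [VV]
        · rw [if_neg h2, if_neg h2]; simp [VV]
      · rw [if_neg h1, if_neg h1]
        by_cases h2 : t = j
        · rw [if_pos h2]; simp [VV]
        · rw [if_neg h2]; simp [VV]
    rw [Finset.prod_congr rfl (fun t _ => h t), Finset.prod_ite_eq']
    simp
  · have h : ∀ t : Fin (s + 1), VI (sg j t) (sg i (t + 1)) =
        3 * ((if t = j then -(5/6) else 1) * (if t = i - 1 then -1 else 1) *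
          (if t = j then (if j + 1 = i then 8/5 else 1) else 1)) := by
      intro t
      have h0 : (t + 1 = i) ↔ (t = i - 1) := by
        constructor
        · rintro rfl; simp
        · rintro rfl; simp
      unfold sg
      by_cases h1 : t = j
      · subst h1
        by_cases h2 : t + 1 = i
        · have h3 : t = i - 1 := h0.mp h2
          rw [if_pos rfl, if_pos h2, if_pos rfl, if_pos h3, if_pos rfl, if_pos h2]
          simp [VI]; norm_num
        · have h3 : ¬ t = i - 1 := fun h => h2 (h0.mpr h)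
          rw [if_pos rfl, if_neg h2, if_pos rfl, if_neg h3, if_pos rfl, if_neg h2]
          simp [VI]; norm_num
      · by_cases h2 : t + 1 = i
        · have h3 : t = i - 1 := h0.mp h2
          rw [if_neg h1, if_pos h2, if_neg h1, if_pos h3, if_neg h1]
          simp [VI]
        · have h3 : ¬ t = i - 1 := fun h => h2 (h0.mpr h)
          rw [if_neg h1, if_neg h2, if_neg h1, if_neg h3, if_neg h1]
          simp [VI]
    rw [Finset.prod_congr rfl (fun t _ => h t), Finset.prod_mul_distrib, Finset.prod_mul_distrib,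
      Finset.prod_mul_distrib, Finset.prod_ite_eq', Finset.prod_ite_eq', Finset.prod_ite_eq']
    simp only [Finset.mem_univ, if_true, Finset.prod_const, Finset.card_univ, Fintype.card_fin]
    ring

theorem ite_aux (P Q P' Q' : Prop) [Decidable P] [Decidable Q] [Decidable P'] [Decidable Q']
    (h : (if P then (2:ℚ) else 1) * (if Q then 8 / 5 else 1) =
      (if P' then (2:ℚ) else 1) * (if Q' then 8 / 5 else 1)) : (P ↔ P') ∧ (Q ↔ Q') := by
  by_cases a : P <;> by_cases b : Q <;> by_cases c : P' <;>
    by_cases d : Q' <;>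
    first
      | exact ⟨iff_of_true a c, iff_of_true b d⟩
      | exact ⟨iff_of_true a c, iff_of_false b d⟩
      | exact ⟨iff_of_false a c, iff_of_true b d⟩
      | exact ⟨iff_of_false a c, iff_of_false b d⟩
      | (exfalso; revert h; simp only [a, b, c, d, if_true, if_false]; norm_num)

theorem weights_iff {i j i' j' : Fin (s + 1)} (h : GG (sg i) (sg j) = GG (sg i') (sg j')) :
    (i = j ↔ i' = j') ∧ (j + 1 = i ↔ j' + 1 = i') := by
  rw [GG_sg, GG_sg] at h
  have hp : (3:ℚ) ^ (s + 1) * (5/6) ≠ 0 := by positivity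
  apply ite_aux
  apply mul_left_cancel₀ hp
  linear_combination h

/-! ### the theorem -/

theorem rotation_of_match {m n m' n' : Fin (s + 1) → ℤ} {σ τ : Equiv.Perm (Fin (s + 1))}
    (h1 : ∀ i, m' (σ i) = m i) (h2 : ∀ i, n' (τ i) = n i)
    (h3 : ∀ i j, GG (sg (σ i)) (sg (τ j)) = GG (sg i) (sg j)) :
    (List.ofFn (fun i => (m i, n i))) =
      (List.ofFn (fun i => (m' i, n' i))).rotate (σ 0 : Fin (s + 1)).val := by
  have e1 : ∀ i, σ i = τ i := fun i => (weights_iff (h3 i i)).1.mpr rfl
  have e2 : ∀ j, σ (j + 1) = σ j + 1 := by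
    intro j
    have := (weights_iff (h3 (j + 1) j)).2.mpr rfl
    rw [← this, e1 j]
  have e3 : ∀ k : ℕ, ∀ hk : k < s + 1, σ ⟨k, hk⟩ = σ 0 + ⟨k, hk⟩ := by
    intro k
    induction k with
    | zero => intro hk; simp
    | succ k ih =>
      intro hk
      have h4 : (⟨k + 1, hk⟩ : Fin (s + 1)) = ⟨k, by omega⟩ + 1 := by
        ext
        rw [Fin.val_add_one_of_lt]
        rw [Fin.lt_def]
        simp only [Fin.val_last]
        omega
      rw [h4, e2, ih (by omega), add_assoc]
  apply List.ext_getElem
  · simp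
  · intro k hk1 hk2
    rw [List.getElem_rotate, List.getElem_ofFn, List.getElem_ofFn]
    have hk : k < s + 1 := by simpa using hk1
    have h5 := e3 k hk
    rw [← h1, ← h2, ← e1, h5]
    have h6 : (σ 0 + ⟨k, hk⟩ : Fin (s + 1)) =
        ⟨(k + (σ 0 : Fin (s + 1)).val) % (List.ofFn (fun i => (m' i, n' i))).length, by
          simp only [List.length_ofFn]; exact Nat.mod_lt _ (by omega)⟩ := by
      ext
      rw [Fin.val_add]
      simp only [List.length_ofFn]
      rw [add_comm]
    rw [h6]

theorem conj_of_injective {m n m' n' : Fin (s + 1) → ℤ} (hm : Function.Injective (EE m))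
    (hn : Function.Injective (EE n))
    (h : GLTraceEquiv (wl (List.ofFn (fun i => (m i, n i)))) (wl (List.ofFn (fun i => (m' i, n' i))))) :
    IsConj (wl (List.ofFn (fun i => (m i, n i)))) (wl (List.ofFn (fun i => (m' i, n' i)))) := by
  have h1 : ∀ x y : Fin 3 → ℂˣ, (List.ofFn (fun i => fac gv x y (m i, n i))).prod.trace =
      (List.ofFn (fun i => fac gv x y (m' i, n' i))).prod.trace := by
    intro x y
    have h2 := h ![Dg x, gv * Dg y * gv⁻¹]
    rw [lift_wl, lift_wl, List.map_ofFn, List.map_ofFn] at h2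
    exact h2
  have h3 := coeff_eq h1
  rw [← Finset.sum_product', ← Finset.sum_product'] at h3
  have h4 := compare
    (fun ω : (Fin (s + 1) → Fin 3) × (Fin (s + 1) → Fin 3) => (EE m ω.1, EE n ω.2))
    (fun ω => (EE m' ω.1, EE n' ω.2)) (fun ω => algebraMap ℚ ℂ (GG ω.1 ω.2))
    (fun ω => by
      rw [Ne, map_eq_zero]
      exact GG_ne _ _)
    (fun a b hab => by
      simp only [Prod.mk.injEq] at hab
      exact Prod.ext (hm hab.1) (hn hab.2))
    h3
  obtain ⟨hinj, hex⟩ := h4
  have hm' : Function.Injective (EE m') := by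
    intro a b hab
    have := @hinj (a, fun _ => 0) (b, fun _ => 0) (by simp only [hab])
    exact congrArg Prod.fst this
  have hn' : Function.Injective (EE n') := by
    intro a b hab
    have := @hinj (fun _ => 0, a) (fun _ => 0, b) (by simp only [hab])
    exact congrArg Prod.snd this
  obtain ⟨σ, hσ⟩ := match_letters hm hm' (fun k => by
    obtain ⟨ω', h5, _⟩ := hex (k, fun _ => 0)
    exact ⟨ω'.1, congrArg Prod.fst h5⟩)
  obtain ⟨τ, hτ⟩ := match_letters hn hn' (fun k => by
    obtain ⟨ω', h5, _⟩ := hex (fun _ => 0, k)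
    exact ⟨ω'.2, congrArg Prod.snd h5⟩)
  have hG : ∀ i j, GG (sg (σ i)) (sg (τ j)) = GG (sg i) (sg j) := by
    intro i j
    obtain ⟨ω', h5, h6⟩ := hex (sg i, sg j)
    simp only [Prod.mk.injEq] at h5
    have h7 : ω'.1 = sg (σ i) := hm' (by rw [h5.1, (hσ i).2])
    have h8 : ω'.2 = sg (τ j) := hn' (by rw [h5.2, (hτ j).2])
    simp only [h7, h8] at h6
    exact (algebraMap ℚ ℂ).injective h6
  rw [rotation_of_match (fun i => (hσ i).1) (fun i => (hτ i).1) hG]
  exact (wl_rotate _ _).symm

/-- all subset sums are different -/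
def Dissoc {r : ℕ} (m : Fin r → ℤ) : Prop :=
  ∀ I J : Finset (Fin r), ∑ i ∈ I, m i = ∑ i ∈ J, m i → I = J

theorem EE_injective_of_dissoc {m : Fin (s + 1) → ℤ} (h : Dissoc m) :
    Function.Injective (EE m) := by
  intro k k' hk
  funext i
  have h1 := congrFun hk (k i)
  unfold EE at h1
  rw [← Finset.sum_filter, ← Finset.sum_filter] at h1
  have h2 := h _ _ h1
  have h3 : i ∈ Finset.univ.filter (fun j => k j = k i) := by simp
  rw [h2, Finset.mem_filter] at h3
  exact h3.2.symm

theorem dissoc_ne_zero {r : ℕ} {m : Fin r → ℤ} (h : Dissoc m) (i : Fin r) : m i ≠ 0 := by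
  intro h0
  have := h {i} ∅ (by simp [h0])
  exact absurd this (Finset.singleton_ne_empty i)

theorem determined_dissoc {r : ℕ} (m n : Fin r → ℤ) (hr : 0 < r) (hm : Dissoc m) (hn : Dissoc n)
    (v : FreeGroup (Fin 2))
    (hv : SLTraceEquiv (wl (List.ofFn (fun i => (m i, n i)))) v) :
    IsConj (wl (List.ofFn (fun i => (m i, n i)))) v := by
  obtain ⟨s, rfl⟩ : ∃ s, r = s + 1 := ⟨r - 1, by omega⟩
  obtain ⟨L', hne, hconj, hnz⟩ := exists_normal v
  have hgl := gl_conj (sl_to_gl hv) hconj
  have hgl' : GLTraceEquiv (wl L') (wl (List.ofFn (fun i => (m i, n i)))) := fun g => (hgl g).symm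
  have hLnz : ∀ q ∈ List.ofFn (fun i => (m i, n i)), q.1 ≠ 0 ∧ q.2 ≠ 0 := by
    intro q hq
    rw [List.mem_ofFn] at hq
    obtain ⟨i, rfl⟩ := hq
    exact ⟨dissoc_ne_zero hm i, dissoc_ne_zero hn i⟩
  have hle1 := length_le hgl' (by simp) hLnz
  have hle2 : L'.length ≤ s + 1 := by
    rcases Nat.lt_or_ge L'.length 2 with h | h
    · omega
    · have := length_le hgl hne (hnz h)
      simpa using this
  have hlen : L'.length = s + 1 := by
    rw [List.length_ofFn] at hle1
    omega
  have hL' : L' = List.ofFn (fun i : Fin (s + 1) =>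
      ((L'[i.val]'(by omega)).1, (L'[i.val]'(by omega)).2)) := by
    apply List.ext_getElem
    · simp [hlen]
    · intro k h1 h2
      rw [List.getElem_ofFn]
  rw [hL'] at hgl hconj
  exact (conj_of_injective (EE_injective_of_dissoc hm) (EE_injective_of_dissoc hn) hgl).trans
    hconj.symm

end Pool.Agent.Helper426.TW
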