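import Mathlib
import Pool.Agent.Helper426.TW.Dissoc

set_option autoImplicit false

namespace Pool.Agent.Helper426.TW

open Finset Filter Topology

/-- exponent vectors with entries in `[-N, N]` -/
noncomputable def Bx (r N : ℕ) : Finset (Fin r → ℤ) :=
  Fintype.piFinset (fun _ : Fin r => Finset.Icc (-(N : ℤ)) N)

theorem card_Icc' (N : ℕ) : (Finset.Icc (-(N : ℤ)) N).card = 2 * N + 1 := by
  rw [Int.card_Icc]; omega

theorem card_Bx (r N : ℕ) : (Bx r N).card = (2 * N + 1) ^ r := by
  unfold Bx
  rw [Fintype.card_piFinset]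
  simp only [card_Icc', Finset.prod_const, Finset.card_univ, Fintype.card_fin]

theorem card_rel (r N : ℕ) (I J : Finset (Fin r)) (hIJ : I ≠ J) :
    ((Bx r N).filter (fun m => ∑ i ∈ I, m i = ∑ i ∈ J, m i)).card ≤ (2 * N + 1) ^ (r - 1) := by
  classical
  obtain ⟨i, hi⟩ : ∃ i, ¬ (i ∈ I ↔ i ∈ J) := by
    by_contra hcon
    push Not at hcon
    exact hIJ (Finset.ext hcon)
  have hcard : (Fintype.piFinset (fun j : Fin r => if j = i then ({0} : Finset ℤ) else
      Finset.Icc (-(N : ℤ)) N)).card = (2 * N + 1) ^ (r - 1) := by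
    rw [Fintype.card_piFinset]
    have : ∀ j : Fin r, (if j = i then ({0} : Finset ℤ) else Finset.Icc (-(N : ℤ)) N).card =
        if j = i then 1 else 2 * N + 1 := by
      intro j; split_ifs
      · simp
      · exact card_Icc' N
    rw [Finset.prod_congr rfl (fun j _ => this j), Finset.prod_ite]
    simp only [Finset.prod_const_one, one_mul, Finset.prod_const]
    congr 1
    rw [Finset.filter_ne' Finset.univ i, Finset.card_erase_of_mem (Finset.mem_univ i),
      Finset.card_univ, Fintype.card_fin]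
  rw [← hcard]
  apply Finset.card_le_card_of_injOn (fun m => Function.update m i 0)
  · intro m hm
    rw [Finset.mem_coe, Finset.mem_filter, Bx, Fintype.mem_piFinset] at hm
    rw [Finset.mem_coe, Fintype.mem_piFinset]
    intro j
    by_cases hj : j = i
    · subst hj; simp
    · rw [if_neg hj]
      simp only [Function.update_of_ne hj]
      exact hm.1 j
  · intro m hm m' hm' heq
    rw [Finset.mem_coe, Finset.mem_filter] at hm hm'
    have hoff : ∀ j, j ≠ i → m j = m' j := by
      intro j hj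
      have := congrFun heq j
      simpa [Function.update_of_ne hj] using this
    have hsum : ∀ S : Finset (Fin r), ∑ j ∈ S, m j - ∑ j ∈ S, m' j =
        if i ∈ S then m i - m' i else 0 := by
      intro S
      rw [← Finset.sum_sub_distrib]
      split_ifs with hS
      · rw [Finset.sum_eq_single_of_mem i hS]
        intro j _ hj
        rw [hoff j hj, sub_self]
      · apply Finset.sum_eq_zero
        intro j hj
        rw [hoff j (fun h => hS (h ▸ hj)), sub_self]
    have h1 := hsum I
    have h2 := hsum J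
    rw [hm.2, hm'.2] at h1
    have h3 : m i = m' i := by
      by_cases a : i ∈ I <;> by_cases b : i ∈ J
      · exact absurd (iff_of_true a b) hi
      · rw [if_pos a] at h1; rw [if_neg b] at h2; omega
      · rw [if_neg a] at h1; rw [if_pos b] at h2; omega
      · exact absurd (iff_of_false a b) hi
    funext j
    by_cases hj : j = i
    · rw [hj]; exact h3
    · exact hoff j hj

open Classical in
theorem card_not_dissoc (r N : ℕ) :
    ((Bx r N).filter (fun m => ¬ Dissoc m)).card ≤ 4 ^ r * (2 * N + 1) ^ (r - 1) := by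
  have hsub : (Bx r N).filter (fun m => ¬ Dissoc m) ⊆
      ((Finset.univ : Finset (Finset (Fin r) × Finset (Fin r))).filter (fun p => p.1 ≠ p.2)).biUnion
        (fun p => (Bx r N).filter (fun m => ∑ i ∈ p.1, m i = ∑ i ∈ p.2, m i)) := by
    intro m hm
    rw [Finset.mem_filter] at hm
    obtain ⟨h1, h2⟩ := hm
    unfold Dissoc at h2
    push Not at h2
    obtain ⟨I, J, h3, h4⟩ := h2
    rw [Finset.mem_biUnion]
    exact ⟨(I, J), Finset.mem_filter.mpr ⟨Finset.mem_univ _, h4⟩,
      Finset.mem_filter.mpr ⟨h1, h3⟩⟩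
  calc _ ≤ _ := Finset.card_le_card hsub
    _ ≤ ∑ p ∈ (Finset.univ : Finset (Finset (Fin r) × Finset (Fin r))).filter
        (fun p => p.1 ≠ p.2), ((Bx r N).filter (fun m => ∑ i ∈ p.1, m i = ∑ i ∈ p.2, m i)).card :=
        Finset.card_biUnion_le
    _ ≤ ∑ p ∈ (Finset.univ : Finset (Finset (Fin r) × Finset (Fin r))).filter
        (fun p => p.1 ≠ p.2), (2 * N + 1) ^ (r - 1) := by
        apply Finset.sum_le_sum
        intro p hp
        rw [Finset.mem_filter] at hp
        exact card_rel r N p.1 p.2 hp.2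
    _ ≤ 4 ^ r * (2 * N + 1) ^ (r - 1) := by
        rw [Finset.sum_const, smul_eq_mul]
        apply Nat.mul_le_mul_right
        calc _ ≤ (Finset.univ : Finset (Finset (Fin r) × Finset (Fin r))).card :=
              Finset.card_filter_le _ _
          _ = 4 ^ r := by
              rw [Finset.card_univ, Fintype.card_prod, Fintype.card_finset, Fintype.card_fin,
                ← mul_pow]
              norm_num

open Classical in
/-- If all dissociated pairs satisfy `P`, then almost all pairs satisfy `P`. -/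
theorem tendsto_of_dissoc (r : ℕ) (hr : 0 < r) (P : (Fin r → ℤ) × (Fin r → ℤ) → Prop)
    (hP : ∀ z, Dissoc z.1 → Dissoc z.2 → P z) :
    Tendsto (fun N : ℕ => (((Bx r N ×ˢ Bx r N).filter P).card : ℝ) / ((2 * N + 1) ^ (2 * r) : ℝ))
      atTop (𝓝 1) := by
  have hbound : ∀ N : ℕ, 1 - 2 * 4 ^ r / (2 * (N : ℝ) + 1) ≤
      (((Bx r N ×ˢ Bx r N).filter P).card : ℝ) / ((2 * N + 1) ^ (2 * r) : ℝ) := by
    intro N
    have hpos : (0:ℝ) < 2 * N + 1 := by positivity
    have h1 : ((Bx r N ×ˢ Bx r N).filter (fun z => ¬ P z)) ⊆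
        (((Bx r N).filter (fun m => ¬ Dissoc m)) ×ˢ Bx r N) ∪
        (Bx r N ×ˢ ((Bx r N).filter (fun m => ¬ Dissoc m))) := by
      intro z hz
      rw [Finset.mem_filter, Finset.mem_product] at hz
      rw [Finset.mem_union, Finset.mem_product, Finset.mem_product, Finset.mem_filter,
        Finset.mem_filter]
      by_cases a : Dissoc z.1
      · by_cases b : Dissoc z.2
        · exact absurd (hP z a b) hz.2
        · exact Or.inr ⟨hz.1.1, hz.1.2, b⟩
      · exact Or.inl ⟨⟨hz.1.1, a⟩, hz.1.2⟩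
    have h2 : ((Bx r N ×ˢ Bx r N).filter (fun z => ¬ P z)).card ≤
        2 * (4 ^ r * (2 * N + 1) ^ (r - 1) * (2 * N + 1) ^ r) := by
      calc _ ≤ _ := Finset.card_le_card h1
        _ ≤ _ := Finset.card_union_le _ _
        _ ≤ _ := by
            rw [Finset.card_product, Finset.card_product, card_Bx]
            have e1 := Nat.mul_le_mul_right ((2 * N + 1) ^ r) (card_not_dissoc r N)
            have e2 : (2 * N + 1) ^ r * ((Bx r N).filter (fun m => ¬ Dissoc m)).card =
              ((Bx r N).filter (fun m => ¬ Dissoc m)).card * (2 * N + 1) ^ r := mul_comm _ _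
            rw [e2]
            omega
    have h3 : ((Bx r N ×ˢ Bx r N).filter P).card +
        ((Bx r N ×ˢ Bx r N).filter (fun z => ¬ P z)).card = (2 * N + 1) ^ (2 * r) := by
      rw [Finset.card_filter_add_card_filter_not, Finset.card_product, card_Bx, ← pow_add,
        two_mul r]
    have h4 : (((Bx r N ×ˢ Bx r N).filter P).card : ℝ) =
        (2 * (N:ℝ) + 1) ^ (2 * r) - ((Bx r N ×ˢ Bx r N).filter (fun z => ¬ P z)).card := by
      have : ((((Bx r N ×ˢ Bx r N).filter P).card : ℕ) : ℝ) +
        ((Bx r N ×ˢ Bx r N).filter (fun z => ¬ P z)).card = (2 * (N:ℝ) + 1) ^ (2 * r) := by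
        exact_mod_cast h3
      linarith
    have h5 : (((Bx r N ×ˢ Bx r N).filter (fun z => ¬ P z)).card : ℝ) ≤
        2 * (4 ^ r * (2 * (N:ℝ) + 1) ^ (r - 1) * (2 * N + 1) ^ r) := by exact_mod_cast h2
    rw [le_div_iff₀ (by positivity), h4]
    have h6 : 2 * 4 ^ r / (2 * (N : ℝ) + 1) * (2 * N + 1) ^ (2 * r) =
        2 * (4 ^ r * (2 * (N:ℝ) + 1) ^ (r - 1) * (2 * N + 1) ^ r) := by
      obtain ⟨t, rfl⟩ : ∃ t, r = t + 1 := ⟨r - 1, by omega⟩
      rw [Nat.add_sub_cancel]
      field_simp
      ring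
    rw [sub_mul, one_mul, h6]
    linarith
  have hup : ∀ N : ℕ, (((Bx r N ×ˢ Bx r N).filter P).card : ℝ) / ((2 * N + 1) ^ (2 * r) : ℝ) ≤ 1 := by
    intro N
    rw [div_le_one (by positivity)]
    have : ((Bx r N ×ˢ Bx r N).filter P).card ≤ (2 * N + 1) ^ (2 * r) := by
      calc _ ≤ (Bx r N ×ˢ Bx r N).card := Finset.card_filter_le _ _
        _ = _ := by rw [Finset.card_product, card_Bx, ← pow_add, two_mul r]
    exact_mod_cast this
  have hl : Tendsto (fun N : ℕ => 1 - 2 * 4 ^ r / (2 * (N : ℝ) + 1)) atTop (𝓝 1) := by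
    have h1 : Tendsto (fun N : ℕ => 2 * (N : ℝ) + 1) atTop atTop :=
      tendsto_atTop_add_const_right _ _ (tendsto_natCast_atTop_atTop.const_mul_atTop (by norm_num))
    have h2 : Tendsto (fun N : ℕ => (2 * 4 ^ r : ℝ) / (2 * (N : ℝ) + 1)) atTop (𝓝 0) :=
      tendsto_const_nhds.div_atTop h1
    simpa using (tendsto_const_nhds (x := (1:ℝ))).sub h2
  exact tendsto_of_tendsto_of_tendsto_of_le_of_le hl tendsto_const_nhds hbound hup

/-- automorphic images -/
theorem conj_auto {u : FreeGroup (Fin 2)} (h : ∀ v, SLTraceEquiv u v → IsConj u v)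
    (φ : FreeGroup (Fin 2) ≃* FreeGroup (Fin 2)) (v : FreeGroup (Fin 2))
    (hv : SLTraceEquiv (φ u) v) : IsConj (φ u) v := by
  have h1 : SLTraceEquiv u (φ.symm v) := by
    intro A B
    have key : ∀ x : FreeGroup (Fin 2), FreeGroup.lift ![A, B] (φ.symm x) =
        FreeGroup.lift ![FreeGroup.lift ![A, B] (φ.symm (FreeGroup.of 0)),
          FreeGroup.lift ![A, B] (φ.symm (FreeGroup.of 1))] x := by
      intro x
      have : (FreeGroup.lift ![A, B]).comp (φ.symm : FreeGroup (Fin 2) →* FreeGroup (Fin 2)) =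
          FreeGroup.lift ![FreeGroup.lift ![A, B] (φ.symm (FreeGroup.of 0)),
          FreeGroup.lift ![A, B] (φ.symm (FreeGroup.of 1))] := by
        apply FreeGroup.ext_hom
        intro i
        fin_cases i <;> simp
      exact DFunLike.congr_fun this x
    have h2 := hv (FreeGroup.lift ![A, B] (φ.symm (FreeGroup.of 0)))
      (FreeGroup.lift ![A, B] (φ.symm (FreeGroup.of 1)))
    rw [← key, ← key, MulEquiv.symm_apply_apply] at h2
    exact h2
  have h3 := h _ h1
  obtain ⟨c, hc⟩ := isConj_iff.mp h3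
  refine isConj_iff.mpr ⟨φ c, ?_⟩
  rw [← map_inv, ← map_mul, ← map_mul, hc, MulEquiv.apply_symm_apply]

end Pool.Agent.Helper426.TW
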