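import Mathlib
import Pool.Agent.Helper426.TW.Level

set_option autoImplicit false

namespace Pool.Agent.Helper426.TW

open Finset

/-- the finset of words of length `n` -/
def Wd (n : ℕ) : Finset (List (Fin 2)) :=
  (Finset.univ : Finset (Fin n → Fin 2)).map ⟨List.ofFn, List.ofFn_injective⟩

theorem mem_Wd {n : ℕ} {l : List (Fin 2)} : l ∈ Wd n ↔ l.length = n := by
  unfold Wd
  rw [Finset.mem_map]
  constructor
  · rintro ⟨f, _, rfl⟩
    simp
  · rintro rfl
    exact ⟨l.get, Finset.mem_univ _, List.ofFn_get l⟩

theorem card_Wd (n : ℕ) : (Wd n).card = 2 ^ n := by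
  unfold Wd
  rw [Finset.card_map, Finset.card_univ, Fintype.card_fun]
  simp

/-- words of length `n` with `q` letters `b` -/
def Tq (n q : ℕ) : Finset (List (Fin 2)) := (Wd n).filter (fun l => l.count 1 = q)

theorem mem_Tq {n q : ℕ} {l : List (Fin 2)} : l ∈ Tq n q ↔ l.length = n ∧ l.count 1 = q := by
  unfold Tq
  rw [Finset.mem_filter, mem_Wd]

theorem card_Tq (n q : ℕ) : (Tq n q).card = n.choose q := by
  induction n generalizing q with
  | zero =>
    cases q with
    | zero =>
      have : Tq 0 0 = {[]} := by
        ext l; rw [mem_Tq, Finset.mem_singleton]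
        constructor
        · rintro ⟨h, _⟩; exact List.length_eq_zero_iff.mp h
        · rintro rfl; simp
      rw [this]; simp
    | succ q =>
      have : Tq 0 (q + 1) = ∅ := by
        ext l; rw [mem_Tq]
        constructor
        · rintro ⟨h, h2⟩
          rw [List.length_eq_zero_iff.mp h] at h2
          simp at h2
        · intro h; exact absurd h (Finset.notMem_empty _)
      rw [this]; simp
  | succ n ih =>
    cases q with
    | zero =>
      have : Tq (n + 1) 0 = (Tq n 0).map ⟨List.cons 0, List.cons_injective⟩ := by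
        ext l
        rw [mem_Tq, Finset.mem_map]
        constructor
        · rintro ⟨h1, h2⟩
          cases l with
          | nil => simp at h1
          | cons c l =>
            have hc : c = 0 := by
              by_contra hne
              have : c = 1 := by omega
              rw [this] at h2; simp at h2
            subst hc
            refine ⟨l, mem_Tq.mpr ⟨by simpa using h1, by simpa using h2⟩, rfl⟩
        · rintro ⟨l', h, rfl⟩
          have := mem_Tq.mp h
          simp [this.1, this.2]
      rw [this, Finset.card_map, ih]; simp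
    | succ q =>
      have : Tq (n + 1) (q + 1) = (Tq n (q + 1)).map ⟨List.cons 0, List.cons_injective⟩ ∪
          (Tq n q).map ⟨List.cons 1, List.cons_injective⟩ := by
        ext l
        rw [mem_Tq, Finset.mem_union, Finset.mem_map, Finset.mem_map]
        constructor
        · rintro ⟨h1, h2⟩
          cases l with
          | nil => simp at h1
          | cons c l =>
            fin_cases c
            · left
              refine ⟨l, mem_Tq.mpr ⟨by simpa using h1, by simpa using h2⟩, rfl⟩
            · right
              refine ⟨l, mem_Tq.mpr ⟨by simpa using h1, by simpa using h2⟩, rfl⟩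
        · rintro (⟨l', h, rfl⟩ | ⟨l', h, rfl⟩)
          · have := mem_Tq.mp h
            simp [this.1, this.2]
          · have := mem_Tq.mp h
            simp [this.1, this.2]
      rw [this, Finset.card_union_of_disjoint, Finset.card_map, Finset.card_map, ih, ih,
        Nat.choose_succ_succ, add_comm]
      rw [Finset.disjoint_left]
      intro l h1 h2
      rw [Finset.mem_map] at h1 h2
      obtain ⟨a, _, rfl⟩ := h1
      obtain ⟨b, _, hb⟩ := h2
      have := List.head_eq_of_cons_eq hb
      exact absurd this (by decide)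

/-! ### the linear level -/

def lam (n q : ℕ) (l : List (Fin 2)) : ℤ := (q : ℤ) * l.length - (n : ℤ) * l.count 1

theorem lam_append (n q : ℕ) (l l' : List (Fin 2)) :
    lam n q (l ++ l') = lam n q l + lam n q l' := by
  unfold lam
  rw [List.count_append, List.length_append]
  push_cast
  ring

theorem lam_nil (n q : ℕ) : lam n q [] = 0 := by simp [lam]

theorem lev_eq_lam {n q : ℕ} {u : List (Fin 2)} (h1 : u.length = n) (h2 : u.count 1 = q)
    (l : List (Fin 2)) : lev (u.count 0) (u.count 1) l = lam n q l := by
  unfold lev lam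
  have e1 := count_add u
  have e2 := count_add l
  have e3 : (n : ℤ) = u.count 0 + u.count 1 := by rw [← h1, ← e1]; push_cast; ring
  have e4 : (l.length : ℤ) = l.count 0 + l.count 1 := by rw [← e2]; push_cast; ring
  rw [e3, e4, ← h2]
  ring

def WA (n q : ℕ) (w : List (Fin 2)) : Prop := ∀ P S : List (Fin 2), w = P ++ S → 0 ≤ lam n q P

theorem exists_split {n q : ℕ} {u : List (Fin 2)} (h1 : u.length = n) (h2 : u.count 1 = q)
    (hn : 0 < n) (hbad : ¬ UniqueMin u) :
    ∃ i < n, ∃ w1 w2 : List (Fin 2), u.rotate i = w1 ++ w2 ∧ w1 ≠ [] ∧ w2 ≠ [] ∧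
      lam n q w1 = 0 ∧ lam n q w2 = 0 ∧ WA n q w1 ∧ WA n q w2 := by
  have hu0 : lam n q u = 0 := by unfold lam; rw [h1, h2]; ring
  obtain ⟨t, ht, hmin⟩ := Finset.exists_min_image (range u.length)
    (fun k => lam n q (u.take k)) ⟨0, Finset.mem_range.mpr (by omega)⟩
  rw [Finset.mem_range] at ht
  have hmin1 : ∀ k ≤ u.length, lam n q (u.take t) ≤ lam n q (u.take k) := by
    intro k hk
    rcases Nat.lt_or_ge k u.length with h | h
    · exact hmin k (Finset.mem_range.mpr h)
    · have : k = u.length := by omega
      rw [this, List.take_length, hu0]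
      have := hmin 0 (Finset.mem_range.mpr (by omega))
      simpa [lam_nil] using this
  obtain ⟨i, j, hij, hj, hi1, hj1⟩ : ∃ i j, i < j ∧ j < u.length ∧
      lam n q (u.take i) = lam n q (u.take t) ∧ lam n q (u.take j) = lam n q (u.take t) := by
    unfold UniqueMin at hbad
    push Not at hbad
    obtain ⟨t', ht', hne, hle⟩ := hbad t ht
    rw [lev_eq_lam h1 h2, lev_eq_lam h1 h2] at hle
    have heq : lam n q (u.take t') = lam n q (u.take t) :=
      le_antisymm hle (hmin t' (Finset.mem_range.mpr ht'))
    rcases lt_or_gt_of_ne hne with h | h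
    · exact ⟨t', t, h, ht, heq, rfl⟩
    · exact ⟨t, t', h, ht', rfl, heq⟩
  have hmin2 : ∀ P S : List (Fin 2), u = P ++ S → lam n q (u.take t) ≤ lam n q P := by
    intro P S h
    have h3 := hmin1 P.length (by rw [h, List.length_append]; omega)
    have h4 : u.take P.length = P := by rw [h, List.take_left]
    rwa [h4] at h3
  have htj : u.take j = u.take i ++ (u.take j).drop i := by
    conv_lhs => rw [← List.take_append_drop i (u.take j)]
    rw [List.take_take, min_eq_left hij.le]
  have hdi : u.drop i = (u.take j).drop i ++ u.drop j := by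
    have : u = u.take i ++ ((u.take j).drop i ++ u.drop j) := by
      rw [← List.append_assoc, ← htj, List.take_append_drop]
    conv_lhs => rw [this]
    rw [List.drop_append_of_le_length (by rw [List.length_take]; omega)]
    rw [List.drop_of_length_le (by rw [List.length_take]; omega), List.nil_append]
  have hsplit_j : lam n q (u.take j) + lam n q (u.drop j) = 0 := by
    rw [← lam_append, List.take_append_drop]; exact hu0
  refine ⟨i, by omega, (u.take j).drop i, u.drop j ++ u.take i, ?_, ?_, ?_, ?_, ?_, ?_, ?_⟩
  · rw [List.rotate_eq_drop_append_take (by omega), hdi, List.append_assoc]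
  · intro h
    have := congrArg List.length h
    rw [List.length_drop, List.length_take, List.length_nil] at this
    omega
  · intro h
    have := congrArg List.length h
    rw [List.length_append, List.length_drop, List.length_nil] at this
    omega
  · have := lam_append n q (u.take i) ((u.take j).drop i)
    rw [← htj] at this
    omega
  · rw [lam_append]
    omega
  · intro P S h
    have h3 : u = (u.take i ++ P) ++ (S ++ u.drop j) := by
      calc u = u.take j ++ u.drop j := (List.take_append_drop j u).symm
        _ = (u.take i ++ (u.take j).drop i) ++ u.drop j := by rw [← htj]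
        _ = _ := by rw [h]; simp
    have h4 := hmin2 _ _ h3
    rw [lam_append] at h4
    omega
  · intro P S h
    rcases List.append_eq_append_iff.mp h with ⟨a', e1, e2⟩ | ⟨c', e1, e2⟩
    · have h3 : u = a' ++ (S ++ u.drop i) := by
        rw [← List.append_assoc, ← e2, List.take_append_drop]
      have h4 := hmin2 _ _ h3
      rw [e1, lam_append]
      omega
    · have h3 : u = (u.take j ++ P) ++ c' := by
        rw [List.append_assoc, ← e1, List.take_append_drop]
      have h4 := hmin2 _ _ h3
      rw [lam_append] at h4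
      omega

theorem dvd_aux {n q k : ℕ} (hn : 0 < n) (h : n ∣ q * k) : n / Nat.gcd n q ∣ k := by
  have hg : 0 < Nat.gcd n q := Nat.gcd_pos_of_pos_left q hn
  have hco : Nat.Coprime (n / Nat.gcd n q) (q / Nat.gcd n q) :=
    Nat.coprime_div_gcd_div_gcd hg
  apply hco.dvd_of_dvd_mul_left
  have h1 : Nat.gcd n q * (n / Nat.gcd n q) = n := Nat.mul_div_cancel' (Nat.gcd_dvd_left n q)
  have h2 : Nat.gcd n q * (q / Nat.gcd n q) = q := Nat.mul_div_cancel' (Nat.gcd_dvd_right n q)
  apply Nat.dvd_of_mul_dvd_mul_left hg
  rw [h1, ← mul_assoc, h2]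
  exact h

theorem dvd_aux_int {n q : ℕ} {k : ℤ} (hn : 0 < n) (h : (n : ℤ) ∣ (q : ℤ) * k) :
    ((n / Nat.gcd n q : ℕ) : ℤ) ∣ k := by
  rw [← Int.dvd_natAbs] at h ⊢
  rw [Int.natAbs_mul, Int.natAbs_natCast] at h
  have h1 : n ∣ q * k.natAbs := by exact_mod_cast h
  exact_mod_cast dvd_aux hn h1

theorem rot_bound {n q : ℕ} {w : List (Fin 2)} {r : ℕ} (hr : r ≤ w.length)
    (h0 : lam n q w = 0) (hw : WA n q w) (P S : List (Fin 2)) (h : w.rotate r = P ++ S) :
    - lam n q (w.take r) ≤ lam n q P := by
  have hs : lam n q (w.take r) + lam n q (w.drop r) = 0 := by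
    rw [← lam_append, List.take_append_drop]; exact h0
  rw [List.rotate_eq_drop_append_take hr] at h
  rcases List.append_eq_append_iff.mp h with ⟨a', e1, e2⟩ | ⟨c', e1, e2⟩
  · have h3 : w = a' ++ (S ++ w.drop r) := by
      rw [← List.append_assoc, ← e2, List.take_append_drop]
    have h4 := hw _ _ h3
    rw [e1, lam_append]
    omega
  · have h3 : w = (w.take r ++ P) ++ c' := by
      rw [List.append_assoc, ← e1, List.take_append_drop]
    have h4 := hw _ _ h3
    rw [lam_append] at h4
    omega

theorem rot_inj {n q : ℕ} (hn : 0 < n) {w w' : List (Fin 2)} {r r' : ℕ} 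
    (h0 : lam n q w = 0) (hw : WA n q w) (h0' : lam n q w' = 0) (hw' : WA n q w')
    (hr : r ≤ w.length) (hr' : r' ≤ w'.length)
    (hrn : r < n / Nat.gcd n q) (hrn' : r' < n / Nat.gcd n q)
    (h : w.rotate r = w'.rotate r') : r = r' ∧ w = w' := by
  have hs : lam n q (w.take r) + lam n q (w.drop r) = 0 := by
    rw [← lam_append, List.take_append_drop]; exact h0
  have hs' : lam n q (w'.take r') + lam n q (w'.drop r') = 0 := by
    rw [← lam_append, List.take_append_drop]; exact h0'
  have h1 := rot_bound hr h0 hw (w'.drop r') (w'.take r')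
    (by rw [h, List.rotate_eq_drop_append_take hr'])
  have h2 := rot_bound hr' h0' hw' (w.drop r) (w.take r)
    (by rw [← h, List.rotate_eq_drop_append_take hr])
  have h3 : lam n q (w.take r) = lam n q (w'.take r') := by omega
  unfold lam at h3
  rw [List.length_take, List.length_take, min_eq_left hr, min_eq_left hr'] at h3
  have h4 : (n : ℤ) ∣ (q : ℤ) * ((r : ℤ) - r') :=
    ⟨(w.take r).count 1 - (w'.take r').count 1, by linarith⟩
  have h5 := dvd_aux_int hn h4
  have h6 : (r : ℤ) - r' = 0 := by
    apply Int.eq_zero_of_abs_lt_dvd h5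
    rw [abs_lt]
    constructor <;> omega
  have h7 : r = r' := by omega
  subst h7
  exact ⟨rfl, List.rotate_injective r h⟩

open Classical in
/-- pairs of weakly-above words -/
noncomputable def Zs (n q : ℕ) : Finset (List (Fin 2) × List (Fin 2)) :=
  (((range (n + 1)).biUnion Wd) ×ˢ ((range (n + 1)).biUnion Wd)).filter (fun w =>
    w.1 ≠ [] ∧ w.2 ≠ [] ∧ w.1.length + w.2.length = n ∧ w.1.count 1 + w.2.count 1 = q ∧
    lam n q w.1 = 0 ∧ lam n q w.2 = 0 ∧ WA n q w.1 ∧ WA n q w.2)

theorem mem_Zs {n q : ℕ} {w : List (Fin 2) × List (Fin 2)} : w ∈ Zs n q ↔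
    (w.1 ≠ [] ∧ w.2 ≠ [] ∧ w.1.length + w.2.length = n ∧ w.1.count 1 + w.2.count 1 = q ∧
    lam n q w.1 = 0 ∧ lam n q w.2 = 0 ∧ WA n q w.1 ∧ WA n q w.2) := by
  classical
  unfold Zs
  rw [Finset.mem_filter, Finset.mem_product, Finset.mem_biUnion, Finset.mem_biUnion]
  constructor
  · exact fun h => h.2
  · intro h
    refine ⟨⟨⟨w.1.length, Finset.mem_range.mpr (by omega), mem_Wd.mpr rfl⟩,
      ⟨w.2.length, Finset.mem_range.mpr (by omega), mem_Wd.mpr rfl⟩⟩, h⟩

theorem card_Zs_le (n q : ℕ) (hn : 0 < n) :
    (n / Nat.gcd n q) * ((n / Nat.gcd n q) * (Zs n q).card) ≤ Nat.gcd n q * (Tq n q).card := by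
  classical
  set n' := n / Nat.gcd n q with hn'
  have hg : Nat.gcd n q * n' = n := Nat.mul_div_cancel' (Nat.gcd_dvd_left n q)
  have hgpos : 0 < Nat.gcd n q := Nat.gcd_pos_of_pos_left q hn
  have hn'pos : 0 < n' := Nat.pos_of_ne_zero (by rintro h; rw [h] at hg; omega)
  have hcard : (range n' ×ˢ (range n' ×ˢ Zs n q)).card ≤
      (range (Nat.gcd n q) ×ˢ Tq n q).card := by
    apply Finset.card_le_card_of_injOn
      (fun x => (x.2.2.1.length / n', x.2.2.1.rotate x.1 ++ x.2.2.2.rotate x.2.1))
    · rintro ⟨r, s, w1, w2⟩ hx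
      rw [Finset.mem_coe, Finset.mem_product, Finset.mem_product, mem_Zs] at hx
      obtain ⟨h1, h2, h3, h4, h5, h6, h7, h8, h9, h10⟩ := hx
      simp only at h1 h2 h3 h4 h5 h6 h7 h8 h9 h10
      rw [Finset.mem_coe, Finset.mem_product]
      constructor
      · rw [Finset.mem_range]
        simp only
        rw [Nat.div_lt_iff_lt_mul hn'pos, hg]
        have : 0 < w2.length := List.length_pos_iff.mpr h4
        omega
      · rw [mem_Tq]
        simp only
        constructor
        · rw [List.length_append, List.length_rotate, List.length_rotate]; exact h5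
        · rw [List.count_append, (List.rotate_perm w1 r).count_eq,
            (List.rotate_perm w2 s).count_eq]; exact h6
    · rintro ⟨r, s, w1, w2⟩ hx ⟨r', s', w1', w2'⟩ hx' heq
      rw [Finset.mem_coe, Finset.mem_product, Finset.mem_product, mem_Zs] at hx hx'
      obtain ⟨h1, h2, h3, h4, h5, h6, h7, h8, h9, h10⟩ := hx
      obtain ⟨h1', h2', h3', h4', h5', h6', h7', h8', h9', h10'⟩ := hx'
      simp only at h1 h2 h3 h4 h5 h6 h7 h8 h9 h10 h1' h2' h3' h4' h5' h6' h7' h8' h9' h10'
      simp only [Prod.mk.injEq] at heq
      rw [Finset.mem_range] at h1 h2 h1' h2'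
      have hdvd : ∀ w : List (Fin 2), lam n q w = 0 → n' ∣ w.length := by
        intro w hw
        apply dvd_aux hn
        unfold lam at hw
        have : (n : ℤ) ∣ (q : ℤ) * w.length := ⟨w.count 1, by linarith⟩
        exact_mod_cast this
      have d1 := hdvd _ h7
      have d2 := hdvd _ h8
      have d1' := hdvd _ h7'
      have d2' := hdvd _ h8'
      have l1 : 0 < w1.length := List.length_pos_iff.mpr h3
      have l2 : 0 < w2.length := List.length_pos_iff.mpr h4
      have l1' : 0 < w1'.length := List.length_pos_iff.mpr h3'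
      have l2' : 0 < w2'.length := List.length_pos_iff.mpr h4'
      have hlen : w1.length = w1'.length := by
        rw [← Nat.div_mul_cancel d1, ← Nat.div_mul_cancel d1', heq.1]
      have happ := List.append_inj heq.2 (by
        rw [List.length_rotate, List.length_rotate]; exact hlen)
      have e1 := rot_inj hn h7 h9 h7' h9' (by have := Nat.le_of_dvd l1 d1; omega)
        (by have := Nat.le_of_dvd l1' d1'; omega) h1 h1' happ.1
      have e2 := rot_inj hn h8 h10 h8' h10' (by have := Nat.le_of_dvd l2 d2; omega)
        (by have := Nat.le_of_dvd l2' d2'; omega) h2 h2' happ.2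
      rw [e1.1, e1.2, e2.1, e2.2]
  rw [Finset.card_product, Finset.card_product, Finset.card_product, Finset.card_range,
    Finset.card_range] at hcard
  exact hcard

open Classical in
theorem card_bad_le (n q : ℕ) (hn : 0 < n) :
    ((Tq n q).filter (fun u => ¬ UniqueMin u)).card ≤ n * (Zs n q).card := by
  have : ((Tq n q).filter (fun u => ¬ UniqueMin u)) ⊆
      (range n ×ˢ Zs n q).image (fun x => (x.2.1 ++ x.2.2).rotate x.1) := by
    intro u hu
    rw [Finset.mem_filter, mem_Tq] at hu
    obtain ⟨⟨h1, h2⟩, h3⟩ := hu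
    obtain ⟨i, hi, w1, w2, e, k1, k2, k3, k4, k5, k6⟩ := exists_split h1 h2 hn h3
    rw [Finset.mem_image]
    refine ⟨((n - i) % n, w1, w2), ?_, ?_⟩
    · rw [Finset.mem_product, mem_Zs]
      have hl := congrArg List.length e
      rw [List.length_rotate, List.length_append] at hl
      have hc : (u.rotate i).count 1 = w1.count 1 + w2.count 1 := by
        rw [e, List.count_append]
      rw [(List.rotate_perm u i).count_eq] at hc
      refine ⟨Finset.mem_range.mpr (Nat.mod_lt _ hn), k1, k2, ?_, ?_, k3, k4, k5, k6⟩
      · simp only; omega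
      · simp only; omega
    · simp only
      rw [← e, List.rotate_rotate]
      have hl : (u.rotate (i + (n - i) % n)) = u.rotate ((i + (n - i) % n) % u.length) :=
        (List.rotate_mod _ _).symm
      rw [hl, h1]
      have : (i + (n - i) % n) % n = 0 := by
        rw [Nat.add_mod_mod]
        have : i + (n - i) = n := by omega
        rw [this, Nat.mod_self]
      rw [this, List.rotate_zero]
  calc _ ≤ _ := Finset.card_le_card this
    _ ≤ _ := Finset.card_image_le
    _ = _ := by rw [Finset.card_product, Finset.card_range]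

end Pool.Agent.Helper426.TW
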