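import Mathlib
import Pool.Agent.Helper426.TW.Count

set_option autoImplicit false

namespace Pool.Agent.Helper426.TW

open Finset

/-! ### central binomial coefficients -/

theorem central_sq (m : ℕ) : (Nat.centralBinom m) ^ 2 * (2 * m + 1) ≤ 16 ^ m := by
  induction m with
  | zero => simp
  | succ m ih =>
    have h := Nat.succ_mul_centralBinom_succ m
    -- (m+1) c_{m+1} = 2 (2m+1) c_m
    have h2 : (m + 1) ^ 2 * ((Nat.centralBinom (m + 1)) ^ 2 * (2 * (m + 1) + 1)) ≤
        (m + 1) ^ 2 * 16 ^ (m + 1) := by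
      calc (m + 1) ^ 2 * ((Nat.centralBinom (m + 1)) ^ 2 * (2 * (m + 1) + 1))
          = ((m + 1) * Nat.centralBinom (m + 1)) ^ 2 * (2 * m + 3) := by ring
        _ = (2 * (2 * m + 1) * Nat.centralBinom m) ^ 2 * (2 * m + 3) := by rw [h]
        _ = (4 * (2 * m + 1) * (2 * m + 3)) * ((Nat.centralBinom m) ^ 2 * (2 * m + 1)) := by ring
        _ ≤ (4 * (2 * m + 1) * (2 * m + 3)) * 16 ^ m := Nat.mul_le_mul_left _ ih
        _ ≤ (16 * (m + 1) ^ 2) * 16 ^ m := by
            apply Nat.mul_le_mul_right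
            nlinarith
        _ = (m + 1) ^ 2 * 16 ^ (m + 1) := by ring
    exact Nat.le_of_mul_le_mul_left h2 (by positivity)

theorem middle_sq (e : ℕ) : (e.choose (e / 2)) ^ 2 * (e + 1) ≤ 4 ^ e := by
  rcases Nat.even_or_odd' e with ⟨m, rfl | rfl⟩
  · have h := central_sq m
    rw [Nat.centralBinom] at h
    rw [Nat.mul_div_cancel_left m (by norm_num)]
    calc ((2 * m).choose m) ^ 2 * (2 * m + 1) ≤ 16 ^ m := h
      _ = 4 ^ (2 * m) := by rw [pow_mul]; norm_num
  · have h := central_sq (m + 1)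
    have h3 : (2 * m + 1) / 2 = m := by omega
    rw [h3]
    have h4 : Nat.centralBinom (m + 1) = 2 * ((2 * m + 1).choose m) := by
      rw [Nat.centralBinom]
      have e1 : 2 * (m + 1) = (2 * m + 1) + 1 := by ring
      rw [e1, Nat.choose_succ_succ]
      have e2 : (2 * m + 1).choose (m + 1) = (2 * m + 1).choose m := by
        rw [← Nat.choose_symm_of_eq_add (show 2 * m + 1 = (m + 1) + m by ring)]
      rw [e2]; ring
    rw [h4] at h
    have h5 : 4 * (((2 * m + 1).choose m) ^ 2 * (2 * m + 1 + 1)) ≤ 4 * 4 ^ (2 * m + 1) := by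
      calc 4 * (((2 * m + 1).choose m) ^ 2 * (2 * m + 1 + 1))
          ≤ (2 * ((2 * m + 1).choose m)) ^ 2 * (2 * (m + 1) + 1) := by nlinarith [sq_nonneg ((2 * m + 1).choose m)]
        _ ≤ 16 ^ (m + 1) := h
        _ = 4 * 4 ^ (2 * m + 1) := by
            rw [show (16:ℕ) = 4 ^ 2 by norm_num, ← pow_mul]; ring
    exact Nat.le_of_mul_le_mul_left h5 (by norm_num)

/-- words of length `e` whose number of `b`s lies in a given residue class -/
theorem card_resid (e c : ℕ) (he : 0 < e) :
    ((Wd e).filter (fun l => e ∣ l.count 1 + c)).card ≤ 2 * e.choose (e / 2) := by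
  have hsub : (Wd e).filter (fun l => e ∣ l.count 1 + c) ⊆
      Tq e ((e - c % e) % e) ∪ Tq e e := by
    intro l hl
    rw [Finset.mem_filter, mem_Wd] at hl
    rw [Finset.mem_union, mem_Tq, mem_Tq]
    obtain ⟨h1, h2⟩ := hl
    have h3 : l.count 1 ≤ e := by rw [← h1]; exact List.count_le_length
    rcases Nat.lt_or_ge (l.count 1) e with h4 | h4
    · left
      refine ⟨h1, ?_⟩
      have h5 : c % e < e := Nat.mod_lt _ he
      have h6 : l.count 1 ≡ (e - c % e) [MOD e] := by
        apply Nat.ModEq.add_right_cancel' (c % e)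
        have h7 : e - c % e + c % e = e := by omega
        rw [h7]
        have h8 : l.count 1 + c % e ≡ l.count 1 + c [MOD e] := 
          Nat.ModEq.add_left _ (Nat.mod_modEq c e)
        refine h8.trans ?_
        have h9 : l.count 1 + c ≡ 0 [MOD e] := (Nat.modEq_zero_iff_dvd).mpr h2
        refine h9.trans ?_
        exact ((Nat.modEq_zero_iff_dvd).mpr dvd_rfl).symm
      unfold Nat.ModEq at h6
      rw [Nat.mod_eq_of_lt h4] at h6
      exact h6
    · right
      exact ⟨h1, le_antisymm h3 h4⟩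
  calc _ ≤ _ := Finset.card_le_card hsub
    _ ≤ _ := Finset.card_union_le _ _
    _ ≤ e.choose (e / 2) + e.choose (e / 2) := by
        rw [card_Tq, card_Tq]
        exact Nat.add_le_add (Nat.choose_le_middle _ _) (Nat.choose_le_middle _ _)
    _ = _ := by ring

theorem card_dvd (n e : ℕ) (he : 0 < e) (hen : e ≤ n) :
    ((Wd n).filter (fun l => e ∣ l.count 1)).card ≤ 2 ^ (n - e) * (2 * e.choose (e / 2)) := by
  classical
  have hsub : (Wd n).filter (fun l => e ∣ l.count 1) ⊆
      (Wd (n - e)).biUnion (fun s => ((Wd e).filter (fun l => e ∣ l.count 1 + s.count 1)).image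
        (fun l => l ++ s)) := by
    intro l hl
    rw [Finset.mem_filter, mem_Wd] at hl
    obtain ⟨h1, h2⟩ := hl
    rw [Finset.mem_biUnion]
    refine ⟨l.drop e, mem_Wd.mpr (by rw [List.length_drop, h1]), ?_⟩
    rw [Finset.mem_image]
    refine ⟨l.take e, ?_, List.take_append_drop e l⟩
    rw [Finset.mem_filter, mem_Wd]
    refine ⟨by rw [List.length_take, h1]; omega, ?_⟩
    rw [← List.count_append, List.take_append_drop]
    exact h2
  calc _ ≤ _ := Finset.card_le_card hsub
    _ ≤ ∑ s ∈ Wd (n - e), (((Wd e).filter (fun l => e ∣ l.count 1 + s.count 1)).image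
        (fun l => l ++ s)).card := Finset.card_biUnion_le
    _ ≤ ∑ s ∈ Wd (n - e), 2 * e.choose (e / 2) := by
        apply Finset.sum_le_sum
        intro s _
        exact (Finset.card_image_le).trans (card_resid e _ he)
    _ = _ := by rw [Finset.sum_const, card_Wd, smul_eq_mul]

/-- real form: the proportion is at most `2 / √e` -/
theorem card_dvd_real (n e : ℕ) (he : 0 < e) (hen : e ≤ n) :
    (((Wd n).filter (fun l => e ∣ l.count 1)).card : ℝ) ≤ 2 ^ n * (2 / Real.sqrt e) := by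
  have h1 := card_dvd n e he hen
  have h2 : (((Wd n).filter (fun l => e ∣ l.count 1)).card : ℝ) ≤
      2 ^ (n - e) * (2 * (e.choose (e / 2) : ℝ)) := by exact_mod_cast h1
  have h3 : (e.choose (e / 2) : ℝ) ≤ 2 ^ e / Real.sqrt e := by
    rw [le_div_iff₀ (Real.sqrt_pos.mpr (by exact_mod_cast he))]
    apply abs_le_of_sq_le_sq' _ (by positivity) |>.2
    rw [mul_pow, Real.sq_sqrt (by positivity)]
    have h4 : ((e.choose (e / 2) : ℕ) : ℝ) ^ 2 * ((e : ℝ) + 1) ≤ 4 ^ e := by
      exact_mod_cast middle_sq e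
    have h5 : ((2:ℝ) ^ e) ^ 2 = 4 ^ e := by rw [← pow_mul, mul_comm, pow_mul]; norm_num
    rw [h5]
    nlinarith [sq_nonneg ((e.choose (e / 2) : ℕ) : ℝ)]
  calc _ ≤ _ := h2
    _ ≤ 2 ^ (n - e) * (2 * (2 ^ e / Real.sqrt e)) := by gcongr
    _ = (2 ^ (n - e) * 2 ^ e) * (2 / Real.sqrt e) := by ring
    _ = _ := by rw [← pow_add, Nat.sub_add_cancel hen]

/-! ### the divisor bound -/

theorem pow_bound_step (w : ℕ) : (16 + w) ^ 10 ≤ 2 * (15 + w) ^ 10 := by
  have h : ∀ k : ℕ, 0 ≤ w ^ k := fun k => Nat.zero_le _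
  ring_nf
  nlinarith [h 1, h 2, h 3, h 4, h 5, h 6, h 7, h 8, h 9, h 10]

theorem pow_bound (v : ℕ) : (v + 1) ^ 10 ≤ 15 ^ 10 * 2 ^ v := by
  rcases Nat.lt_or_ge v 14 with h | h
  · calc (v + 1) ^ 10 ≤ 15 ^ 10 := Nat.pow_le_pow_left (by omega) _
      _ = 15 ^ 10 * 1 := by ring
      _ ≤ _ := Nat.mul_le_mul_left _ Nat.one_le_two_pow
  · obtain ⟨w, rfl⟩ := Nat.exists_eq_add_of_le h
    clear h
    induction w with
    | zero => norm_num
    | succ w ih =>
      calc (14 + (w + 1) + 1) ^ 10 = (16 + w) ^ 10 := by ring_nf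
        _ ≤ 2 * (15 + w) ^ 10 := pow_bound_step w
        _ = 2 * (14 + w + 1) ^ 10 := by ring_nf
        _ ≤ 2 * (15 ^ 10 * 2 ^ (14 + w)) := Nat.mul_le_mul_left _ ih
        _ = 15 ^ 10 * 2 ^ (14 + (w + 1)) := by ring

theorem divisor_bound : ∃ K : ℕ, ∀ n : ℕ, n ≠ 0 → (n.divisors.card) ^ 10 ≤ K * n := by
  refine ⟨∏ p ∈ range 1024, 15 ^ 10, fun n hn => ?_⟩
  rw [Nat.card_divisors hn, ← Finset.prod_pow]
  conv_rhs => rw [← Nat.prod_factorization_pow_eq_self hn]
  rw [Finsupp.prod, Nat.support_factorization]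
  have h1 : ∀ p ∈ n.primeFactors, (n.factorization p + 1) ^ 10 ≤
      (if p < 1024 then 15 ^ 10 else 1) * p ^ n.factorization p := by
    intro p hp
    have hp2 : 2 ≤ p := (Nat.prime_of_mem_primeFactors hp).two_le
    split_ifs with h
    · exact (pow_bound _).trans (Nat.mul_le_mul_left _ (Nat.pow_le_pow_left hp2 _))
    · rw [one_mul]
      calc (n.factorization p + 1) ^ 10 ≤ (2 ^ n.factorization p) ^ 10 :=
            Nat.pow_le_pow_left Nat.lt_two_pow_self _
        _ = 1024 ^ n.factorization p := by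
            rw [← pow_mul, mul_comm, pow_mul]; norm_num
        _ ≤ _ := Nat.pow_le_pow_left (by omega) _
  calc _ ≤ ∏ p ∈ n.primeFactors, (if p < 1024 then 15 ^ 10 else 1) * p ^ n.factorization p :=
        Finset.prod_le_prod' h1
    _ = (∏ p ∈ n.primeFactors, (if p < 1024 then 15 ^ 10 else 1)) *
        ∏ p ∈ n.primeFactors, p ^ n.factorization p := Finset.prod_mul_distrib
    _ ≤ _ := by
        apply Nat.mul_le_mul_right
        rw [← Finset.prod_filter]
        apply Finset.prod_le_prod_of_subset_of_one_le'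
        · intro p hp
          rw [Finset.mem_filter] at hp
          exact Finset.mem_range.mpr hp.2
        · intro i _ _
          norm_num

end Pool.Agent.Helper426.TW
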