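import Mathlib
import Pool.Agent.Helper426.TW.Resid
import Pool.Agent.Helper426.TW.Aut

set_option autoImplicit false

namespace Pool.Agent.Helper426.TW

open Finset Filter Topology

open Classical in
theorem bad_q_le (n q : ℕ) (hn : 0 < n) :
    (((Tq n q).filter (fun u => ¬ UniqueMin u)).card : ℝ) ≤
      ((Nat.gcd n q : ℝ) ^ 3 / n) * (Tq n q).card := by
  have h1 := card_bad_le n q hn
  have h2 := card_Zs_le n q hn
  set n' := n / Nat.gcd n q with hn'
  set d := Nat.gcd n q with hd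
  have hg : d * n' = n := Nat.mul_div_cancel' (Nat.gcd_dvd_left n q)
  have hgpos : 0 < d := Nat.gcd_pos_of_pos_left q hn
  have hn'pos : 0 < n' := Nat.pos_of_ne_zero (by rintro h; rw [h] at hg; omega)
  have h1' : (((Tq n q).filter (fun u => ¬ UniqueMin u)).card : ℝ) ≤ n * (Zs n q).card := by
    exact_mod_cast h1
  have h2' : (n' : ℝ) * (n' * (Zs n q).card) ≤ d * (Tq n q).card := by exact_mod_cast h2
  have hg' : (d : ℝ) * n' = n := by exact_mod_cast hg
  have hdr : (0:ℝ) < d := by exact_mod_cast hgpos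
  have hnr' : (0:ℝ) < n' := by exact_mod_cast hn'pos
  have hnr : (0:ℝ) < n := by exact_mod_cast hn
  have h3 : ((Zs n q).card : ℝ) ≤ d * (Tq n q).card / (n' * n') := by
    rw [le_div_iff₀ (by positivity)]
    linarith
  calc _ ≤ _ := h1'
    _ ≤ n * (d * (Tq n q).card / (n' * n')) := by gcongr
    _ = ((d : ℝ) ^ 3 / n) * (Tq n q).card := by
        rw [← hg']
        field_simp

open Classical in
/-- the number of positive words of length `n` that are not determined by their traces -/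
noncomputable def bad (n : ℕ) : ℕ := ((Wd n).filter (fun l => ¬ Determined l)).card

open Classical in
theorem bad_le (n : ℕ) (hn : 0 < n) :
    (bad n : ℝ) ≤ 2 ^ n * ((n : ℝ) ^ (-(1/10) : ℝ) +
      (n.divisors.card : ℝ) * (2 * (n : ℝ) ^ (-(3/20) : ℝ))) := by
  have hnr : (0:ℝ) < n := by exact_mod_cast hn
  set D : ℝ := (n : ℝ) ^ ((3/10) : ℝ) with hD
  have hDpos : 0 < D := Real.rpow_pos_of_pos hnr _
  set B1 := (Wd n).filter (fun l => D < (Nat.gcd n (l.count 1) : ℝ)) with hB1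
  set B2 := (range (n + 1)).biUnion (fun q => if (Nat.gcd n q : ℝ) ≤ D then
    (Tq n q).filter (fun u => ¬ UniqueMin u) else ∅) with hB2
  have hsub : (Wd n).filter (fun l => ¬ Determined l) ⊆ B1 ∪ B2 := by
    intro l hl
    rw [Finset.mem_filter, mem_Wd] at hl
    obtain ⟨h1, h2⟩ := hl
    have h3 : ¬ l.count 1 ≤ 1 := fun h => h2 (determined_of_count_le_one h)
    have h4 : ¬ UniqueMin l := fun h => h2 (determined_of_uniqueMin h (by omega))
    rw [Finset.mem_union]
    by_cases h5 : D < (Nat.gcd n (l.count 1) : ℝ)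
    · left
      rw [hB1, Finset.mem_filter, mem_Wd]
      exact ⟨h1, h5⟩
    · right
      rw [hB2, Finset.mem_biUnion]
      refine ⟨l.count 1, ?_, ?_⟩
      · have : l.count 1 ≤ l.length := List.count_le_length
        exact Finset.mem_range.mpr (by omega)
      · rw [if_pos (not_lt.mp h5), Finset.mem_filter, mem_Tq]
        exact ⟨⟨h1, rfl⟩, h4⟩
  -- first part
  have hB1le : (B1.card : ℝ) ≤ (n.divisors.card : ℝ) * (2 ^ n * (2 * (n : ℝ) ^ (-(3/20) : ℝ))) := by
    have hs : B1 ⊆ (n.divisors.filter (fun e : ℕ => D < (e : ℝ))).biUnion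
        (fun e : ℕ => (Wd n).filter (fun l => e ∣ l.count 1)) := by
      intro l hl
      rw [hB1, Finset.mem_filter] at hl
      rw [Finset.mem_biUnion]
      refine ⟨Nat.gcd n (l.count 1), ?_, ?_⟩
      · rw [Finset.mem_filter, Nat.mem_divisors]
        exact ⟨⟨Nat.gcd_dvd_left _ _, by omega⟩, hl.2⟩
      · rw [Finset.mem_filter]
        exact ⟨hl.1, Nat.gcd_dvd_right _ _⟩
    have h1 : (B1.card : ℝ) ≤ ∑ e ∈ n.divisors.filter (fun e : ℕ => D < (e : ℝ)),
        (((Wd n).filter (fun l => e ∣ l.count 1)).card : ℝ) := by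
      have := (Finset.card_le_card hs).trans Finset.card_biUnion_le
      exact_mod_cast this
    have h2 : ∀ e ∈ n.divisors.filter (fun e : ℕ => D < (e : ℝ)),
        (((Wd n).filter (fun l => e ∣ l.count 1)).card : ℝ) ≤
          2 ^ n * (2 * (n : ℝ) ^ (-(3/20) : ℝ)) := by
      intro e he
      rw [Finset.mem_filter, Nat.mem_divisors] at he
      have hepos : 0 < e := Nat.pos_of_dvd_of_pos he.1.1 hn
      have hen : e ≤ n := Nat.le_of_dvd hn he.1.1
      refine (card_dvd_real n e hepos hen).trans ?_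
      gcongr
      rw [div_eq_mul_inv]
      gcongr
      have h3 : (n : ℝ) ^ (-(3/20) : ℝ) = (Real.sqrt D)⁻¹ := by
        rw [hD, Real.sqrt_eq_rpow, ← Real.rpow_mul hnr.le, ← Real.rpow_neg hnr.le]
        norm_num
      rw [h3]
      gcongr
      exact he.2.le
    calc _ ≤ _ := h1
      _ ≤ ∑ e ∈ n.divisors.filter (fun e : ℕ => D < (e : ℝ)),
          2 ^ n * (2 * (n : ℝ) ^ (-(3/20) : ℝ)) := Finset.sum_le_sum h2
      _ = ((n.divisors.filter (fun e : ℕ => D < (e : ℝ))).card : ℝ) *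
          (2 ^ n * (2 * (n : ℝ) ^ (-(3/20) : ℝ))) := by rw [Finset.sum_const, nsmul_eq_mul]
      _ ≤ _ := by
          gcongr
          exact Finset.filter_subset _ _
  -- second part
  have hB2le : (B2.card : ℝ) ≤ (n : ℝ) ^ (-(1/10) : ℝ) * 2 ^ n := by
    have h1 : (B2.card : ℝ) ≤ ∑ q ∈ range (n + 1), ((if (Nat.gcd n q : ℝ) ≤ D then
        (Tq n q).filter (fun u => ¬ UniqueMin u) else ∅).card : ℝ) := by
      have : B2.card ≤ _ := Finset.card_biUnion_le
      exact_mod_cast this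
    have h2 : ∀ q ∈ range (n + 1), ((if (Nat.gcd n q : ℝ) ≤ D then
        (Tq n q).filter (fun u => ¬ UniqueMin u) else ∅).card : ℝ) ≤
        (n : ℝ) ^ (-(1/10) : ℝ) * (Tq n q).card := by
      intro q _
      split_ifs with h
      · refine (bad_q_le n q hn).trans ?_
        gcongr
        rw [div_le_iff₀ hnr]
        have h3 : (n : ℝ) ^ (-(1/10) : ℝ) * n = D ^ 3 := by
          rw [hD, ← Real.rpow_natCast, ← Real.rpow_mul hnr.le]
          nth_rewrite 2 [← Real.rpow_one (n : ℝ)]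
          rw [← Real.rpow_add hnr]
          norm_num
        rw [h3]
        gcongr
      · rw [Finset.card_empty, Nat.cast_zero]
        positivity
    have h4 : ∑ q ∈ range (n + 1), ((Tq n q).card : ℝ) = 2 ^ n := by
      have : ∑ q ∈ range (n + 1), (Tq n q).card = 2 ^ n := by
        simp_rw [card_Tq]
        exact Nat.sum_range_choose n
      exact_mod_cast this
    calc _ ≤ _ := h1
      _ ≤ ∑ q ∈ range (n + 1), (n : ℝ) ^ (-(1/10) : ℝ) * (Tq n q).card := Finset.sum_le_sum h2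
      _ = _ := by rw [← Finset.mul_sum, h4]
  have h5 : (bad n : ℝ) ≤ B1.card + B2.card := by
    have : bad n ≤ B1.card + B2.card :=
      (Finset.card_le_card hsub).trans (Finset.card_union_le _ _)
    exact_mod_cast this
  calc (bad n : ℝ) ≤ _ := h5
    _ ≤ (n.divisors.card : ℝ) * (2 ^ n * (2 * (n : ℝ) ^ (-(3/20) : ℝ))) +
        (n : ℝ) ^ (-(1/10) : ℝ) * 2 ^ n := add_le_add hB1le hB2le
    _ = _ := by ring

theorem bad_tendsto : Tendsto (fun n : ℕ => (bad n : ℝ) / 2 ^ n) atTop (𝓝 0) := by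
  obtain ⟨K, hK⟩ := divisor_bound
  have hbound : ∀ n : ℕ, 0 < n → (bad n : ℝ) / 2 ^ n ≤ (n : ℝ) ^ (-(1/10) : ℝ) +
      2 * (K : ℝ) ^ ((1/10) : ℝ) * (n : ℝ) ^ (-(1/20) : ℝ) := by
    intro n hn
    have hnr : (0:ℝ) < n := by exact_mod_cast hn
    rw [div_le_iff₀ (by positivity)]
    refine (bad_le n hn).trans ?_
    have h1 : (n.divisors.card : ℝ) ≤ (K : ℝ) ^ ((1/10) : ℝ) * (n : ℝ) ^ ((1/10) : ℝ) := by
      have h2 : ((n.divisors.card : ℝ)) ^ 10 ≤ (K : ℝ) * n := by exact_mod_cast hK n hn.ne'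
      have hKn : (0:ℝ) ≤ K := Nat.cast_nonneg K
      have ht : (0:ℝ) ≤ (n.divisors.card : ℝ) := Nat.cast_nonneg _
      generalize (n.divisors.card : ℝ) = t at h2 ht
      generalize (K : ℝ) = k at h2 hKn
      rw [← Real.mul_rpow hKn hnr.le]
      have h3 : (t ^ 10) ^ ((1/10) : ℝ) = t := by
        rw [← Real.rpow_natCast, ← Real.rpow_mul ht]
        norm_num
      calc t = (t ^ 10) ^ ((1/10) : ℝ) := h3.symm
        _ ≤ _ := Real.rpow_le_rpow (pow_nonneg ht 10) h2 (by norm_num)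
    have h4 : (n : ℝ) ^ ((1/10) : ℝ) * (n : ℝ) ^ (-(3/20) : ℝ) = (n : ℝ) ^ (-(1/20) : ℝ) := by
      rw [← Real.rpow_add hnr]; norm_num
    rw [mul_comm ((n : ℝ) ^ (-(1/10) : ℝ) + 2 * (K : ℝ) ^ ((1/10) : ℝ) *
      (n : ℝ) ^ (-(1/20) : ℝ))]
    apply mul_le_mul_of_nonneg_left _ (by positivity)
    have h5 : (n.divisors.card : ℝ) * (2 * (n : ℝ) ^ (-(3/20) : ℝ)) ≤
        ((K : ℝ) ^ ((1/10) : ℝ) * (n : ℝ) ^ ((1/10) : ℝ)) * (2 * (n : ℝ) ^ (-(3/20) : ℝ)) := by
      gcongr
    have h6 : ((K : ℝ) ^ ((1/10) : ℝ) * (n : ℝ) ^ ((1/10) : ℝ)) * (2 * (n : ℝ) ^ (-(3/20) : ℝ)) =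
        2 * (K : ℝ) ^ ((1/10) : ℝ) * (n : ℝ) ^ (-(1/20) : ℝ) := by
      rw [← h4]; ring
    linarith
  have hcast : Tendsto (fun n : ℕ => (n : ℝ)) atTop atTop := tendsto_natCast_atTop_atTop
  have l1 : Tendsto (fun n : ℕ => (n : ℝ) ^ (-(1/10) : ℝ)) atTop (𝓝 0) :=
    (tendsto_rpow_neg_atTop (by norm_num)).comp hcast
  have l2 : Tendsto (fun n : ℕ => (n : ℝ) ^ (-(1/20) : ℝ)) atTop (𝓝 0) :=
    (tendsto_rpow_neg_atTop (by norm_num)).comp hcast
  have l3 : Tendsto (fun n : ℕ => (n : ℝ) ^ (-(1/10) : ℝ) +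
      2 * (K : ℝ) ^ ((1/10) : ℝ) * (n : ℝ) ^ (-(1/20) : ℝ)) atTop (𝓝 0) := by
    have := l1.add (l2.const_mul (2 * (K : ℝ) ^ ((1/10) : ℝ)))
    simpa using this
  refine squeeze_zero' (Eventually.of_forall fun n => by positivity) ?_ l3
  filter_upwards [eventually_gt_atTop 0] with n hn
  exact hbound n hn

open Classical in
theorem density_one : Tendsto (fun n : ℕ =>
    (((Finset.univ : Finset (Fin n → Fin 2)).filter
      (fun u => Determined (List.ofFn u))).card : ℝ) / 2 ^ n) atTop (𝓝 1) := by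
  have key : ∀ n : ℕ, (((Finset.univ : Finset (Fin n → Fin 2)).filter
      (fun u => Determined (List.ofFn u))).card : ℝ) / 2 ^ n = 1 - (bad n : ℝ) / 2 ^ n := by
    intro n
    have h1 : ((Finset.univ : Finset (Fin n → Fin 2)).filter
        (fun u => Determined (List.ofFn u))).card + bad n = 2 ^ n := by
      have h2 : ((Finset.univ : Finset (Fin n → Fin 2)).filter
          (fun u => ¬ Determined (List.ofFn u))).card = bad n := by
        unfold bad Wd
        rw [Finset.filter_map, Finset.card_map]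
        rfl
      rw [← h2, Finset.card_filter_add_card_filter_not, Finset.card_univ, Fintype.card_fun]
      simp
    have h3 : ((((Finset.univ : Finset (Fin n → Fin 2)).filter
        (fun u => Determined (List.ofFn u))).card : ℝ)) + bad n = 2 ^ n := by exact_mod_cast h1
    have h4 : (2:ℝ) ^ n ≠ 0 := by positivity
    field_simp
    linarith
  simp_rw [key]
  simpa using (tendsto_const_nhds (x := (1:ℝ))).sub bad_tendsto

end Pool.Agent.Helper426.TW
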